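import Pool.Agent.H.MP_4bcbbd_co.h39f.Defs

/-!
MP_4bcbbd_co, polytopes with few vertices: means over pairs `(J, A)`.
-/

set_option autoImplicit false

namespace Pool.Agent.H.MP_4bcbbd_co.F

open scoped BigOperators RealInnerProductSpace

theorem avg_den (B : Finset ℕ) (m : ℕ) : 0 ≤ (B.card.choose m : ℝ) * 2 ^ B.card := by positivity

theorem avg_den_pos {B : Finset ℕ} {m : ℕ} (hm : m ≤ B.card) :
    0 < (B.card.choose m : ℝ) * 2 ^ B.card := by
  have : 0 < B.card.choose m := Nat.choose_pos hm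
  have h : (0 : ℝ) < (B.card.choose m : ℝ) := by exact_mod_cast this
  positivity

theorem avg_card (B : Finset ℕ) (m : ℕ) :
    ((B.powersetCard m ×ˢ B.powerset).card : ℝ) = (B.card.choose m : ℝ) * 2 ^ B.card := by
  rw [Finset.card_product, Finset.card_powersetCard, Finset.card_powerset]
  push_cast
  rfl

theorem avg_pr (B : Finset ℕ) (m : ℕ) (p : Finset ℕ → Finset ℕ → Prop)
    [DecidablePred fun P : Finset ℕ × Finset ℕ => p P.1 P.2] :
    pr B m p = (((B.powersetCard m ×ˢ B.powerset).filter fun P => p P.1 P.2).card : ℝ) /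
      ((B.card.choose m : ℝ) * 2 ^ B.card) := by
  unfold pr
  congr!

theorem pr_nonneg (B : Finset ℕ) (m : ℕ) (p : Finset ℕ → Finset ℕ → Prop) : 0 ≤ pr B m p := by
  unfold pr
  positivity

theorem pr_le_one (B : Finset ℕ) (m : ℕ) (p : Finset ℕ → Finset ℕ → Prop) : pr B m p ≤ 1 := by
  classical
  unfold pr
  refine div_le_one_of_le₀ ?_ (avg_den B m)
  rw [← avg_card]
  exact_mod_cast Finset.card_filter_le _ _

theorem pr_mono {B : Finset ℕ} {m : ℕ} {p q : Finset ℕ → Finset ℕ → Prop}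
    (h : ∀ J ∈ B.powersetCard m, ∀ A ∈ B.powerset, p J A → q J A) : pr B m p ≤ pr B m q := by
  classical
  unfold pr
  refine div_le_div_of_nonneg_right ?_ (avg_den B m)
  have : ((B.powersetCard m ×ˢ B.powerset).filter fun P => p P.1 P.2).card ≤
      ((B.powersetCard m ×ˢ B.powerset).filter fun P => q P.1 P.2).card := by
    refine Finset.card_le_card fun P hP => ?_
    rw [Finset.mem_filter, Finset.mem_product] at hP ⊢
    exact ⟨hP.1, h P.1 hP.1.1 P.2 hP.1.2 hP.2⟩
  exact_mod_cast this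

theorem pr_or (B : Finset ℕ) (m : ℕ) (p q : Finset ℕ → Finset ℕ → Prop) :
    pr B m (fun J A => p J A ∨ q J A) ≤ pr B m p + pr B m q := by
  classical
  rw [avg_pr, avg_pr B m p, avg_pr B m q, ← add_div]
  refine div_le_div_of_nonneg_right ?_ (avg_den B m)
  have h : ((B.powersetCard m ×ˢ B.powerset).filter fun P => p P.1 P.2 ∨ q P.1 P.2).card ≤
      ((B.powersetCard m ×ˢ B.powerset).filter fun P => p P.1 P.2).card +
      ((B.powersetCard m ×ˢ B.powerset).filter fun P => q P.1 P.2).card := by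
    rw [Finset.filter_or]
    exact Finset.card_union_le _ _
  exact_mod_cast h

/-- union bound over a finite index type. -/
theorem pr_exists {κ : Type} (K : Finset κ) (B : Finset ℕ) (m : ℕ)
    (p : κ → Finset ℕ → Finset ℕ → Prop) :
    pr B m (fun J A => ∃ k ∈ K, p k J A) ≤ ∑ k ∈ K, pr B m (p k) := by
  classical
  induction K using Finset.induction_on with
  | empty =>
    rw [Finset.sum_empty]
    have : pr B m (fun J A => ∃ k ∈ (∅ : Finset κ), p k J A) = 0 := by
      rw [avg_pr]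
      have h : ((B.powersetCard m ×ˢ B.powerset).filter
          fun P => ∃ k ∈ (∅ : Finset κ), p k P.1 P.2) = ∅ := by
        rw [Finset.filter_eq_empty_iff]
        rintro P - ⟨k, hk, -⟩
        exact absurd hk (Finset.notMem_empty k)
      rw [h, Finset.card_empty, Nat.cast_zero, zero_div]
    exact this.le
  | insert k K hk ih =>
    rw [Finset.sum_insert hk]
    refine le_trans ?_ (add_le_add_right ih _)
    refine le_trans ?_ (pr_or B m _ _)
    refine pr_mono fun J _ A _ h => ?_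
    obtain ⟨l, hl, h⟩ := h
    rcases Finset.mem_insert.1 hl with rfl | hl
    · exact Or.inl h
    · exact Or.inr ⟨l, hl, h⟩

theorem ex_mono {B : Finset ℕ} {m : ℕ} {f g : Finset ℕ → Finset ℕ → ℝ}
    (h : ∀ J ∈ B.powersetCard m, ∀ A ∈ B.powerset, f J A ≤ g J A) : ex B m f ≤ ex B m g := by
  unfold ex
  refine div_le_div_of_nonneg_right ?_ (avg_den B m)
  exact Finset.sum_le_sum fun J hJ => Finset.sum_le_sum fun A hA => h J hJ A hA

theorem ex_const {B : Finset ℕ} {m : ℕ} (hm : m ≤ B.card) (a : ℝ) :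
    ex B m (fun _ _ => a) = a := by
  unfold ex
  rw [Finset.sum_const, Finset.sum_const, Finset.card_powersetCard, Finset.card_powerset,
    nsmul_eq_mul, nsmul_eq_mul]
  have h : (0 : ℝ) < (B.card.choose m : ℝ) := by exact_mod_cast Nat.choose_pos hm
  push_cast
  field_simp

/-- Markov's inequality. -/
theorem pr_markov {B : Finset ℕ} {m : ℕ} {f : Finset ℕ → Finset ℕ → ℝ} {a : ℝ} (ha : 0 < a)
    (h : ∀ J ∈ B.powersetCard m, ∀ A ∈ B.powerset, 0 ≤ f J A) :
    pr B m (fun J A => a ≤ f J A) ≤ ex B m f / a := by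
  classical
  unfold pr ex
  rw [div_right_comm]
  refine div_le_div_of_nonneg_right ?_ (avg_den B m)
  rw [le_div_iff₀ ha, ← Finset.sum_product']
  calc ((((B.powersetCard m ×ˢ B.powerset).filter fun P => a ≤ f P.1 P.2).card : ℝ)) * a
      = ∑ P ∈ (B.powersetCard m ×ˢ B.powerset).filter (fun P => a ≤ f P.1 P.2), a := by
        rw [Finset.sum_const, nsmul_eq_mul]
    _ ≤ ∑ P ∈ (B.powersetCard m ×ˢ B.powerset).filter (fun P => a ≤ f P.1 P.2), f P.1 P.2 :=
        Finset.sum_le_sum fun P hP => (Finset.mem_filter.1 hP).2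
    _ ≤ ∑ P ∈ B.powersetCard m ×ˢ B.powerset, f P.1 P.2 := by
        refine Finset.sum_le_sum_of_subset_of_nonneg (Finset.filter_subset _ _) fun P hP _ => ?_
        rw [Finset.mem_product] at hP
        exact h P.1 hP.1 P.2 hP.2

/-- the complement. -/
theorem pr_not {B : Finset ℕ} {m : ℕ} (hm : m ≤ B.card) (p : Finset ℕ → Finset ℕ → Prop) :
    pr B m (fun J A => ¬ p J A) = 1 - pr B m p := by
  classical
  have h := avg_den_pos hm
  rw [avg_pr, avg_pr B m p, eq_sub_iff_add_eq, ← add_div, div_eq_one_iff_eq h.ne', ← avg_card]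
  have h2 := Finset.card_filter_add_card_filter_not (s := B.powersetCard m ×ˢ B.powerset)
    (fun P => p P.1 P.2)
  rw [add_comm]
  exact_mod_cast h2

/-- the mean of a function of `A` alone. -/
theorem ex_A {B : Finset ℕ} {m : ℕ} (hm : m ≤ B.card) (f : Finset ℕ → ℝ) :
    ex B m (fun _ A => f A) = (∑ A ∈ B.powerset, f A) / 2 ^ B.card := by
  unfold ex
  rw [Finset.sum_const, Finset.card_powersetCard, nsmul_eq_mul]
  have h : (0 : ℝ) < (B.card.choose m : ℝ) := by exact_mod_cast Nat.choose_pos hm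
  field_simp

open Classical in
/-- the proportion for a property of `A` alone. -/
theorem pr_A {B : Finset ℕ} {m : ℕ} (hm : m ≤ B.card) (p : Finset ℕ → Prop) :
    pr B m (fun _ A => p A) = ((B.powerset.filter p).card : ℝ) / 2 ^ B.card := by
  unfold pr
  have h1 : ((B.powersetCard m ×ˢ B.powerset).filter fun P => p P.2) =
      B.powersetCard m ×ˢ B.powerset.filter p := by
    ext P
    simp only [Finset.mem_filter, Finset.mem_product]
    tauto
  rw [h1, Finset.card_product, Finset.card_powersetCard]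
  have h : (0 : ℝ) < (B.card.choose m : ℝ) := by exact_mod_cast Nat.choose_pos hm
  push_cast
  field_simp

/-- the number of `m`-subsets containing a given set. -/
theorem avg_count {B T : Finset ℕ} (hT : T ⊆ B) {m : ℕ} (hm : T.card ≤ m) :
    ((B.powersetCard m).filter fun J => T ⊆ J).card =
      (B.card - T.card).choose (m - T.card) := by
  rw [← Finset.card_sdiff_of_subset hT, ← Finset.card_powersetCard]
  refine Finset.card_nbij' (fun J => J \ T) (fun K => K ∪ T) ?_ ?_ ?_ ?_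
  · intro J hJ
    simp only [Finset.coe_filter, Finset.mem_powersetCard, Set.mem_ofPred_eq] at hJ
    simp only [Finset.mem_coe, Finset.mem_powersetCard]
    refine ⟨Finset.sdiff_subset_sdiff hJ.1.1 le_rfl, ?_⟩
    rw [Finset.card_sdiff_of_subset hJ.2, hJ.1.2]
  · intro K hK
    simp only [Finset.mem_coe, Finset.mem_powersetCard] at hK
    simp only [Finset.coe_filter, Finset.mem_powersetCard, Set.mem_ofPred_eq]
    refine ⟨⟨Finset.union_subset (hK.1.trans Finset.sdiff_subset) hT, ?_⟩,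
      Finset.subset_union_right⟩
    rw [Finset.card_union_of_disjoint, hK.2, Nat.sub_add_cancel hm]
    exact Finset.disjoint_of_subset_left hK.1 Finset.sdiff_disjoint
  · intro J hJ
    simp only [Finset.coe_filter, Finset.mem_powersetCard, Set.mem_ofPred_eq] at hJ
    exact Finset.sdiff_union_of_subset hJ.2
  · intro K hK
    simp only [Finset.mem_coe, Finset.mem_powersetCard] at hK
    show (K ∪ T) \ T = K
    rw [Finset.union_sdiff_right]
    exact Finset.sdiff_eq_self_of_disjoint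
      (Finset.disjoint_of_subset_left hK.1 Finset.sdiff_disjoint)

theorem avg_sum {B : Finset ℕ} (m : ℕ) (a : ℕ → ℝ) :
    ∑ J ∈ B.powersetCard m, ∑ i ∈ J, a i =
      ∑ i ∈ B, (((B.powersetCard m).filter fun J => {i} ⊆ J).card : ℝ) * a i := by
  have h : ∀ J ∈ B.powersetCard m, ∑ i ∈ J, a i = ∑ i ∈ B, if i ∈ J then a i else 0 := by
    intro J hJ
    rw [Finset.mem_powersetCard] at hJ
    rw [← Finset.sum_filter]
    refine Finset.sum_congr ?_ fun _ _ => rfl
    ext i
    rw [Finset.mem_filter]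
    exact ⟨fun h => ⟨hJ.1 h, h⟩, fun h => h.2⟩
  rw [Finset.sum_congr rfl h, Finset.sum_comm]
  refine Finset.sum_congr rfl fun i _ => ?_
  rw [← Finset.sum_filter, Finset.sum_const, nsmul_eq_mul]
  simp only [Finset.singleton_subset_iff]

theorem avg_ratio {n m : ℕ} (hm : 1 ≤ m) (hmn : m ≤ n) :
    (((n - 1).choose (m - 1) : ℕ) : ℝ) = (m : ℝ) / n * (n.choose m : ℝ) := by
  obtain ⟨k, rfl⟩ : ∃ k, m = k + 1 := ⟨m - 1, by omega⟩
  obtain ⟨l, rfl⟩ : ∃ l, n = l + 1 := ⟨n - 1, by omega⟩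
  have h := Nat.add_one_mul_choose_eq l k
  have h2 : (((l + 1) * l.choose k : ℕ) : ℝ) = (((l + 1).choose (k + 1) * (k + 1) : ℕ) : ℝ) := by
    rw [h]
  push_cast at h2
  have h3 : (0 : ℝ) < (l : ℝ) + 1 := by positivity
  simp only [Nat.add_sub_cancel]
  push_cast
  field_simp
  linarith

/-- first moment of the sum over a random `m`-subset. -/
theorem ex_J {B : Finset ℕ} {m : ℕ} (hm : m ≤ B.card) (a : ℕ → ℝ) :
    ex B m (fun J _ => ∑ i ∈ J, a i) = (m : ℝ) / B.card * ∑ i ∈ B, a i := by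
  unfold ex
  have h0 : ∀ J ∈ B.powersetCard m, ∑ _A ∈ B.powerset, ∑ i ∈ J, a i =
      2 ^ B.card * ∑ i ∈ J, a i := by
    intro J _
    rw [Finset.sum_const, Finset.card_powerset, nsmul_eq_mul]
    push_cast
    rfl
  rw [Finset.sum_congr rfl h0, ← Finset.mul_sum]
  have hC : (0 : ℝ) < (B.card.choose m : ℝ) := by exact_mod_cast Nat.choose_pos hm
  rcases Nat.eq_zero_or_pos m with rfl | hm1
  · simp
  have h1 : ∑ J ∈ B.powersetCard m, ∑ i ∈ J, a i =
      (m : ℝ) / B.card * (B.card.choose m : ℝ) * ∑ i ∈ B, a i := by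
    rw [avg_sum, Finset.mul_sum]
    refine Finset.sum_congr rfl fun i hi => ?_
    rw [avg_count (Finset.singleton_subset_iff.2 hi) (by rw [Finset.card_singleton]; exact hm1),
      Finset.card_singleton, avg_ratio hm1 hm]
  rw [h1]
  field_simp

theorem avg_sq {B : Finset ℕ} (m : ℕ) (b : ℕ → ℝ) :
    ∑ J ∈ B.powersetCard m, (∑ i ∈ J, b i) ^ 2 =
      ∑ i ∈ B, ∑ j ∈ B,
        (((B.powersetCard m).filter fun J => {i, j} ⊆ J).card : ℝ) * (b i * b j) := by
  have h : ∀ J ∈ B.powersetCard m, (∑ i ∈ J, b i) ^ 2 =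
      ∑ i ∈ B, ∑ j ∈ B, if {i, j} ⊆ J then b i * b j else 0 := by
    intro J hJ
    rw [Finset.mem_powersetCard] at hJ
    have h1 : ∑ i ∈ J, b i = ∑ i ∈ B, if i ∈ J then b i else 0 := by
      rw [← Finset.sum_filter]
      refine Finset.sum_congr ?_ fun _ _ => rfl
      ext i
      rw [Finset.mem_filter]
      exact ⟨fun h => ⟨hJ.1 h, h⟩, fun h => h.2⟩
    rw [h1, sq, Finset.sum_mul_sum]
    refine Finset.sum_congr rfl fun i _ => Finset.sum_congr rfl fun j _ => ?_
    simp only [Finset.insert_subset_iff, Finset.singleton_subset_iff]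
    by_cases hi : i ∈ J <;> by_cases hj : j ∈ J <;> simp [hi, hj]
  rw [Finset.sum_congr rfl h, Finset.sum_comm]
  refine Finset.sum_congr rfl fun i _ => ?_
  rw [Finset.sum_comm]
  refine Finset.sum_congr rfl fun j _ => ?_
  rw [← Finset.sum_filter, Finset.sum_const, nsmul_eq_mul]

theorem avg_pair (B : Finset ℕ) (m : ℕ) : ∃ c2 : ℕ, ∀ i ∈ B, ∀ j ∈ B, i ≠ j →
    ((B.powersetCard m).filter fun J => {i, j} ⊆ J).card = c2 := by
  by_cases hm : 2 ≤ m
  · refine ⟨(B.card - 2).choose (m - 2), fun i hi j hj hij => ?_⟩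
    have h2 : ({i, j} : Finset ℕ).card = 2 := Finset.card_pair hij
    have h3 := avg_count (B := B) (T := {i, j}) (m := m) (by
      intro k hk
      rw [Finset.mem_insert, Finset.mem_singleton] at hk
      rcases hk with rfl | rfl
      · exact hi
      · exact hj) (by rw [h2]; exact hm)
    rw [h3, h2]
  · refine ⟨0, fun i hi j hj hij => ?_⟩
    rw [Finset.card_eq_zero, Finset.filter_eq_empty_iff]
    intro J hJ h
    have h2 : ({i, j} : Finset ℕ).card = 2 := Finset.card_pair hij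
    have h3 := Finset.card_le_card h
    rw [h2, (Finset.mem_powersetCard.1 hJ).2] at h3
    exact hm h3

/-- the variance of the sum over a random `m`-subset. PROOF: the pair `i ≠ j` is contained in `J` with probability
`m (m - 1) / (n (n - 1)) ≤ (m / n) ^ 2`. -/
theorem ex_J_var {B : Finset ℕ} {m : ℕ} (hm : m ≤ B.card) (a : ℕ → ℝ) :
    ex B m (fun J _ => (∑ i ∈ J, a i - (m : ℝ) / B.card * ∑ i ∈ B, a i) ^ 2) ≤
      (m : ℝ) / B.card * ∑ i ∈ B, a i ^ 2 := by
  rcases Nat.eq_zero_or_pos m with rfl | hm1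
  · have h : ex B 0 (fun J _ => (∑ i ∈ J, a i - ((0 : ℕ) : ℝ) / B.card * ∑ i ∈ B, a i) ^ 2) = 0 := by
      unfold ex
      simp
    rw [h]
    simp
  have hn : 0 < B.card := by omega
  have hnR : (0 : ℝ) < (B.card : ℝ) := by exact_mod_cast hn
  have hC : (0 : ℝ) < (B.card.choose m : ℝ) := by exact_mod_cast Nat.choose_pos hm
  obtain ⟨av, hav⟩ : ∃ av : ℝ, av = (1 / (B.card : ℝ)) * ∑ i ∈ B, a i := ⟨_, rfl⟩
  have hsb : ∑ i ∈ B, (a i - av) = 0 := by
    rw [Finset.sum_sub_distrib, Finset.sum_const, nsmul_eq_mul, hav]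
    field_simp
    ring
  have hJ : ∀ J ∈ B.powersetCard m,
      ∑ i ∈ J, a i - (m : ℝ) / B.card * ∑ i ∈ B, a i = ∑ i ∈ J, (a i - av) := by
    intro J hJ
    rw [Finset.sum_sub_distrib, Finset.sum_const, nsmul_eq_mul, (Finset.mem_powersetCard.1 hJ).2,
      hav]
    ring
  unfold ex
  have h0 : ∀ J ∈ B.powersetCard m, ∑ _A ∈ B.powerset,
      (∑ i ∈ J, a i - (m : ℝ) / B.card * ∑ i ∈ B, a i) ^ 2 =
      2 ^ B.card * (∑ i ∈ J, (a i - av)) ^ 2 := by
    intro J hJ'
    rw [Finset.sum_const, Finset.card_powerset, nsmul_eq_mul, hJ J hJ']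
    push_cast
    rfl
  rw [Finset.sum_congr rfl h0, ← Finset.mul_sum, avg_sq]
  obtain ⟨c2, hc2⟩ := avg_pair B m
  have hc1 : ∀ i ∈ B, (((B.powersetCard m).filter fun J => {i, i} ⊆ J).card : ℝ) =
      (m : ℝ) / B.card * (B.card.choose m : ℝ) := by
    intro i hi
    have h1 : ({i, i} : Finset ℕ) = {i} := by simp
    rw [h1, avg_count (Finset.singleton_subset_iff.2 hi)
      (by rw [Finset.card_singleton]; exact hm1), Finset.card_singleton, avg_ratio hm1 hm]
  have hdouble : ∑ i ∈ B, ∑ j ∈ B,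
      (((B.powersetCard m).filter fun J => {i, j} ⊆ J).card : ℝ) * ((a i - av) * (a j - av)) =
      ((m : ℝ) / B.card * (B.card.choose m : ℝ) - c2) * ∑ i ∈ B, (a i - av) ^ 2 := by
    have h1 : ∀ i ∈ B, ∑ j ∈ B,
        (((B.powersetCard m).filter fun J => {i, j} ⊆ J).card : ℝ) * ((a i - av) * (a j - av)) =
        ((m : ℝ) / B.card * (B.card.choose m : ℝ) - c2) * (a i - av) ^ 2 +
          c2 * (a i - av) * ∑ j ∈ B, (a j - av) := by
      intro i hi
      rw [← Finset.add_sum_erase B _ hi, ← Finset.add_sum_erase B (fun j => a j - av) hi, hc1 i hi]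
      have h2 : ∑ j ∈ B.erase i,
          (((B.powersetCard m).filter fun J => {i, j} ⊆ J).card : ℝ) *
            ((a i - av) * (a j - av)) = c2 * (a i - av) * ∑ j ∈ B.erase i, (a j - av) := by
        rw [Finset.mul_sum]
        refine Finset.sum_congr rfl fun j hj => ?_
        rw [hc2 i hi j (Finset.mem_of_mem_erase hj) (Finset.ne_of_mem_erase hj).symm]
        ring
      rw [h2]
      ring
    rw [Finset.sum_congr rfl h1, Finset.mul_sum, hsb]
    refine Finset.sum_congr rfl fun i _ => ?_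
    ring
  rw [hdouble]
  have hsum : ∑ i ∈ B, (a i - av) ^ 2 ≤ ∑ i ∈ B, a i ^ 2 := by
    have h1 : ∑ i ∈ B, (a i - av) ^ 2 =
        ∑ i ∈ B, a i ^ 2 - av * (∑ i ∈ B, (a i - av)) - av * ∑ i ∈ B, a i := by
      rw [Finset.mul_sum, Finset.mul_sum, ← Finset.sum_sub_distrib, ← Finset.sum_sub_distrib]
      refine Finset.sum_congr rfl fun i _ => ?_
      ring
    rw [h1, hsb]
    have h2 : 0 ≤ av * ∑ i ∈ B, a i := by
      rw [hav, mul_assoc]
      exact mul_nonneg (by positivity) (mul_self_nonneg _)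
    linarith
  have hnn : 0 ≤ ∑ i ∈ B, (a i - av) ^ 2 := Finset.sum_nonneg fun _ _ => sq_nonneg _
  have hc2n : (0 : ℝ) ≤ c2 := Nat.cast_nonneg _
  rw [div_le_iff₀ (avg_den_pos hm)]
  have h3 : ((m : ℝ) / B.card * (B.card.choose m : ℝ) - c2) * ∑ i ∈ B, (a i - av) ^ 2 ≤
      (m : ℝ) / B.card * (B.card.choose m : ℝ) * ∑ i ∈ B, a i ^ 2 := by
    have h4 : 0 ≤ (m : ℝ) / B.card * (B.card.choose m : ℝ) := by positivity
    nlinarith [mul_le_mul_of_nonneg_left hsum h4, mul_nonneg hc2n hnn]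
  have h5 : (0 : ℝ) ≤ 2 ^ B.card := by positivity
  calc 2 ^ B.card * (((m : ℝ) / B.card * (B.card.choose m : ℝ) - c2) * ∑ i ∈ B, (a i - av) ^ 2)
      ≤ 2 ^ B.card * ((m : ℝ) / B.card * (B.card.choose m : ℝ) * ∑ i ∈ B, a i ^ 2) :=
        mul_le_mul_of_nonneg_left h3 h5
    _ = (m : ℝ) / B.card * (∑ i ∈ B, a i ^ 2) * ((B.card.choose m : ℝ) * 2 ^ B.card) := by
        ring

end Pool.Agent.H.MP_4bcbbd_co.F
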