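import Pool.Agent.H.MP_4bcbbd_co.h39f.Avg

/-!
MP_4bcbbd_co, polytopes with few vertices: Rademacher sums.
-/

set_option autoImplicit false

namespace Pool.Agent.H.MP_4bcbbd_co.F

open scoped BigOperators RealInnerProductSpace

theorem rad_sum_out {B A : Finset ℕ} {i : ℕ} (hi : i ∉ B) (hA : A ∈ B.powerset) (a : ℕ → ℝ) :
    ∑ j ∈ insert i B, sg A j * a j = -a i + ∑ j ∈ B, sg A j * a j := by
  rw [Finset.sum_insert hi]
  have : i ∉ A := fun h => hi (Finset.mem_powerset.1 hA h)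
  unfold sg
  rw [if_neg this]
  ring

theorem rad_sum_in {B A : Finset ℕ} {i : ℕ} (hi : i ∉ B) (a : ℕ → ℝ) :
    ∑ j ∈ insert i B, sg (insert i A) j * a j = a i + ∑ j ∈ B, sg A j * a j := by
  rw [Finset.sum_insert hi]
  have h1 : sg (insert i A) i = 1 := by
    unfold sg
    rw [if_pos (Finset.mem_insert_self i A)]
  have h2 : ∑ j ∈ B, sg (insert i A) j * a j = ∑ j ∈ B, sg A j * a j := by
    refine Finset.sum_congr rfl fun j hj => ?_
    have hji : j ≠ i := fun h => hi (h ▸ hj)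
    unfold sg
    by_cases hjA : j ∈ A
    · rw [if_pos hjA, if_pos (Finset.mem_insert_of_mem hjA)]
    · rw [if_neg hjA, if_neg]
      intro h
      rcases Finset.mem_insert.1 h with h | h
      · exact hji h
      · exact hjA h
  rw [h1, h2, one_mul]

/-- sums over the sign patterns of `insert i B`. -/
theorem rad_step {B : Finset ℕ} {i : ℕ} (hi : i ∉ B) (a : ℕ → ℝ) {M : Type} [AddCommMonoid M]
    (g : ℝ → M) :
    ∑ A ∈ (insert i B).powerset, g (∑ j ∈ insert i B, sg A j * a j) =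
      ∑ A ∈ B.powerset, (g (-a i + ∑ j ∈ B, sg A j * a j) + g (a i + ∑ j ∈ B, sg A j * a j)) := by
  rw [Finset.sum_powerset_insert hi, ← Finset.sum_add_distrib]
  refine Finset.sum_congr rfl fun A hA => ?_
  rw [rad_sum_out hi hA, rad_sum_in hi]

theorem rad_two (B : Finset ℕ) (a : ℕ → ℝ) (x : ℝ) :
    ∑ A ∈ B.powerset, (x + ∑ i ∈ B, sg A i * a i) ^ 2 =
      2 ^ B.card * (x ^ 2 + ∑ i ∈ B, a i ^ 2) := by
  induction B using Finset.induction_on with
  | empty => simp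
  | insert i B hi ih =>
    rw [rad_step hi a (fun s => (x + s) ^ 2), Finset.card_insert_of_notMem hi,
      Finset.sum_insert hi]
    have h : ∀ A ∈ B.powerset, ((x + (-a i + ∑ j ∈ B, sg A j * a j)) ^ 2 +
        (x + (a i + ∑ j ∈ B, sg A j * a j)) ^ 2) =
        2 * (x + ∑ j ∈ B, sg A j * a j) ^ 2 + 2 * a i ^ 2 := fun A _ => by ring
    rw [Finset.sum_congr rfl h, Finset.sum_add_distrib, ← Finset.mul_sum, ih,
      Finset.sum_const, Finset.card_powerset, nsmul_eq_mul]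
    push_cast
    ring

theorem rad_ext {S B : Finset ℕ} (hS : S ⊆ B) (A : Finset ℕ) (a : ℕ → ℝ) :
    ∑ i ∈ S, sg A i * a i = ∑ i ∈ B, sg A i * (if i ∈ S then a i else 0) := by
  have h : ∀ i ∈ B, sg A i * (if i ∈ S then a i else 0) = if i ∈ S then sg A i * a i else 0 := by
    intro i _
    split_ifs <;> ring
  rw [Finset.sum_congr rfl h, ← Finset.sum_filter]
  congr 1
  ext i
  simp only [Finset.mem_filter]
  exact ⟨fun h => ⟨hS h, h⟩, fun h => h.2⟩

/-- second moment. PROOF: induction on `B` (`Finset.sum_powerset_insert`), or orthogonality of the signs. -/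
theorem rad_sq {S B : Finset ℕ} (hS : S ⊆ B) (a : ℕ → ℝ) :
    ∑ A ∈ B.powerset, (∑ i ∈ S, sg A i * a i) ^ 2 = 2 ^ B.card * ∑ i ∈ S, a i ^ 2 := by
  have h := rad_two B (fun i => if i ∈ S then a i else 0) 0
  have h1 : ∀ A ∈ B.powerset, (∑ i ∈ S, sg A i * a i) ^ 2 =
      (0 + ∑ i ∈ B, sg A i * (if i ∈ S then a i else 0)) ^ 2 := fun A _ => by
    rw [rad_ext hS A a, zero_add]
  rw [Finset.sum_congr rfl h1, h]
  have h2 : ∀ i ∈ B, (if i ∈ S then a i else 0) ^ 2 = if i ∈ S then a i ^ 2 else 0 := by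
    intro i _
    split_ifs <;> ring
  rw [Finset.sum_congr rfl h2, ← Finset.sum_filter]
  have h3 : B.filter (fun i => i ∈ S) = S := by
    ext i
    simp only [Finset.mem_filter]
    exact ⟨fun h => h.2, fun h => ⟨hS h, h⟩⟩
  rw [h3]
  ring

/-- fourth moment with an offset. PROOF: induction on `B`: `(z + a) ^ 4 + (z - a) ^ 4 = 2 z ^ 4 + 12 z ^ 2 a ^ 2 + 2 a ^ 4`, with the
second moment `∑ (x + ..) ^ 2 = 2 ^ |B| (x ^ 2 + ∑ a ^ 2)`. -/
theorem rad_fourth (B : Finset ℕ) (a : ℕ → ℝ) (x : ℝ) :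
    ∑ A ∈ B.powerset, (x + ∑ i ∈ B, sg A i * a i) ^ 4 ≤
      2 ^ B.card * (3 * (x ^ 2 + ∑ i ∈ B, a i ^ 2) ^ 2) := by
  induction B using Finset.induction_on with
  | empty =>
    simp only [Finset.powerset_empty, Finset.sum_singleton, Finset.sum_empty, add_zero,
      Finset.card_empty, pow_zero, one_mul]
    nlinarith [sq_nonneg (x ^ 2)]
  | insert i B hi ih =>
    rw [rad_step hi a (fun s => (x + s) ^ 4), Finset.card_insert_of_notMem hi,
      Finset.sum_insert hi]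
    have h : ∀ A ∈ B.powerset, ((x + (-a i + ∑ j ∈ B, sg A j * a j)) ^ 4 +
        (x + (a i + ∑ j ∈ B, sg A j * a j)) ^ 4) =
        2 * (x + ∑ j ∈ B, sg A j * a j) ^ 4 +
          (12 * a i ^ 2) * (x + ∑ j ∈ B, sg A j * a j) ^ 2 + 2 * a i ^ 4 := fun A _ => by ring
    rw [Finset.sum_congr rfl h, Finset.sum_add_distrib, Finset.sum_add_distrib, ← Finset.mul_sum,
      ← Finset.mul_sum, rad_two, Finset.sum_const, Finset.card_powerset, nsmul_eq_mul]
    push_cast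
    have hp : (0 : ℝ) < 2 ^ B.card := by positivity
    have h4 : 0 ≤ (2 : ℝ) ^ B.card * a i ^ 4 := by positivity
    have e : (2 : ℝ) ^ (B.card + 1) * (3 * (x ^ 2 + (a i ^ 2 + ∑ j ∈ B, a j ^ 2)) ^ 2) =
        2 * (2 ^ B.card * (3 * (x ^ 2 + ∑ i ∈ B, a i ^ 2) ^ 2)) +
          12 * a i ^ 2 * (2 ^ B.card * (x ^ 2 + ∑ i ∈ B, a i ^ 2)) +
          6 * (2 ^ B.card * a i ^ 4) := by ring
    rw [e]
    linarith

open Classical in
/-- small ball estimate. PROOF: Paley-Zygmund for `Y = (x + ..) ^ 2`: mean `M = x ^ 2 + V`, second moment `≤ 3 M ^ 2`;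
with `θ = 1 / 10`: `#{Y > θ M} ≥ (1 - θ) ^ 2 / 3 ≥ 1 / 4`, and `t ^ 2 ≤ V / 10 ≤ θ M`. -/
theorem rad_pz (B : Finset ℕ) (a : ℕ → ℝ) (x t : ℝ) (ht : 0 ≤ t)
    (hV : 0 < ∑ i ∈ B, a i ^ 2) (htV : 10 * t ^ 2 ≤ ∑ i ∈ B, a i ^ 2) :
    ((B.powerset.filter fun A => |x + ∑ i ∈ B, sg A i * a i| ≤ t).card : ℝ) ≤
      3 / 4 * 2 ^ B.card := by
  set V := ∑ i ∈ B, a i ^ 2 with hVd
  set M := x ^ 2 + V with hM
  have hMpos : 0 < M := by positivity
  set z : Finset ℕ → ℝ := fun A => x + ∑ i ∈ B, sg A i * a i with hz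
  set G := B.powerset.filter fun A => |z A| ≤ t with hG
  set G' := B.powerset.filter fun A => ¬ |z A| ≤ t with hG'
  have hN : (0 : ℝ) < 2 ^ B.card := by positivity
  have h1 : ∑ A ∈ B.powerset, z A ^ 2 = 2 ^ B.card * M := rad_two B a x
  have h2 : ∑ A ∈ B.powerset, (z A ^ 2) ^ 2 ≤ 2 ^ B.card * (3 * M ^ 2) := by
    have := rad_fourth B a x
    refine le_trans (le_of_eq ?_) this
    exact Finset.sum_congr rfl fun A _ => by rw [hz]; ring
  have hsplit : ∑ A ∈ G, z A ^ 2 + ∑ A ∈ G', z A ^ 2 = ∑ A ∈ B.powerset, z A ^ 2 :=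
    Finset.sum_filter_add_sum_filter_not _ _ _
  have hcard : (G.card : ℝ) + G'.card = 2 ^ B.card := by
    have := Finset.card_filter_add_card_filter_not (s := B.powerset) (fun A => |z A| ≤ t)
    rw [Finset.card_powerset] at this
    rw [hG, hG']
    exact_mod_cast this
  have hGle : ∑ A ∈ G, z A ^ 2 ≤ (G.card : ℝ) * t ^ 2 := by
    rw [← nsmul_eq_mul]
    refine Finset.sum_le_card_nsmul _ _ _ fun A hA => ?_
    have := (Finset.mem_filter.1 hA).2
    exact (sq_le_sq' (by linarith [neg_abs_le (z A)]) (le_trans (le_abs_self _) this))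
  have hGc : (G.card : ℝ) ≤ 2 ^ B.card := by
    have : (0 : ℝ) ≤ G'.card := by positivity
    linarith
  have hG2 : ∑ A ∈ G, z A ^ 2 ≤ 2 ^ B.card * (M / 10) := by
    refine hGle.trans ?_
    have ht2 : t ^ 2 ≤ M / 10 := by
      have : 0 ≤ x ^ 2 := sq_nonneg x
      linarith
    have h0 : 0 ≤ t ^ 2 := sq_nonneg t
    exact mul_le_mul hGc ht2 h0 hN.le
  have hG'2 : 2 ^ B.card * (9 / 10 * M) ≤ ∑ A ∈ G', z A ^ 2 := by
    have := hsplit
    rw [h1] at this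
    nlinarith
  have hcs : (∑ A ∈ G', z A ^ 2) ^ 2 ≤ (G'.card : ℝ) * ∑ A ∈ G', (z A ^ 2) ^ 2 :=
    sq_sum_le_card_mul_sum_sq
  have hsub : ∑ A ∈ G', (z A ^ 2) ^ 2 ≤ 2 ^ B.card * (3 * M ^ 2) := by
    refine le_trans ?_ h2
    exact Finset.sum_le_sum_of_subset_of_nonneg (Finset.filter_subset _ _)
      fun A _ _ => sq_nonneg _
  have h0 : 0 ≤ (2 : ℝ) ^ B.card * (9 / 10 * M) := by positivity
  have h5 : ((2 : ℝ) ^ B.card * (9 / 10 * M)) ^ 2 ≤ (G'.card : ℝ) * (2 ^ B.card * (3 * M ^ 2)) := by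
    refine (pow_le_pow_left₀ h0 hG'2 2).trans (hcs.trans ?_)
    exact mul_le_mul_of_nonneg_left hsub (by positivity)
  have h6 : 2 ^ B.card / 4 ≤ (G'.card : ℝ) := by
    have hk : 0 < (2 : ℝ) ^ B.card * M ^ 2 := by positivity
    have h7 : (2 : ℝ) ^ B.card * M ^ 2 * (27 / 100 * 2 ^ B.card) ≤
        (2 : ℝ) ^ B.card * M ^ 2 * G'.card := by
      nlinarith
    have h8 := le_of_mul_le_mul_left h7 hk
    linarith
  linarith

/-- the characteristic function. PROOF: induction on `B`. -/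
theorem rad_char (B : Finset ℕ) (a : ℕ → ℝ) :
    ∑ A ∈ B.powerset, Complex.exp (((∑ i ∈ B, sg A i * a i : ℝ) : ℂ) * Complex.I) =
      2 ^ B.card * ∏ i ∈ B, Complex.cos (a i) := by
  induction B using Finset.induction_on with
  | empty => simp
  | insert i B hi ih =>
    rw [rad_step hi a (fun s => Complex.exp ((s : ℂ) * Complex.I)),
      Finset.card_insert_of_notMem hi, Finset.prod_insert hi]
    have h : ∀ A ∈ B.powerset,
        (Complex.exp (((-a i + ∑ j ∈ B, sg A j * a j : ℝ) : ℂ) * Complex.I) +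
          Complex.exp (((a i + ∑ j ∈ B, sg A j * a j : ℝ) : ℂ) * Complex.I)) =
        (2 * Complex.cos (a i)) *
          Complex.exp (((∑ j ∈ B, sg A j * a j : ℝ) : ℂ) * Complex.I) := by
      intro A _
      rw [Complex.ofReal_add, Complex.ofReal_add, add_mul, add_mul, Complex.exp_add,
        Complex.exp_add, Complex.two_cos, Complex.ofReal_neg]
      ring
    rw [Finset.sum_congr rfl h, ← Finset.mul_sum, ih]
    ring

theorem rad_ex {c : ℕ} {B : Finset ℕ} {m : ℕ} (w : ℕ → E c) (v : E c)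
    (S : Finset ℕ → Finset ℕ) (hS : ∀ J, J ⊆ B → S J ⊆ B) :
    ex B m (fun J A => ⟪v, sm w A (S J)⟫ ^ 2) =
      ex B m (fun J _ => ∑ i ∈ S J, ⟪v, w i⟫ ^ 2) := by
  unfold ex
  congr 1
  refine Finset.sum_congr rfl fun J hJ => ?_
  have hJB : J ⊆ B := (Finset.mem_powersetCard.1 hJ).1
  rw [Finset.sum_const, Finset.card_powerset, nsmul_eq_mul]
  push_cast
  rw [← rad_sq (hS J hJB) (fun i => ⟪v, w i⟫)]
  exact Finset.sum_congr rfl fun A _ => by rw [inner_sm]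

/-- PROOF: for fixed `J`, `rad_sq` gives `∑ i ∈ J, ⟪v, w i⟫ ^ 2`; then `ex_J`. -/
theorem ex_sm_J {c : ℕ} {B : Finset ℕ} {m : ℕ} (hm : m ≤ B.card) (w : ℕ → E c) (v : E c) :
    ex B m (fun J A => ⟪v, sm w A J⟫ ^ 2) = (m : ℝ) / B.card * ∑ i ∈ B, ⟪v, w i⟫ ^ 2 := by
  rw [rad_ex w v (fun J => J) (fun J h => h)]
  exact ex_J hm fun i => ⟪v, w i⟫ ^ 2

theorem ex_sm_compl {c : ℕ} {B : Finset ℕ} {m : ℕ} (hm : m ≤ B.card) (w : ℕ → E c) (v : E c) :
    ex B m (fun J A => ⟪v, sm w A (B \ J)⟫ ^ 2) ≤ ∑ i ∈ B, ⟪v, w i⟫ ^ 2 := by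
  rw [rad_ex w v (fun J => B \ J) (fun J _ => Finset.sdiff_subset)]
  refine (ex_mono (g := fun _ _ => ∑ i ∈ B, ⟪v, w i⟫ ^ 2) fun J _ A _ => ?_).trans
    (le_of_eq (ex_const hm _))
  exact Finset.sum_le_sum_of_subset_of_nonneg Finset.sdiff_subset fun i _ _ => sq_nonneg _

end Pool.Agent.H.MP_4bcbbd_co.F
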