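import Pool.Agent.H.MP_4bcbbd_co.h39f.Gauss
import Pool.Agent.H.MP_4bcbbd_co.h39f.Rad

/-!
MP_4bcbbd_co, polytopes with few vertices: the central limit theorem.
-/

set_option autoImplicit false

namespace Pool.Agent.H.MP_4bcbbd_co.F

open scoped BigOperators RealInnerProductSpace Topology
open MeasureTheory Filter

/-- the law of the signed sum `sm w A B` for a random `A ⊆ B`. -/
noncomputable def lawM {c : ℕ} (w : ℕ → E c) (B : Finset ℕ) : Measure (E c) :=
  (2 ^ B.card : ENNReal)⁻¹ • ∑ A ∈ B.powerset, Measure.dirac (sm w A B)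

lemma clt_two_ne (n : ℕ) : (2 ^ n : ENNReal) ≠ 0 := pow_ne_zero _ (by norm_num)

lemma clt_two_top (n : ℕ) : (2 ^ n : ENNReal) ≠ ⊤ := ENNReal.pow_ne_top (by norm_num)

instance isProb_law {c : ℕ} (w : ℕ → E c) (B : Finset ℕ) : IsProbabilityMeasure (lawM w B) := by
  constructor
  unfold lawM
  rw [Measure.smul_apply, Measure.finsetSum_apply]
  simp only [measure_univ, Finset.sum_const, Finset.card_powerset, nsmul_eq_mul, mul_one,
    smul_eq_mul, Nat.cast_pow, Nat.cast_ofNat]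
  exact ENNReal.inv_mul_cancel (clt_two_ne _) (clt_two_top _)

/-- the law as a probability measure. -/
noncomputable def lawP {c : ℕ} (w : ℕ → E c) (B : Finset ℕ) : ProbabilityMeasure (E c) :=
  ⟨lawM w B, isProb_law w B⟩

/-- the standard Gaussian measure as a probability measure. -/
noncomputable def gamP (c : ℕ) : ProbabilityMeasure (E c) := ⟨gam c, isProb_gam c⟩

open Classical in
theorem lawM_apply {c : ℕ} (w : ℕ → E c) (B : Finset ℕ) {S : Set (E c)} (hS : MeasurableSet S) :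
    (lawM w B S).toReal = ((B.powerset.filter fun A => sm w A B ∈ S).card : ℝ) / 2 ^ B.card := by
  unfold lawM
  rw [Measure.smul_apply, Measure.finsetSum_apply, smul_eq_mul, ENNReal.toReal_mul,
    ENNReal.toReal_inv, ENNReal.toReal_pow, ENNReal.toReal_ofNat, div_eq_inv_mul]
  congr 1
  have h1 : ∀ A ∈ B.powerset, Measure.dirac (sm w A B) S =
      (if sm w A B ∈ S then (1 : ENNReal) else 0) := by
    intro A _
    rw [Measure.dirac_apply' _ hS]
    by_cases h : sm w A B ∈ S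
    · rw [Set.indicator_of_mem h, if_pos h]; rfl
    · rw [Set.indicator_of_notMem h, if_neg h]
  rw [Finset.sum_congr rfl h1, Finset.sum_ite, Finset.sum_const_zero, add_zero, Finset.sum_const,
    nsmul_eq_mul, mul_one, ENNReal.toReal_natCast]

/-- PROOF: `rad_char`. -/
theorem charFun_law {c : ℕ} (w : ℕ → E c) (B : Finset ℕ) (t : E c) :
    charFun (lawM w B) t = ∏ i ∈ B, Complex.cos ((⟪t, w i⟫ : ℝ) : ℂ) := by
  rw [charFun_apply]
  unfold lawM
  rw [integral_smul_measure, integral_finsetSum_measure]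
  · have h1 : ∀ A ∈ B.powerset,
        ∫ x, Complex.exp (((⟪x, t⟫ : ℝ) : ℂ) * Complex.I) ∂(Measure.dirac (sm w A B)) =
          Complex.exp (((∑ i ∈ B, sg A i * ⟪t, w i⟫ : ℝ) : ℂ) * Complex.I) := by
      intro A _
      rw [integral_dirac, real_inner_comm, inner_sm]
    rw [Finset.sum_congr rfl h1, rad_char, ENNReal.toReal_inv, ENNReal.toReal_pow,
      ENNReal.toReal_ofNat]
    rw [Complex.real_smul, ← mul_assoc]
    push_cast
    rw [inv_mul_cancel₀ (pow_ne_zero _ two_ne_zero), one_mul]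
  · intro A _
    exact integrable_dirac (by simp)

lemma clt_cos_up {x : ℝ} (hx : |x| ≤ 1 / 2) : Real.cos x ≤ Real.exp (-x ^ 2 / 2 + x ^ 4) := by
  have h := Real.cos_bound (x := x) (by linarith)
  have h4 : |x| ^ 4 = x ^ 4 := by
    rw [show (4 : ℕ) = 2 * 2 by norm_num, pow_mul, pow_mul, sq_abs]
  rw [h4] at h
  have h1 := (abs_le.1 h).2
  have h2 := Real.add_one_le_exp (-x ^ 2 / 2 + x ^ 4)
  nlinarith [pow_two_nonneg (x ^ 2)]

lemma clt_cos_low {x : ℝ} (hx : |x| ≤ 1 / 2) : Real.exp (-x ^ 2 / 2 - x ^ 4) ≤ Real.cos x := by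
  have h := Real.cos_bound (x := x) (by linarith)
  have h4 : |x| ^ 4 = x ^ 4 := by
    rw [show (4 : ℕ) = 2 * 2 by norm_num, pow_mul, pow_mul, sq_abs]
  rw [h4] at h
  have h1 := (abs_le.1 h).1
  have hs : x ^ 2 ≤ 1 / 4 := by
    have := pow_le_pow_left₀ (abs_nonneg x) hx 2
    rw [sq_abs] at this
    linarith
  have hs0 : 0 ≤ x ^ 2 := sq_nonneg x
  set s := x ^ 2 with hsd
  have h4s : x ^ 4 = s ^ 2 := by rw [hsd]; ring
  rw [h4s] at h1 ⊢
  set z := s / 2 + s ^ 2 with hz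
  have hz0 : 0 ≤ z := by positivity
  have h3 := Real.quadratic_le_exp_of_nonneg hz0
  have hc : 1 - s / 2 - s ^ 2 * (5 / 96) ≤ Real.cos x := by linarith
  have hpos : 0 < 1 - s / 2 - s ^ 2 * (5 / 96) := by nlinarith
  have key : 1 ≤ (1 - s / 2 - s ^ 2 * (5 / 96)) * Real.exp z := by
    have hpoly : 1 ≤ (1 - s / 2 - s ^ 2 * (5 / 96)) * (1 + z + z ^ 2 / 2) := by
      rw [hz]
      have e : (1 - s / 2 - s ^ 2 * (5 / 96)) * (1 + (s / 2 + s ^ 2) + (s / 2 + s ^ 2) ^ 2 / 2) - 1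
          = s ^ 2 * (79 / 96 - s * (17 / 192) + s ^ 2 * (49 / 256) - s ^ 3 * (53 / 192)
            - s ^ 4 * (5 / 192)) := by ring
      have hb : 0 ≤ 79 / 96 - s * (17 / 192) + s ^ 2 * (49 / 256) - s ^ 3 * (53 / 192)
            - s ^ 4 * (5 / 192) := by
        have e1 : s ^ 3 ≤ 1 := pow_le_one₀ hs0 (by linarith)
        have e2 : s ^ 4 ≤ 1 := pow_le_one₀ hs0 (by linarith)
        nlinarith [sq_nonneg s]
      have := mul_nonneg (sq_nonneg s) hb
      linarith
    exact hpoly.trans (mul_le_mul_of_nonneg_left h3 hpos.le)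
  have hexp : Real.exp (-s / 2 - s ^ 2) = (Real.exp z)⁻¹ := by
    rw [← Real.exp_neg, hz]; congr 1; ring
  rw [hexp]
  have : (Real.exp z)⁻¹ ≤ 1 - s / 2 - s ^ 2 * (5 / 96) := by
    rw [inv_le_iff_one_le_mul₀ (Real.exp_pos z)]
    exact key
  linarith

/-- the product of cosines. PROOF: for `|x| ≤ 1/2`: `exp (-x²/2 - x⁴) ≤ cos x ≤ exp (-x²/2 + x⁴)` (`Real.cos_bound`). -/
theorem prod_cos {B : ℕ → Finset ℕ} {a : ℕ → ℕ → ℝ} {V : ℝ} {δ : ℕ → ℝ}
    (hV : ∀ n, ∑ i ∈ B n, a n i ^ 2 = V) (hδ : Tendsto δ atTop (𝓝 0))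
    (ha : ∀ n, ∀ i ∈ B n, |a n i| ≤ δ n) :
    Tendsto (fun n => ∏ i ∈ B n, Real.cos (a n i)) atTop (𝓝 (Real.exp (-V / 2))) := by
  have hs : ∀ n, ∑ i ∈ B n, a n i ^ 4 ≤ δ n ^ 2 * V := by
    intro n
    rw [← hV n, Finset.mul_sum]
    refine Finset.sum_le_sum fun i hi => ?_
    have h1 : a n i ^ 2 ≤ δ n ^ 2 := by
      rw [← sq_abs]
      exact pow_le_pow_left₀ (abs_nonneg _) (ha n i hi) 2
    have h2 : a n i ^ 4 = a n i ^ 2 * a n i ^ 2 := by ring
    rw [h2]
    exact mul_le_mul_of_nonneg_right h1 (sq_nonneg _)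
  have hev : ∀ᶠ n in atTop, δ n ≤ 1 / 2 :=
    (hδ.eventually (gt_mem_nhds (by norm_num : (0 : ℝ) < 1 / 2))).mono fun n h => h.le
  have hd2 : Tendsto (fun n => δ n ^ 2 * V) atTop (𝓝 0) := by
    have := (hδ.pow 2).mul_const V
    simpa using this
  have hlo : Tendsto (fun n => Real.exp (-V / 2 - δ n ^ 2 * V)) atTop (𝓝 (Real.exp (-V / 2))) := by
    have := (tendsto_const_nhds (x := -V / 2)).sub hd2
    rw [sub_zero] at this
    exact (Real.continuous_exp.tendsto _).comp this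
  have hup : Tendsto (fun n => Real.exp (-V / 2 + δ n ^ 2 * V)) atTop (𝓝 (Real.exp (-V / 2))) := by
    have := (tendsto_const_nhds (x := -V / 2)).add hd2
    rw [add_zero] at this
    exact (Real.continuous_exp.tendsto _).comp this
  refine tendsto_of_tendsto_of_tendsto_of_le_of_le' hlo hup ?_ ?_
  · filter_upwards [hev] with n hn
    have h1 : Real.exp (-V / 2 - δ n ^ 2 * V) ≤
        Real.exp (∑ i ∈ B n, (-(a n i) ^ 2 / 2 - (a n i) ^ 4)) := by
      rw [Real.exp_le_exp, Finset.sum_sub_distrib]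
      have : ∑ i ∈ B n, -(a n i) ^ 2 / 2 = -V / 2 := by
        rw [← Finset.sum_div, Finset.sum_neg_distrib, hV n]
      rw [this]
      linarith [hs n]
    refine h1.trans ?_
    rw [Real.exp_sum]
    exact Finset.prod_le_prod (fun i _ => (Real.exp_pos _).le)
      fun i hi => clt_cos_low ((ha n i hi).trans hn)
  · filter_upwards [hev] with n hn
    have h1 : Real.exp (∑ i ∈ B n, (-(a n i) ^ 2 / 2 + (a n i) ^ 4)) ≤
        Real.exp (-V / 2 + δ n ^ 2 * V) := by
      rw [Real.exp_le_exp, Finset.sum_add_distrib]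
      have : ∑ i ∈ B n, -(a n i) ^ 2 / 2 = -V / 2 := by
        rw [← Finset.sum_div, Finset.sum_neg_distrib, hV n]
      rw [this]
      linarith [hs n]
    refine le_trans ?_ h1
    rw [Real.exp_sum]
    refine Finset.prod_le_prod (fun i hi => ?_) fun i hi => clt_cos_up ((ha n i hi).trans hn)
    exact (Real.exp_pos _).le.trans (clt_cos_low ((ha n i hi).trans hn))

/-- the central limit theorem. PROOF: `ProbabilityMeasure.tendsto_of_tendsto_charFun` (Levy), `charFun_law`, `prod_cos`,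
`charFun_gam`. -/
theorem clt {c : ℕ} {w : ℕ → ℕ → E c} {B : ℕ → Finset ℕ} {δ : ℕ → ℝ} (hI : ∀ n, Iso (w n) (B n))
    (hδ : Tendsto δ atTop (𝓝 0)) (hw : ∀ n, ∀ i ∈ B n, ‖w n i‖ ≤ δ n) :
    Tendsto (fun n => lawP (w n) (B n)) atTop (𝓝 (gamP c)) := by
  refine ProbabilityMeasure.tendsto_of_tendsto_charFun fun t => ?_
  have h1 : Tendsto (fun n => ∏ i ∈ B n, Real.cos ⟪t, w n i⟫) atTop
      (𝓝 (Real.exp (-‖t‖ ^ 2 / 2))) := by
    refine prod_cos (δ := fun n => ‖t‖ * δ n) (fun n => hI n t) ?_ ?_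
    · have := hδ.const_mul ‖t‖
      rwa [mul_zero] at this
    · intro n i hi
      exact (abs_real_inner_le_norm _ _).trans
        (mul_le_mul_of_nonneg_left (hw n i hi) (norm_nonneg _))
  have h2 : charFun ((gamP c : ProbabilityMeasure (E c)) : Measure (E c)) t =
      ((Real.exp (-‖t‖ ^ 2 / 2) : ℝ) : ℂ) := by
    have : ((gamP c : ProbabilityMeasure (E c)) : Measure (E c)) = gam c := rfl
    rw [this, charFun_gam]
    push_cast
    congr 1
    ring
  rw [h2]
  have h3 : (fun n => charFun ((lawP (w n) (B n) : ProbabilityMeasure (E c)) : Measure (E c)) t) =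
      fun n => ((∏ i ∈ B n, Real.cos ⟪t, w n i⟫ : ℝ) : ℂ) := by
    funext n
    have : ((lawP (w n) (B n) : ProbabilityMeasure (E c)) : Measure (E c)) =
        lawM (w n) (B n) := rfl
    rw [this, charFun_law]
    push_cast
    rfl
  rw [h3]
  exact (Complex.continuous_ofReal.tendsto _).comp h1

/-- closed sets. -/
theorem clt_closed {c : ℕ} {w : ℕ → ℕ → E c} {B : ℕ → Finset ℕ} {δ : ℕ → ℝ}
    (hI : ∀ n, Iso (w n) (B n)) (hδ : Tendsto δ atTop (𝓝 0))
    (hw : ∀ n, ∀ i ∈ B n, ‖w n i‖ ≤ δ n) {F : Set (E c)} (hF : IsClosed F) {ε : ℝ} (hε : 0 < ε) :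
    ∀ᶠ n in atTop, (lawM (w n) (B n) F).toReal ≤ (gam c F).toReal + ε := by
  have h := ProbabilityMeasure.limsup_measure_closed_le_of_tendsto (clt hI hδ hw) hF
  have hne : gam c F ≠ ⊤ := measure_ne_top _ _
  have h2 : atTop.limsup (fun n => ((lawP (w n) (B n) : ProbabilityMeasure (E c)) :
      Measure (E c)) F) < gam c F + ENNReal.ofReal ε :=
    lt_of_le_of_lt h (ENNReal.lt_add_right hne (by simpa using hε))
  filter_upwards [eventually_lt_of_limsup_lt h2] with n hn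
  have h3 : lawM (w n) (B n) F ≤ gam c F + ENNReal.ofReal ε := hn.le
  have h4 := ENNReal.toReal_mono (ENNReal.add_ne_top.2 ⟨hne, ENNReal.ofReal_ne_top⟩) h3
  rwa [ENNReal.toReal_add hne ENNReal.ofReal_ne_top, ENNReal.toReal_ofReal hε.le] at h4

/-- open sets. -/
theorem clt_open {c : ℕ} {w : ℕ → ℕ → E c} {B : ℕ → Finset ℕ} {δ : ℕ → ℝ}
    (hI : ∀ n, Iso (w n) (B n)) (hδ : Tendsto δ atTop (𝓝 0))
    (hw : ∀ n, ∀ i ∈ B n, ‖w n i‖ ≤ δ n) {G : Set (E c)} (hG : IsOpen G) {ε : ℝ} (hε : 0 < ε) :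
    ∀ᶠ n in atTop, (gam c G).toReal - ε ≤ (lawM (w n) (B n) G).toReal := by
  filter_upwards [clt_closed hI hδ hw (isClosed_compl_iff.2 hG) hε] with n hn
  have h1 : (lawM (w n) (B n) Gᶜ).toReal = 1 - (lawM (w n) (B n) G).toReal :=
    probReal_compl_eq_one_sub (μ := lawM (w n) (B n)) hG.measurableSet
  have h2 : (gam c Gᶜ).toReal = 1 - (gam c G).toReal :=
    probReal_compl_eq_one_sub (μ := gam c) hG.measurableSet
  rw [h1, h2] at hn
  linarith

end Pool.Agent.H.MP_4bcbbd_co.F
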