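import Pool.Agent.H.MP_4bcbbd_co.Base

/-!
MP_4bcbbd_co, polytopes with few vertices: definitions.
-/

set_option autoImplicit false

namespace Pool.Agent.H.MP_4bcbbd_co.F

open scoped BigOperators RealInnerProductSpace
open MeasureTheory

/-- the sign of `i` in the sign pattern `A`. -/
noncomputable def sg (A : Finset ℕ) (i : ℕ) : ℝ := if i ∈ A then 1 else -1

/-- the signed sum of the vectors `w i`, `i ∈ S`. -/
noncomputable def sm {c : ℕ} (w : ℕ → E c) (A S : Finset ℕ) : E c := ∑ i ∈ S, sg A i • w i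

/-- the zonotope of the vectors `w i`, `i ∈ J`, contains `y` plus the signed sum of the others
(in the interior). -/
def Cov {c : ℕ} (w : ℕ → E c) (B : Finset ℕ) (y : E c) (J A : Finset ℕ) : Prop :=
  ∀ u : E c, u ≠ 0 → |⟪u, y + sm w A (B \ J)⟫| < ∑ i ∈ J, |⟪u, w i⟫|

open Classical in
/-- the proportion of the pairs `(J, A)`, `J` an `m`-subset of `B` and `A` a subset of `B`, with the
property `p`. -/
noncomputable def pr (B : Finset ℕ) (m : ℕ) (p : Finset ℕ → Finset ℕ → Prop) : ℝ :=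
  (((B.powersetCard m ×ˢ B.powerset).filter fun P => p P.1 P.2).card : ℝ) /
    ((B.card.choose m : ℝ) * 2 ^ B.card)

/-- the mean of `f` over these pairs. -/
noncomputable def ex (B : Finset ℕ) (m : ℕ) (f : Finset ℕ → Finset ℕ → ℝ) : ℝ :=
  (∑ J ∈ B.powersetCard m, ∑ A ∈ B.powerset, f J A) / ((B.card.choose m : ℝ) * 2 ^ B.card)

/-- the proportion of covering pairs. -/
noncomputable def fr {c : ℕ} (w : ℕ → E c) (B : Finset ℕ) (y : E c) (m : ℕ) : ℝ :=
  pr B m (Cov w B y)

/-- isotropic families. -/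
def Iso {c : ℕ} (w : ℕ → E c) (B : Finset ℕ) : Prop :=
  ∀ u : E c, ∑ i ∈ B, ⟪u, w i⟫ ^ 2 = ‖u‖ ^ 2

/-- the density of the standard Gaussian measure. -/
noncomputable def dens (c : ℕ) (x : E c) : ℝ :=
  (2 * Real.pi) ^ (-(c : ℝ) / 2) * Real.exp (-‖x‖ ^ 2 / 2)

/-- the standard Gaussian measure of `ℝ^c`. -/
noncomputable def gam (c : ℕ) : Measure (E c) :=
  volume.withDensity fun x => ENNReal.ofReal (dens c x)

/-- the mean of the absolute value of a coordinate on the unit sphere of `ℝ^c`. -/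
noncomputable def kap (c : ℕ) : ℝ :=
  Real.Gamma ((c : ℝ) / 2) / (Real.sqrt Real.pi * Real.Gamma (((c : ℝ) + 1) / 2))

/-- the radius `ρ_c = √c κ_c`. -/
noncomputable def rho (c : ℕ) : ℝ := Real.sqrt c * kap c

/-- the limit shape: the standard Gaussian measure of the ball of radius `ρ_c x` of `ℝ^c`. -/
noncomputable def psi (c : ℕ) (x : ℝ) : ℝ := (gam c (Metric.closedBall 0 (rho c * x))).toReal

lemma sg_or (A : Finset ℕ) (i : ℕ) : sg A i = 1 ∨ sg A i = -1 := by
  unfold sg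
  by_cases h : i ∈ A
  · exact Or.inl (if_pos h)
  · exact Or.inr (if_neg h)

lemma abs_sg (A : Finset ℕ) (i : ℕ) : |sg A i| = 1 := by
  rcases sg_or A i with h | h <;> rw [h] <;> norm_num

lemma sg_mul_self (A : Finset ℕ) (i : ℕ) : sg A i * sg A i = 1 := by
  rcases sg_or A i with h | h <;> rw [h] <;> norm_num

lemma inner_sm {c : ℕ} (u : E c) (w : ℕ → E c) (A S : Finset ℕ) :
    ⟪u, sm w A S⟫ = ∑ i ∈ S, sg A i * ⟪u, w i⟫ := by
  unfold sm
  rw [inner_sum]
  exact Finset.sum_congr rfl fun i _ => by rw [real_inner_smul_right]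

end Pool.Agent.H.MP_4bcbbd_co.F
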