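import Pool.Agent.H.MP_4bcbbd_co.h39f.LowerFr
import Pool.Agent.H.MP_4bcbbd_co.X.Defs

/-!
MP_4bcbbd_co, polytopes with few vertices: from a family of vectors to points of `ℝ^d`.
-/

set_option autoImplicit false

namespace Pool.Agent.H.MP_4bcbbd_co.F

open scoped BigOperators RealInnerProductSpace

/-- PROOF: otherwise Hahn-Banach (`geometric_hahn_banach_compact_point` or `_closed_point`) for the compact convex set
`{∑ i ∈ J, h i • w i : |h i| ≤ 1 - τ}` and `- s` gives `u` with `⟪u, -s⟫ > (1 - τ) ∑ i ∈ J, |⟪u, w i⟫|`. -/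
theorem exists_coeff {c : ℕ} {τ : ℝ} (hτ1 : τ ≤ 1) {w : ℕ → E c} {J : Finset ℕ} {s : E c}
    (h : ∀ u : E c, |⟪u, s⟫| ≤ (1 - τ) * ∑ i ∈ J, |⟪u, w i⟫|) :
    ∃ h : ℕ → ℝ, (∀ i ∈ J, |h i| ≤ 1 - τ) ∧ s + ∑ i ∈ J, h i • w i = 0 := by
  classical
  have h0 : 0 ≤ 1 - τ := by linarith
  set F : (ℕ → ℝ) →ₗ[ℝ] E c := ∑ i ∈ J, (LinearMap.proj i).smulRight (w i) with hF
  have hFa : ∀ g : ℕ → ℝ, F g = ∑ i ∈ J, g i • w i := by
    intro g
    rw [hF, LinearMap.sum_apply]
    exact Finset.sum_congr rfl fun i _ => rfl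
  have hFc : Continuous F := by
    have : (F : (ℕ → ℝ) → E c) = fun g => ∑ i ∈ J, g i • w i := funext hFa
    rw [this]
    exact continuous_finsetSum _ fun i _ => (continuous_apply i).smul continuous_const
  set B : Set (ℕ → ℝ) := Set.pi Set.univ fun _ => Set.Icc (-(1 - τ)) (1 - τ) with hB
  have hBc : IsCompact B := isCompact_univ_pi fun _ => isCompact_Icc
  have hBv : Convex ℝ B := convex_pi fun _ _ => convex_Icc _ _
  have hKc : IsClosed (F '' B) := (hBc.image hFc).isClosed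
  have hKv : Convex ℝ (F '' B) := hBv.linear_image F
  by_cases hs : -s ∈ F '' B
  · obtain ⟨g, hg, hgs⟩ := hs
    refine ⟨g, fun i _ => abs_le.2 (hg i (Set.mem_univ i)), ?_⟩
    rw [← hFa, hgs, add_neg_cancel]
  · exfalso
    obtain ⟨f, a, h1, h2⟩ := geometric_hahn_banach_closed_point hKv hKc hs
    set u : E c := (InnerProductSpace.toDual ℝ (E c)).symm f with hu
    have hfu : ∀ v, f v = ⟪u, v⟫ := by
      intro v
      rw [hu, InnerProductSpace.toDual_symm_apply]
    have h3 : F (fun i => (1 - τ) * SignType.sign ⟪u, w i⟫) ∈ F '' B := by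
      refine Set.mem_image_of_mem _ fun i _ => abs_le.1 ?_
      rw [abs_mul, abs_of_nonneg h0]
      refine mul_le_of_le_one_right h0 ?_
      rcases lt_trichotomy ⟪u, w i⟫ 0 with h | h | h
      · rw [sign_neg h]; norm_num
      · rw [h, sign_zero]; norm_num
      · rw [sign_pos h]; norm_num
    have h4 := h1 _ h3
    rw [hfu] at h4 h2
    rw [hFa, inner_sum] at h4
    have h5 : ∑ i ∈ J, ⟪u, ((1 - τ) * (SignType.sign ⟪u, w i⟫ : ℝ)) • w i⟫ =
        (1 - τ) * ∑ i ∈ J, |⟪u, w i⟫| := by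
      rw [Finset.mul_sum]
      refine Finset.sum_congr rfl fun i _ => ?_
      rw [real_inner_smul_right, mul_assoc, sign_mul_self]
    rw [h5] at h4
    rw [inner_neg_right] at h2
    have h6 := h u
    have h7 := neg_le_abs ⟪u, s⟫
    linarith

/-- The Gale dual. PROOF: `H = {h : Fin n → ℝ | ∑ i, h i • w i = 0}` has dimension `n - c = d`; take a linear equivalence
`E d ≃ H` and let `x i` represent the `i`-th coordinate (`InnerProductSpace.toDual`). Then every `h ∈ H` is of the form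
`h i = l (x i)`, and `∑ z i • x i = 0` iff `z ⊥ H` iff `z i = ⟪u, w i⟫` for some `u`. -/
theorem gale {d c n : ℕ} (hn : n = d + c) (w : ℕ → E c)
    (hspan : ∀ u : E c, u ≠ 0 → ∃ i ∈ Finset.range n, ⟪u, w i⟫ ≠ 0) :
    ∃ x : Fin n → E d,
      (∀ h : Fin n → ℝ, ∑ i : Fin n, h i • w i = 0 → ∃ l : E d →L[ℝ] ℝ, ∀ i, l (x i) = h i) ∧
      ∀ z : Fin n → ℝ, ∑ i, z i • x i = 0 → ∃ u : E c, ∀ i : Fin n, z i = ⟪u, w i⟫ := by
  classical
  set F : (Fin n → ℝ) →ₗ[ℝ] E c := ∑ i : Fin n, (LinearMap.proj i).smulRight (w i) with hF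
  have hFa : ∀ g : Fin n → ℝ, F g = ∑ i : Fin n, g i • w i := by
    intro g
    rw [hF, LinearMap.sum_apply]
    exact Finset.sum_congr rfl fun i _ => rfl
  have hFs : ∀ i : Fin n, F (Pi.single i 1) = w i := by
    intro i
    rw [hFa, Finset.sum_eq_single i]
    · rw [Pi.single_eq_same, one_smul]
    · intro j _ hj
      rw [Pi.single_eq_of_ne hj, zero_smul]
    · intro h
      exact absurd (Finset.mem_univ i) h
  have hsurj : LinearMap.range F = ⊤ := by
    by_contra hne
    have h1 : (LinearMap.range F)ᗮ ≠ ⊥ := by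
      intro h
      exact hne ((Submodule.orthogonal_eq_bot_iff).1 h)
    obtain ⟨u, hu, hu0⟩ := Submodule.exists_mem_ne_zero_of_ne_bot h1
    obtain ⟨i, hi, hi0⟩ := hspan u hu0
    apply hi0
    have h2 := (Submodule.mem_orthogonal' _ _).1 hu (w i)
      ⟨Pi.single ⟨i, Finset.mem_range.1 hi⟩ 1, hFs ⟨i, Finset.mem_range.1 hi⟩⟩
    exact h2
  have hdim : Module.finrank ℝ (LinearMap.ker F) = Module.finrank ℝ (E d) := by
    have h1 := LinearMap.finrank_range_add_finrank_ker F
    rw [hsurj, finrank_top, finrank_euclideanSpace_fin, Module.finrank_fin_fun] at h1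
    rw [finrank_euclideanSpace_fin]
    omega
  set e : E d ≃ₗ[ℝ] LinearMap.ker F := (LinearEquiv.ofFinrankEq _ _ hdim).symm with he
  set x : Fin n → E d := fun i => (InnerProductSpace.toDual ℝ (E d)).symm
    (LinearMap.toContinuousLinearMap
      ((LinearMap.proj i ∘ₗ (LinearMap.ker F).subtype) ∘ₗ e.toLinearMap)) with hx
  have hxi : ∀ i v, ⟪x i, v⟫ = (e v : Fin n → ℝ) i := by
    intro i v
    rw [hx, InnerProductSpace.toDual_symm_apply]
    rfl
  refine ⟨x, ?_, ?_⟩
  · intro h hh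
    have hk : h ∈ LinearMap.ker F := by rw [LinearMap.mem_ker, hFa, hh]
    refine ⟨innerSL ℝ (e.symm ⟨h, hk⟩), fun i => ?_⟩
    rw [innerSL_apply_apply, real_inner_comm, hxi, LinearEquiv.apply_symm_apply]
  · intro z hz
    set ζ : Module.Dual ℝ (Fin n → ℝ) := ∑ i : Fin n, z i • LinearMap.proj i with hζ
    have hζa : ∀ g : Fin n → ℝ, ζ g = ∑ i, z i * g i := by
      intro g
      rw [hζ, LinearMap.sum_apply]
      exact Finset.sum_congr rfl fun i _ => rfl
    have h1 : ζ ∈ (LinearMap.ker F).dualAnnihilator := by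
      rw [Submodule.mem_dualAnnihilator]
      intro g hg
      have h2 : ⟪∑ i, z i • x i, e.symm ⟨g, hg⟩⟫ = 0 := by rw [hz, inner_zero_left]
      rw [sum_inner] at h2
      rw [hζa, ← h2]
      refine Finset.sum_congr rfl fun i _ => ?_
      rw [real_inner_smul_left, hxi, LinearEquiv.apply_symm_apply]
    rw [← LinearMap.range_dualMap_eq_dualAnnihilator_ker] at h1
    obtain ⟨g, hg⟩ := h1
    refine ⟨(InnerProductSpace.toDual ℝ (E c)).symm (LinearMap.toContinuousLinearMap g),
      fun i => ?_⟩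
    rw [InnerProductSpace.toDual_symm_apply, LinearMap.coe_toContinuousLinearMap', ← hFs i,
      ← LinearMap.dualMap_apply, hg, hζa, Finset.sum_eq_single i]
    · rw [Pi.single_eq_same, mul_one]
    · intro j _ hj
      rw [Pi.single_eq_of_ne hj, mul_zero]
    · intro h
      exact absurd (Finset.mem_univ i) h

/-- PROOF: `exists_coeff` and `gale`. -/
theorem face_of_rcov {d c n : ℕ} {w : ℕ → E c} {x : Fin n → E d}
    (hx1 : ∀ h : Fin n → ℝ, ∑ i : Fin n, h i • w i = 0 → ∃ l : E d →L[ℝ] ℝ, ∀ i, l (x i) = h i)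
    (hx2 : ∀ z : Fin n → ℝ, ∑ i, z i • x i = 0 → ∃ u : E c, ∀ i : Fin n, z i = ⟪u, w i⟫)
    {τ : ℝ} (hτ : 0 < τ) (hτ1 : τ ≤ 1) {J A : Finset ℕ} (hJ : J ⊆ Finset.range n)
    (h : RCov τ w (Finset.range n) J A) (S A' : Finset (Fin n))
    (hS : ∀ i : Fin n, i ∈ S ↔ (i : ℕ) ∉ J) (hA : ∀ i : Fin n, i ∈ A' ↔ (i : ℕ) ∈ A ∧ i ∈ S) :
    X.Face x S A' ∧ LinearIndependent ℝ (fun i : S => x i) := by
  classical
  constructor
  · obtain ⟨g, hg1, hg2⟩ := exists_coeff hτ1 (fun u => (h u).1)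
    set H : ℕ → ℝ := fun i => if i ∈ J then g i else sg A i with hH
    have h1 : ∑ i : Fin n, H i • w i = 0 := by
      rw [Finset.sum_range (fun i => H i • w i) |>.symm, ← Finset.sum_sdiff hJ, ← hg2]
      congr 1
      · unfold sm
        refine Finset.sum_congr rfl fun i hi => ?_
        rw [hH]
        simp only [if_neg (Finset.mem_sdiff.1 hi).2]
      · refine Finset.sum_congr rfl fun i hi => ?_
        rw [hH]
        simp only [if_pos hi]
    obtain ⟨l, hl⟩ := hx1 (fun i => H i) h1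
    refine ⟨l, fun i hi => ?_, fun i hi => ?_⟩
    · rw [hl i, hH]
      simp only [if_neg ((hS i).1 hi)]
      unfold sg X.sg
      by_cases hiA : (i : ℕ) ∈ A
      · rw [if_pos hiA, if_pos ((hA i).2 ⟨hiA, hi⟩)]
      · rw [if_neg hiA, if_neg fun h' => hiA ((hA i).1 h').1]
    · have hiJ : (i : ℕ) ∈ J := by
        by_contra h'
        exact hi ((hS i).2 h')
      rw [hl i, hH]
      simp only [if_pos hiJ]
      exact lt_of_le_of_lt (hg1 _ hiJ) (by linarith)
  · rw [Fintype.linearIndependent_iff]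
    intro g hg
    set z : Fin n → ℝ := fun i => if hi : i ∈ S then g ⟨i, hi⟩ else 0 with hz
    have h1 : ∑ i, z i • x i = 0 := by
      have h2 : ∑ i, z i • x i = ∑ i ∈ S, z i • x i := by
        symm
        refine Finset.sum_subset (Finset.subset_univ S) fun i _ hi => ?_
        rw [hz]
        simp only [dif_neg hi, zero_smul]
      rw [h2, ← hg, ← Finset.sum_coe_sort S (fun i => z i • x i)]
      refine Finset.sum_congr rfl fun i _ => ?_
      rw [hz]
      simp only [dif_pos i.2]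
    obtain ⟨u, hu⟩ := hx2 z h1
    have h2 : u = 0 := by
      by_contra hne
      have h3 := (h u).2 hne
      have h4 : ∑ i ∈ J, |⟪u, w i⟫| = 0 := by
        refine Finset.sum_eq_zero fun i hi => ?_
        have hin := Finset.mem_range.1 (hJ hi)
        have h5 := hu ⟨i, hin⟩
        have h6 : z ⟨i, hin⟩ = 0 := by
          rw [hz]
          simp only
          rw [dif_neg]
          intro h'
          exact (hS ⟨i, hin⟩).1 h' hi
        rw [h6] at h5
        rw [← h5, abs_zero]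
      linarith
    intro i
    have h3 := hu i
    rw [h2, inner_zero_left, hz] at h3
    simp only [dif_pos i.2] at h3
    exact h3

end Pool.Agent.H.MP_4bcbbd_co.F
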