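import Pool.Agent.H.MP_4bcbbd_co.C.MaxR
import Pool.Agent.H.MP_4bcbbd_co.Reps

/-!
MP_4bcbbd_co, polytopes with few vertices: the normalised face numbers are monotone.
-/

set_option autoImplicit false

namespace Pool.Agent.H.MP_4bcbbd_co.F

open scoped BigOperators Topology

lemma mo_functional {d : ℕ} {W : Finset (E d)} (h : LinearIndependent ℝ ((↑) : W → E d))
    (c : E d → ℝ) : ∃ g : E d →L[ℝ] ℝ, ∀ w ∈ W, g w = c w := by
  classical
  set f0 : Submodule.span ℝ (Set.range ((↑) : W → E d)) →ₗ[ℝ] ℝ :=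
    (Finsupp.linearCombination ℝ (fun w : W => c w)).comp h.repr with hf0
  obtain ⟨g, hg⟩ := f0.exists_extend
  refine ⟨LinearMap.toContinuousLinearMap g, fun w hw => ?_⟩
  have hm : (w : E d) ∈ Submodule.span ℝ (Set.range ((↑) : W → E d)) :=
    Submodule.subset_span ⟨⟨w, hw⟩, rfl⟩
  have h1 : g w = f0 ⟨w, hm⟩ := by
    rw [← hg]
    rfl
  have h2 : h.repr ⟨w, hm⟩ = Finsupp.single (⟨w, hw⟩ : W) 1 :=
    h.repr_eq_single ⟨w, hw⟩ ⟨w, hm⟩ rfl
  have h3 : f0 ⟨w, hm⟩ = c w := by
    rw [hf0, LinearMap.comp_apply, h2, Finsupp.linearCombination_single, one_smul]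
  rw [LinearMap.coe_toContinuousLinearMap', h1, h3]

/-- faces of faces. PROOF: `W` is independent (`Simp`); take a functional `g` with `g = 1` on `W'` and `g = 0`... on `W \ W'`, and
`l - t (1_{W \ W'} dual)` for a small `t > 0`. -/
theorem spt_subset {d : ℕ} {V : Finset (E d)} (hS : Simp V) {W W' : Finset (E d)} (hW : W ⊆ V)
    (h : Spt V W) (h' : W' ⊆ W) : Spt V W' := by
  classical
  obtain ⟨g, hg⟩ := mo_functional (hS W hW h) (fun w => if w ∈ W' then 0 else 1)
  obtain ⟨l, hl1, hl2⟩ := h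
  have hev : ∀ᶠ t : ℝ in 𝓝[>] 0, ∀ v ∈ V \ W, l v - t * g v < 1 := by
    rw [Filter.eventually_all_finset]
    intro v hv
    rw [Finset.mem_sdiff] at hv
    have h1 : Filter.Tendsto (fun t : ℝ => l v - t * g v) (𝓝[>] 0) (𝓝 (l v - 0 * g v)) :=
      (Continuous.tendsto (by fun_prop) 0).mono_left nhdsWithin_le_nhds
    rw [zero_mul, sub_zero] at h1
    exact h1.eventually (gt_mem_nhds (hl2 v hv.1 hv.2))
  obtain ⟨t, ht, ht0⟩ := (hev.and self_mem_nhdsWithin).exists
  have ht0' : 0 < t := ht0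
  refine ⟨l - t • g, fun w hw => ?_, fun v hv hvW' => ?_⟩
  · have h1 := hg w (h' hw)
    simp only [if_pos hw] at h1
    simp [hl1 w (h' hw), h1]
  · have he : (l - t • g) v = l v - t * g v := by simp
    rw [he]
    by_cases hvW : v ∈ W
    · have h1 := hg v hvW
      simp only [if_neg hvW'] at h1
      rw [hl1 v hvW, h1]
      linarith
    · exact ht v (Finset.mem_sdiff.2 ⟨hv, hvW⟩)

/-- PROOF: double counting of the pairs `W' ⊂ W`, `|W| = k + 1`: every `W` has `k + 1` subsets of size `k` (`spt_subset`), and every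
`W' ∈ fc V k` is contained in at most `2 n - 2 k` of the `W` (the new vertex is neither in `W'` nor in `- W'`). -/
theorem fc_mono {d n k : ℕ} {V : Finset (E d)} (hV : CSData V) (hS : Simp V)
    (hcard : V.card = 2 * n) : (k + 1) * (fc V (k + 1)).card ≤ (2 * n - 2 * k) * (fc V k).card := by
  classical
  have key := Finset.card_mul_le_card_mul (s := fc V (k + 1)) (t := fc V k) (m := k + 1)
    (n := 2 * n - 2 * k) (fun W W' : Finset (E d) => W' ⊆ W) ?_ ?_
  · rw [mul_comm (k + 1), mul_comm (2 * n - 2 * k)]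
    exact key
  · intro W hW
    obtain ⟨h1, h2, h3⟩ := mem_fc.1 hW
    rw [← h2]
    refine Finset.card_le_card_of_injOn (fun v => W.erase v) ?_ ?_
    · intro v hv
      have hv' : v ∈ W := hv
      have : W.erase v ∈ (fc V k).bipartiteAbove (fun W W' : Finset (E d) => W' ⊆ W) W := by
        rw [Finset.mem_bipartiteAbove]
        refine ⟨mem_fc.2 ⟨(Finset.erase_subset _ _).trans h1, ?_, spt_subset hS h1 h3
          (Finset.erase_subset _ _)⟩, Finset.erase_subset _ _⟩
        rw [Finset.card_erase_of_mem hv', h2]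
        rfl
      exact this
    · intro a ha b hb hab
      by_contra hne
      have ha' : a ∈ W := ha
      have h4 : a ∈ W.erase b := Finset.mem_erase.2 ⟨hne, ha'⟩
      have hab' : W.erase a = W.erase b := hab
      rw [← hab'] at h4
      exact (Finset.notMem_erase a W) h4
  · intro W' hW'
    obtain ⟨h1, h2, h3⟩ := mem_fc.1 hW'
    set N : Finset (E d) := W'.image (fun v => -v) with hN
    have hNcard : N.card = k := by
      rw [hN, Finset.card_image_of_injective _ neg_injective, h2]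
    have hdis : Disjoint W' N := by
      rw [Finset.disjoint_left]
      intro v hv hvN
      obtain ⟨w, hw, hwv⟩ := Finset.mem_image.1 hvN
      obtain ⟨l, hl, -⟩ := h3
      have e1 := hl v hv
      have e2 := hl w hw
      rw [← hwv, map_neg, e2] at e1
      norm_num at e1
    have hsub : W' ∪ N ⊆ V := by
      refine Finset.union_subset h1 ?_
      intro v hv
      obtain ⟨w, hw, rfl⟩ := Finset.mem_image.1 hv
      exact hV.neg w (h1 hw)
    have hc : (V \ (W' ∪ N)).card = 2 * n - 2 * k := by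
      rw [Finset.card_sdiff_of_subset hsub, Finset.card_union_of_disjoint hdis, hcard, h2, hNcard]
      omega
    rw [← hc]
    refine (Finset.card_le_card ?_).trans
      (Finset.card_image_le (s := V \ (W' ∪ N)) (f := fun v => insert v W'))
    intro W hW
    rw [Finset.mem_bipartiteBelow] at hW
    obtain ⟨hWf, hWW⟩ := hW
    obtain ⟨g1, g2, g3⟩ := mem_fc.1 hWf
    have hlt : W'.card < W.card := by omega
    obtain ⟨v, hv, hvW'⟩ := Finset.exists_mem_notMem_of_card_lt_card hlt
    have hins : insert v W' = W := by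
      refine Finset.eq_of_subset_of_card_le (Finset.insert_subset hv hWW) ?_
      rw [Finset.card_insert_of_notMem hvW', g2, h2]
    rw [Finset.mem_image]
    refine ⟨v, ?_, hins⟩
    rw [Finset.mem_sdiff, Finset.mem_union, not_or]
    refine ⟨g1 hv, hvW', ?_⟩
    intro hvN
    obtain ⟨w, hw, hwv⟩ := Finset.mem_image.1 hvN
    obtain ⟨l, hl, -⟩ := g3
    have e1 := hl v hv
    have e2 := hl w (hWW hw)
    rw [← hwv, map_neg, e2] at e1
    norm_num at e1

/-- PROOF: `maxFaces_attained` for `i + 1`, `fc_mono`, `fc_le_maxFaces`. -/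
theorem maxFaces_mono {d n i : ℕ} (hd : 0 < d) (hn : i + 2 ≤ n)
    (hex : ∃ V : Finset (E d), CSData V ∧ Simp V ∧ V.card = 2 * n) :
    (maxFaces (i + 1) d n : ℝ) / (2 ^ (i + 2) * (n.choose (i + 2) : ℝ)) ≤
      (maxFaces i d n : ℝ) / (2 ^ (i + 1) * (n.choose (i + 1) : ℝ)) := by
  obtain ⟨V, hV, hS, hc, hm⟩ := C.maxFaces_attained hd (i + 1) hex
  have h1 := fc_mono (k := i + 1) hV hS hc
  have h2 := C.fc_le_maxFaces hd (i := i) hV hS hc
  have h3 : (i + 2) * maxFaces (i + 1) d n ≤ 2 * (n - (i + 1)) * maxFaces i d n := by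
    rw [hm]
    have e : 2 * n - 2 * (i + 1) = 2 * (n - (i + 1)) := by omega
    rw [e] at h1
    exact h1.trans (Nat.mul_le_mul_left _ h2)
  have h4 : n.choose (i + 2) * (i + 2) = n.choose (i + 1) * (n - (i + 1)) :=
    Nat.choose_succ_right_eq n (i + 1)
  have hc1 : 0 < n.choose (i + 1) := Nat.choose_pos (by omega)
  have hc2 : 0 < n.choose (i + 2) := Nat.choose_pos (by omega)
  have h5 : maxFaces (i + 1) d n * n.choose (i + 1) ≤ 2 * maxFaces i d n * n.choose (i + 2) := by
    have h6 : (i + 2) * (maxFaces (i + 1) d n * n.choose (i + 1)) ≤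
        (i + 2) * (2 * maxFaces i d n * n.choose (i + 2)) := by
      calc (i + 2) * (maxFaces (i + 1) d n * n.choose (i + 1))
          = ((i + 2) * maxFaces (i + 1) d n) * n.choose (i + 1) := by ring
        _ ≤ (2 * (n - (i + 1)) * maxFaces i d n) * n.choose (i + 1) := Nat.mul_le_mul_right _ h3
        _ = 2 * maxFaces i d n * (n.choose (i + 1) * (n - (i + 1))) := by ring
        _ = 2 * maxFaces i d n * (n.choose (i + 2) * (i + 2)) := by rw [h4]
        _ = (i + 2) * (2 * maxFaces i d n * n.choose (i + 2)) := by ring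
    exact Nat.le_of_mul_le_mul_left h6 (by omega)
  have h7 : (maxFaces (i + 1) d n : ℝ) * (n.choose (i + 1) : ℝ) ≤
      2 * (maxFaces i d n : ℝ) * (n.choose (i + 2) : ℝ) := by exact_mod_cast h5
  have p1 : (0 : ℝ) < (n.choose (i + 1) : ℝ) := by exact_mod_cast hc1
  have p2 : (0 : ℝ) < (n.choose (i + 2) : ℝ) := by exact_mod_cast hc2
  have p3 : (0 : ℝ) < 2 ^ (i + 1) := by positivity
  rw [div_le_div_iff₀ (by positivity) (by positivity)]
  have e2 : (2 : ℝ) ^ (i + 2) = 2 * 2 ^ (i + 1) := by ring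
  rw [e2]
  nlinarith [mul_le_mul_of_nonneg_left h7 p3.le]

end Pool.Agent.H.MP_4bcbbd_co.F
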