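import Pool.Agent.H.MP_4bcbbd_co.C.PVSimp
import Pool.Agent.H.MP_4bcbbd_co.C.Adjust

/-!
MP_4bcbbd_co, polytopes with few vertices: from points with many certified faces to a simplicial polytope.
-/

set_option autoImplicit false

namespace Pool.Agent.H.MP_4bcbbd_co.F

open scoped BigOperators
open Pool.Agent.H.MP_4bcbbd_co.C

/-- Certified faces with independent points are stable. PROOF: as `C.two_open`, with `C.adjust`. -/
theorem face_open {n d : ℕ} {x : Fin n → E d} {S A : Finset (Fin n)}
    (hli : LinearIndependent ℝ (fun i : S => x i)) (h : X.Face x S A) :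
    ∃ δ : ℝ, 0 < δ ∧ ∀ y : Fin n → E d, (∀ m, ‖y m - x m‖ < δ) → X.Face y S A := by
  classical
  obtain ⟨l, l1, l2⟩ := h
  have hev : ∀ᶠ q : (E d →L[ℝ] ℝ) × (Fin n → E d) in nhds (l, x),
      ∀ m, m ∉ S → |q.1 (q.2 m)| < 1 := by
    rw [Filter.eventually_all]
    intro m
    by_cases hm : m ∈ S
    · exact Filter.Eventually.of_forall fun q h1 => absurd hm h1
    · have hcont : Continuous fun q : (E d →L[ℝ] ℝ) × (Fin n → E d) => |q.1 (q.2 m)| :=
        (continuous_fst.clm_apply ((continuous_apply m).comp continuous_snd)).abs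
      have h1 : Filter.Tendsto (fun q : (E d →L[ℝ] ℝ) × (Fin n → E d) => |q.1 (q.2 m)|)
          (nhds (l, x)) (nhds |l (x m)|) := hcont.tendsto (l, x)
      filter_upwards [h1.eventually_lt_const (l2 m hm)] with q hq _
      exact hq
  obtain ⟨η, hη, hball⟩ := Metric.eventually_nhds_iff.1 hev
  obtain ⟨φ, hφ⟩ : ∃ φ : S ≃ Fin S.card, φ = S.equivFin := ⟨_, rfl⟩
  have hli' : LinearIndependent ℝ (fun k : Fin S.card => x (φ.symm k)) :=
    hli.comp φ.symm φ.symm.injective
  obtain ⟨δ, hδ, hadj⟩ := adjust hli' l hη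
  refine ⟨min δ η, lt_min hδ hη, fun y hy => ?_⟩
  obtain ⟨f, hf, hfl⟩ := hadj (fun k => y (φ.symm k)) (fun k => X.sg A (φ.symm k))
    (fun k => (hy _).trans_le (min_le_left _ _))
    (fun k => by
      rw [l1 _ (φ.symm k).2, sub_self, abs_zero]
      exact hδ)
  refine ⟨f, fun i hi => ?_, fun m hm => ?_⟩
  · have h1 := hf (φ ⟨i, hi⟩)
    rw [Equiv.symm_apply_apply] at h1
    exact h1
  · have hd : dist ((f, y) : (E d →L[ℝ] ℝ) × (Fin n → E d)) (l, x) < η := by
      rw [Prod.dist_eq, max_lt_iff]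
      refine ⟨?_, ?_⟩
      · rw [dist_eq_norm]
        exact hfl
      · rw [dist_pi_lt_iff hη]
        intro k
        rw [dist_eq_norm]
        exact (hy k).trans_le (min_le_right _ _)
    exact hball hd m hm

theorem pl_one {n d : ℕ} {x : Fin n → E d} {i : Fin n} (h : x i ≠ 0) :
    LinearIndependent ℝ (fun j : ({i} : Finset (Fin n)) => x j) := by
  rw [Fintype.linearIndependent_iff]
  intro g hg j
  have hj : (j : Fin n) = i := Finset.mem_singleton.1 j.2
  rw [Fintype.sum_eq_single j (fun k hk => absurd (Subtype.ext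
    ((Finset.mem_singleton.1 k.2).trans hj.symm)) hk), hj] at hg
  rcases smul_eq_zero.1 hg with h1 | h1
  · exact h1
  · exact absurd h1 h

theorem pl_family {n d : ℕ} {x : Fin n → E d} (P : Finset (Finset (Fin n) × Finset (Fin n)))
    (hP : ∀ q ∈ P, X.Face x q.1 q.2 ∧ LinearIndependent ℝ (fun i : q.1 => x i)) :
    ∃ δ : ℝ, 0 < δ ∧ ∀ y : Fin n → E d, (∀ m, ‖y m - x m‖ < δ) → ∀ q ∈ P, X.Face y q.1 q.2 := by
  classical
  induction P using Finset.induction_on with
  | empty => exact ⟨1, one_pos, fun y _ q hq => absurd hq (Finset.notMem_empty q)⟩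
  | insert q P hq ih =>
    obtain ⟨δ, hδ, h1⟩ := ih fun p hp => hP p (Finset.mem_insert_of_mem hp)
    obtain ⟨h2, h3⟩ := hP q (Finset.mem_insert_self q P)
    obtain ⟨δ', hδ', h4⟩ := face_open h3 h2
    refine ⟨min δ δ', lt_min hδ hδ', fun y hy p hp => ?_⟩
    rcases Finset.mem_insert.1 hp with rfl | hp
    · exact h4 y fun m => (hy m).trans_le (min_le_right _ _)
    · exact h1 y (fun m => (hy m).trans_le (min_le_left _ _)) p hp

theorem pl_data {n d : ℕ} {y : Fin n → E d} (hy : SGP y) (hd : 2 ≤ d) (hn : d ≤ n)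
    (h : ∀ i, X.Face y {i} {i}) : CSData (PV y) := by
  classical
  have hneg : ∀ v ∈ PV y, -v ∈ PV y := by
    intro v hv
    obtain ⟨⟨i, s⟩, rfl⟩ := mem_PV.1 hv
    refine mem_PV.2 ⟨(i, !s), ?_⟩
    show bs (!s) • y i = -(bs s • y i)
    rw [← neg_smul]
    congr 1
    cases s <;> simp
  refine ⟨hneg, ?_, ?_⟩
  · have hpos : ∀ i, Spt (PV y) {sp y (i, true)} := by
      intro i
      obtain ⟨l, l1, l2⟩ := h i
      have e1 : l (y i) = 1 := by
        rw [l1 i (Finset.mem_singleton_self i)]
        exact X.sg_mem (Finset.mem_singleton_self i)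
      refine ⟨l, fun w hw => ?_, fun v hv hv2 => ?_⟩
      · rw [Finset.mem_singleton] at hw
        rw [hw]
        show l (bs true • y i) = 1
        rw [bs_true, one_smul, e1]
      · obtain ⟨⟨j, t⟩, rfl⟩ := mem_PV.1 hv
        rw [Finset.mem_singleton] at hv2
        show l (bs t • y j) < 1
        rw [map_smul, smul_eq_mul]
        by_cases hij : j = i
        · subst hij
          cases t
          · rw [bs_false, e1]
            norm_num
          · exact absurd rfl hv2
        · have h3 := l2 j (by rw [Finset.mem_singleton]; exact hij)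
          have h4 : |bs t * l (y j)| < 1 := by rw [abs_mul, abs_bs, one_mul]; exact h3
          exact lt_of_le_of_lt (le_abs_self _) h4
    intro v hv
    obtain ⟨⟨i, s⟩, rfl⟩ := mem_PV.1 hv
    cases s
    · obtain ⟨l, l1, l2⟩ := hpos i
      have hm : sp y (i, false) = -sp y (i, true) := by
        show bs false • y i = -(bs true • y i)
        rw [bs_false, bs_true, neg_smul]
      refine ⟨-l, fun w hw => ?_, fun w hw hw2 => ?_⟩
      · rw [Finset.mem_singleton] at hw
        rw [hw, hm]
        have := l1 (sp y (i, true)) (Finset.mem_singleton_self _)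
        simpa using this
      · have h1 := l2 (-w) (hneg w hw) (by
          rw [Finset.mem_singleton]
          intro h2
          apply hw2
          rw [Finset.mem_singleton, hm, ← h2, neg_neg])
        simpa using h1
    · exact hpos i
  · obtain ⟨T, -, hT⟩ := Finset.exists_subset_card_eq (s := (Finset.univ : Finset (Fin n)))
      (n := d) (by rw [Finset.card_univ, Fintype.card_fin]; exact hn)
    rw [← top_le_iff, ← X.Gp_span hy.1 T hT, Submodule.span_le]
    rintro _ ⟨i, rfl⟩
    refine Submodule.subset_span ?_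
    refine Finset.mem_coe.2 (mem_PV.2 ⟨(i.1, true), ?_⟩)
    show bs true • y i = y i
    rw [bs_true, one_smul]

/-- PROOF: `face_open` (finitely many conditions), `C.exists_sgp`, `V = C.PV y` (as in `C.lower_r`): `C.PV_simp`, `C.PV_card`; `CSData` from the
vertex certificates (see `C.PV_data`); the map `(S, A) ↦ {bs (i ∈ A) • y i : i ∈ S}` is injective into `fc V k`. -/
theorem polyLower {n d k : ℕ} (hd : 2 ≤ d) (hn : d ≤ n) {x : Fin n → E d}
    (hv : ∀ i, X.Face x {i} {i} ∧ x i ≠ 0)
    (P : Finset (Finset (Fin n) × Finset (Fin n)))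
    (hP : ∀ q ∈ P, q.1.card = k ∧ q.2 ⊆ q.1 ∧ X.Face x q.1 q.2 ∧
      LinearIndependent ℝ (fun i : q.1 => x i)) :
    ∃ V : Finset (E d), CSData V ∧ Simp V ∧ V.card = 2 * n ∧ P.card ≤ (fc V k).card := by
  classical
  obtain ⟨δ₁, hδ₁, h1⟩ := pl_family P fun q hq => ⟨(hP q hq).2.2.1, (hP q hq).2.2.2⟩
  obtain ⟨δ₂, hδ₂, h2⟩ := pl_family (x := x)
    ((Finset.univ : Finset (Fin n)).image fun i => (({i} : Finset (Fin n)), ({i} : Finset (Fin n))))
    (by
      intro q hq
      rw [Finset.mem_image] at hq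
      obtain ⟨i, -, rfl⟩ := hq
      exact ⟨(hv i).1, pl_one (hv i).2⟩)
  obtain ⟨y, hy, hsgp⟩ := exists_sgp x (lt_min hδ₁ hδ₂)
  have hf1 := h1 y fun m => (hy m).trans_le (min_le_left _ _)
  have hf2 : ∀ i, X.Face y {i} {i} := fun i =>
    h2 y (fun m => (hy m).trans_le (min_le_right _ _)) ({i}, {i})
      (Finset.mem_image.2 ⟨i, Finset.mem_univ i, rfl⟩)
  refine ⟨PV y, pl_data hsgp hd hn hf2, PV_simp hsgp hd, PV_card hsgp.1 hd, ?_⟩
  have hinj := sp_inj hsgp.1 hd
  obtain ⟨F, hF⟩ : ∃ F : Finset (Fin n) × Finset (Fin n) → Finset (E d),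
      F = fun q => q.1.image fun i => sp y (i, decide (i ∈ q.2)) := ⟨_, rfl⟩
  have hmem : ∀ (q : Finset (Fin n) × Finset (Fin n)) (i : Fin n) (t : Bool),
      sp y (i, t) ∈ F q ↔ i ∈ q.1 ∧ t = decide (i ∈ q.2) := by
    intro q i t
    rw [hF]
    simp only [Finset.mem_image]
    constructor
    · rintro ⟨j, hj, hj2⟩
      have h3 := hinj hj2
      rw [Prod.mk.injEq] at h3
      obtain ⟨rfl, rfl⟩ := h3
      exact ⟨hj, rfl⟩
    · rintro ⟨hi, rfl⟩
      exact ⟨i, hi, rfl⟩
  refine Finset.card_le_card_of_injOn F ?_ ?_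
  · intro q hq
    have hq' : q ∈ P := hq
    obtain ⟨hk, hA, -, -⟩ := hP q hq'
    obtain ⟨l, l1, l2⟩ := hf1 q hq'
    refine Finset.mem_coe.2 (mem_fc.2 ⟨?_, ?_, ?_⟩)
    · intro v hv
      rw [hF] at hv
      obtain ⟨i, -, rfl⟩ := Finset.mem_image.1 hv
      exact mem_PV.2 ⟨_, rfl⟩
    · rw [hF]
      show (q.1.image fun i => sp y (i, decide (i ∈ q.2))).card = k
      rw [Finset.card_image_of_injOn, hk]
      intro i _ j _ hij
      exact (Prod.mk.inj (hinj hij)).1
    · refine ⟨l, fun w hw => ?_, fun v hv hv2 => ?_⟩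
      · rw [hF] at hw
        obtain ⟨i, hi, rfl⟩ := Finset.mem_image.1 hw
        show l (bs (decide (i ∈ q.2)) • y i) = 1
        rw [map_smul, smul_eq_mul, l1 i hi]
        by_cases h : i ∈ q.2
        · rw [X.sg_mem h, decide_eq_true h, bs_true, one_mul]
        · rw [X.sg_not h, decide_eq_false h, bs_false]
          norm_num
      · obtain ⟨⟨j, t⟩, rfl⟩ := mem_PV.1 hv
        rw [hmem] at hv2
        show l (bs t • y j) < 1
        rw [map_smul, smul_eq_mul]
        by_cases hj : j ∈ q.1
        · have ht : t ≠ decide (j ∈ q.2) := fun h => hv2 ⟨hj, h⟩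
          rw [l1 j hj]
          by_cases h : j ∈ q.2
          · rw [decide_eq_true h] at ht
            have ht' : t = false := by
              cases t
              · rfl
              · exact absurd rfl ht
            rw [X.sg_mem h, ht', bs_false]
            norm_num
          · rw [decide_eq_false h] at ht
            have ht' : t = true := by
              cases t
              · exact absurd rfl ht
              · rfl
            rw [X.sg_not h, ht', bs_true]
            norm_num
        · have h4 : |bs t * l (y j)| < 1 := by rw [abs_mul, abs_bs, one_mul]; exact l2 j hj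
          exact lt_of_le_of_lt (le_abs_self _) h4
  · intro q hq q' hq' h
    have hA := (hP q hq).2.1
    have hA' := (hP q' hq').2.1
    have hm : ∀ i t, (i ∈ q.1 ∧ t = decide (i ∈ q.2)) ↔ (i ∈ q'.1 ∧ t = decide (i ∈ q'.2)) := by
      intro i t
      rw [← hmem, ← hmem, h]
    have e1 : q.1 = q'.1 := by
      ext i
      exact ⟨fun hi => ((hm i _).1 ⟨hi, rfl⟩).1, fun hi => ((hm i _).2 ⟨hi, rfl⟩).1⟩
    have e2 : q.2 = q'.2 := by
      ext i
      constructor
      · intro hi
        have h3 := (hm i true).1 ⟨hA hi, (decide_eq_true hi).symm⟩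
        exact of_decide_eq_true h3.2.symm
      · intro hi
        have h3 := (hm i true).2 ⟨hA' hi, (decide_eq_true hi).symm⟩
        exact of_decide_eq_true h3.2.symm
    exact Prod.ext e1 e2

end Pool.Agent.H.MP_4bcbbd_co.F
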