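import Pool.Agent.H.MP_4bcbbd_co.h39f.Avg
import Pool.Agent.H.MP_4bcbbd_co.Reps

/-!
MP_4bcbbd_co, polytopes with few vertices: faces are covering pairs of the dual family.
-/

set_option autoImplicit false

namespace Pool.Agent.H.MP_4bcbbd_co.F

open scoped BigOperators RealInnerProductSpace

/-- The dual family. PROOF: the space of relations `z` has dimension `n - d = c` (rank-nullity for
`Fintype.linearCombination ℝ r`, which is onto); compose a linear equivalence of `E c` with it with the coordinates and use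
the Riesz representation (`InnerProductSpace.toDual`). -/
theorem dual_family {d c n : ℕ} (hn : n = d + c) (r : Fin n → E d)
    (hspan : Submodule.span ℝ (Set.range r) = ⊤) : ∃ w : ℕ → E c, ∀ u : E c,
      (∑ i : Fin n, ⟪u, w i⟫ • r i = 0) ∧ (u ≠ 0 → ∃ i : Fin n, ⟪u, w i⟫ ≠ 0) := by
  classical
  set L : (Fin n → ℝ) →ₗ[ℝ] E d := Fintype.linearCombination ℝ r with hL
  have hrange : LinearMap.range L = ⊤ := by
    rw [hL, Fintype.range_linearCombination, hspan]
  have hker : Module.finrank ℝ (LinearMap.ker L) = c := by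
    have h1 := LinearMap.finrank_range_add_finrank_ker L
    rw [hrange, finrank_top] at h1
    simp at h1
    omega
  have hfin : Module.finrank ℝ (E c) = Module.finrank ℝ (LinearMap.ker L) := by
    rw [hker]
    simp
  obtain ⟨e⟩ : Nonempty (E c ≃ₗ[ℝ] LinearMap.ker L) :=
    FiniteDimensional.nonempty_linearEquiv_of_finrank_eq hfin
  let f : Fin n → (E c →ₗ[ℝ] ℝ) := fun i =>
    (LinearMap.proj i).comp ((LinearMap.ker L).subtype.comp e.toLinearMap)
  let w' : Fin n → E c := fun i =>
    (InnerProductSpace.toDual ℝ (E c)).symm (LinearMap.toContinuousLinearMap (f i))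
  have hw' : ∀ u i, ⟪u, w' i⟫ = (e u : Fin n → ℝ) i := by
    intro u i
    rw [real_inner_comm]
    simp only [w', InnerProductSpace.toDual_symm_apply]
    rfl
  refine ⟨fun i => if h : i < n then w' ⟨i, h⟩ else 0, fun u => ⟨?_, ?_⟩⟩
  · have h1 : ∀ i : Fin n, ⟪u, (if h : (i : ℕ) < n then w' ⟨i, h⟩ else 0)⟫ =
        (e u : Fin n → ℝ) i := by
      intro i
      rw [dif_pos i.2]
      exact hw' u i
    have h2 : L (e u : Fin n → ℝ) = 0 := (e u).2
    have h3 := Fintype.linearCombination_apply ℝ r (e u : Fin n → ℝ)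
    have h4 : ∑ i, (e u : Fin n → ℝ) i • r i = 0 := h3.symm.trans h2
    refine Eq.trans ?_ h4
    exact Finset.sum_congr rfl fun i _ => by rw [← h1 i]
  · intro hu
    by_contra hcon
    push Not at hcon
    apply hu
    have h3 : (e u : Fin n → ℝ) = 0 := by
      funext i
      have := hcon i
      rw [dif_pos i.2] at this
      rw [← hw' u i]
      exact this
    have h4 : e u = 0 := Subtype.ext h3
    exact (LinearEquiv.map_eq_zero_iff e).1 h4

/-- PROOF: `0 = l (∑ i, z i • r i)`, `z i = ⟪u, w i⟫`: `|∑ i ∉ J, sg A i z i| = |∑ i ∈ J, l (r i) z i| < ∑ i ∈ J, |z i|`, strict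
because not all `z i`, `i ∈ J`, vanish (`hli`). -/
theorem cov_of_face {d c n : ℕ} {r : Fin n → E d} {w : ℕ → E c}
    (hw : ∀ u : E c, (∑ i : Fin n, ⟪u, w i⟫ • r i = 0) ∧ (u ≠ 0 → ∃ i : Fin n, ⟪u, w i⟫ ≠ 0))
    {J A : Finset ℕ} (hJ : J ⊆ Finset.range n) (l : E d →L[ℝ] ℝ)
    (h1 : ∀ i : Fin n, (i : ℕ) ∉ J → l (r i) = sg A i)
    (h2 : ∀ i : Fin n, (i : ℕ) ∈ J → |l (r i)| < 1)
    (hli : ∀ z : Fin n → ℝ, ∑ i, z i • r i = 0 → (∀ i : Fin n, (i : ℕ) ∈ J → z i = 0) →
      ∀ i, z i = 0) : Cov w (Finset.range n) 0 J A := by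
  classical
  intro u hu
  obtain ⟨hz, hz0⟩ := hw u
  obtain ⟨i0, hi0⟩ := hz0 hu
  set g : ℕ → ℝ := fun i => if h : i < n then l (r ⟨i, h⟩) else 0 with hg
  have hgi : ∀ i : Fin n, g i = l (r i) := fun i => by
    simp only [hg]
    rw [dif_pos i.2]
  have hsum : ∑ i ∈ Finset.range n, ⟪u, w i⟫ * g i = 0 := by
    rw [Finset.sum_range]
    have h3 := congrArg l hz
    rw [map_sum, map_zero] at h3
    rw [← h3]
    refine Finset.sum_congr rfl fun i _ => ?_
    rw [hgi, map_smul, smul_eq_mul]
  rw [← Finset.sum_sdiff hJ] at hsum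
  have hA : ⟪u, 0 + sm w A (Finset.range n \ J)⟫ =
      ∑ i ∈ Finset.range n \ J, ⟪u, w i⟫ * g i := by
    rw [zero_add, inner_sm]
    refine Finset.sum_congr rfl fun i hi => ?_
    rw [Finset.mem_sdiff, Finset.mem_range] at hi
    have := h1 ⟨i, hi.1⟩ hi.2
    have h4 := hgi ⟨i, hi.1⟩
    simp only at this h4
    rw [h4, this, mul_comm]
  have hB : ∑ i ∈ Finset.range n \ J, ⟪u, w i⟫ * g i = -∑ i ∈ J, ⟪u, w i⟫ * g i := by
    linarith
  rw [hA, hB, abs_neg]
  have hle : ∀ i ∈ J, |⟪u, w i⟫ * g i| ≤ |⟪u, w i⟫| := by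
    intro i hi
    have hin := Finset.mem_range.1 (hJ hi)
    have h4 := hgi ⟨i, hin⟩
    have h5 := h2 ⟨i, hin⟩ hi
    simp only at h4 h5
    rw [abs_mul, h4]
    have := abs_nonneg ⟪u, w i⟫
    nlinarith
  obtain ⟨j, hjJ, hj⟩ : ∃ j ∈ J, ⟪u, w j⟫ ≠ 0 := by
    by_contra hcon
    push Not at hcon
    exact hi0 (hli (fun i => ⟪u, w i⟫) hz (fun i hi => hcon i hi) i0)
  have hlt : |⟪u, w j⟫ * g j| < |⟪u, w j⟫| := by
    have hin := Finset.mem_range.1 (hJ hjJ)
    have h4 := hgi ⟨j, hin⟩
    have h5 := h2 ⟨j, hin⟩ hjJ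
    simp only at h4 h5
    rw [abs_mul, h4]
    have := abs_pos.2 hj
    nlinarith
  calc |∑ i ∈ J, ⟪u, w i⟫ * g i| ≤ ∑ i ∈ J, |⟪u, w i⟫ * g i| := Finset.abs_sum_le_sum_abs _ _
    _ < ∑ i ∈ J, |⟪u, w i⟫| := Finset.sum_lt_sum hle ⟨j, hjJ, hlt⟩

/-- the signed representative. -/
private lemma pu_li {d n : ℕ} {V W : Finset (E d)} {r : Fin n → E d} (hr : Reps V r)
    (hW : LinearIndependent ℝ ((↑) : W → E d)) {J : Finset ℕ}
    (hJ : ∀ i : Fin n, (i : ℕ) ∉ J → r i ∈ W ∨ -r i ∈ W) (z : Fin n → ℝ)
    (hz : ∑ i, z i • r i = 0) (hzJ : ∀ i : Fin n, (i : ℕ) ∈ J → z i = 0) : ∀ i, z i = 0 := by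
  classical
  let q : {i : Fin n // (i : ℕ) ∉ J} → W := fun i =>
    if h : r i.1 ∈ W then ⟨r i.1, h⟩ else ⟨-r i.1, (hJ i.1 i.2).resolve_left h⟩
  let s : {i : Fin n // (i : ℕ) ∉ J} → ℝ := fun i => if r i.1 ∈ W then 1 else -1
  have hq : ∀ i : {i : Fin n // (i : ℕ) ∉ J}, r i.1 = s i • ((q i : W) : E d) := by
    intro i
    simp only [q, s]
    split_ifs with h
    · simp
    · simp
  have hs : ∀ i, s i ≠ 0 := by
    intro i
    simp only [s]
    split_ifs <;> norm_num
  have hqinj : Function.Injective q := by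
    intro i j hij
    by_contra hne
    have hne' : i.1 ≠ j.1 := fun h => hne (Subtype.ext h)
    have h3 : ((q i : W) : E d) = ((q j : W) : E d) := by rw [hij]
    simp only [q] at h3
    split_ifs at h3 with ha hb hb
    · exact hr.inj _ _ hne' h3
    · exact hr.anti _ _ h3
    · exact hr.anti _ _ h3.symm
    · exact hr.inj _ _ hne' (neg_injective h3)
  have hli : LinearIndependent ℝ (fun i => ((q i : W) : E d)) := hW.comp q hqinj
  rw [Fintype.linearIndependent_iff] at hli
  have hsum : ∑ i : {i : Fin n // (i : ℕ) ∉ J}, (z i.1 * s i) • ((q i : W) : E d) = 0 := by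
    have h5 : ∑ i : {i : Fin n // (i : ℕ) ∉ J}, z i.1 • r i.1 = 0 := by
      rw [← hz, ← Finset.sum_subtype (Finset.univ.filter fun i : Fin n => (i : ℕ) ∉ J)
        (fun i => by simp) (fun i => z i • r i)]
      refine Finset.sum_subset (Finset.filter_subset _ _) fun i _ hi => ?_
      rw [Finset.mem_filter] at hi
      have : (i : ℕ) ∈ J := by
        by_contra h
        exact hi ⟨Finset.mem_univ _, h⟩
      rw [hzJ i this, zero_smul]
    rw [← h5]
    refine Finset.sum_congr rfl fun i _ => ?_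
    rw [mul_smul, ← hq i]
  intro i
  by_cases hi : (i : ℕ) ∈ J
  · exact hzJ i hi
  · have h6 := hli _ hsum ⟨i, hi⟩
    exact (mul_eq_zero.1 h6).resolve_right (hs _)

/-- PROOF. `r` from `exists_reps` (spans `E d`), `w` from `dual_family`. To `W ∈ fc V k` and `T ⊆ J` associate the pair `(J, A)` with
`J = {i < n : r i ∉ W, - r i ∉ W}` (`|J| = n - k`, since `W` contains no antipodal pair), `A = {i : r i ∈ W} ∪ T`; this is injective
and `Cov` holds by `cov_of_face` (`Simp V` gives the independence of `W`); so `|fc V k| 2^(n-k) ≤` the number of covering pairs. -/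
theorem polyUpper {d c n k : ℕ} (hn : n = d + c) (hk : 1 ≤ k) (hkn : k ≤ n)
    {V : Finset (E d)} (hV : CSData V) (hS : Simp V) (hcard : V.card = 2 * n) :
    ∃ w : ℕ → E c, ((fc V k).card : ℝ) ≤
      2 ^ k * (n.choose k : ℝ) * fr w (Finset.range n) 0 (n - k) := by
  classical
  obtain ⟨r, hr⟩ := exists_reps V hV n hcard
  have hspan : Submodule.span ℝ (Set.range r) = ⊤ := by
    rw [eq_top_iff, ← hV.span, Submodule.span_le]
    intro v hv
    obtain ⟨i, hi | hi⟩ := hr.surj v hv
    · rw [hi]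
      exact Submodule.subset_span ⟨i, rfl⟩
    · rw [hi]
      exact Submodule.neg_mem _ (Submodule.subset_span ⟨i, rfl⟩)
  obtain ⟨w, hw⟩ := dual_family hn r hspan
  refine ⟨w, ?_⟩
  -- the index sets
  set PI : Finset (E d) → Finset ℕ := fun W =>
    (Finset.univ.filter fun i : Fin n => r i ∈ W).image (fun i : Fin n => (i : ℕ)) with hPI
  set JI : Finset (E d) → Finset ℕ := fun W =>
    (Finset.univ.filter fun i : Fin n => r i ∉ W ∧ -r i ∉ W).image (fun i : Fin n => (i : ℕ))
    with hJI
  have memPI : ∀ W (i : Fin n), (i : ℕ) ∈ PI W ↔ r i ∈ W := by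
    intro W i
    simp only [hPI, Finset.mem_image, Finset.mem_filter, Finset.mem_univ, true_and]
    constructor
    · rintro ⟨j, hj, hij⟩
      rwa [← Fin.ext hij]
    · exact fun h => ⟨i, h, rfl⟩
  have memJI : ∀ W (i : Fin n), (i : ℕ) ∈ JI W ↔ (r i ∉ W ∧ -r i ∉ W) := by
    intro W i
    simp only [hJI, Finset.mem_image, Finset.mem_filter, Finset.mem_univ, true_and]
    constructor
    · rintro ⟨j, hj, hij⟩
      rwa [← Fin.ext hij]
    · exact fun h => ⟨i, h, rfl⟩
  have ltPI : ∀ W i, i ∈ PI W → i < n := by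
    intro W i hi
    simp only [hPI, Finset.mem_image, Finset.mem_filter, Finset.mem_univ, true_and] at hi
    obtain ⟨j, -, rfl⟩ := hi
    exact j.2
  have ltJI : ∀ W i, i ∈ JI W → i < n := by
    intro W i hi
    simp only [hJI, Finset.mem_image, Finset.mem_filter, Finset.mem_univ, true_and] at hi
    obtain ⟨j, -, rfl⟩ := hi
    exact j.2
  have noanti : ∀ W ∈ fc V k, ∀ v ∈ W, -v ∉ W := by
    intro W hW v hv hv'
    obtain ⟨-, -, l, hl, -⟩ := mem_fc.1 hW
    have h1 := hl v hv
    have h2 := hl (-v) hv'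
    rw [map_neg, h1] at h2
    norm_num at h2
  have hJsub : ∀ W, JI W ⊆ Finset.range n := fun W i hi => Finset.mem_range.2 (ltJI W i hi)
  have hPsub : ∀ W, PI W ⊆ Finset.range n := fun W i hi => Finset.mem_range.2 (ltPI W i hi)
  -- the number of indices
  have hJcard : ∀ W ∈ fc V k, (JI W).card = n - k := by
    intro W hW
    obtain ⟨hWV, hWk, -⟩ := mem_fc.1 hW
    have h1 : (Finset.univ.filter fun i : Fin n => ¬(r i ∉ W ∧ -r i ∉ W)).card = k := by
      rw [← hWk]
      refine Finset.card_bij (fun i _ => if r i ∈ W then r i else -r i) ?_ ?_ ?_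
      · intro i hi
        rw [Finset.mem_filter] at hi
        split_ifs with h
        · exact h
        · by_contra h2
          exact hi.2 ⟨h, h2⟩
      · intro i hi j hj hij
        by_contra hne
        split_ifs at hij with ha hb hb
        · exact hr.inj _ _ hne hij
        · exact hr.anti _ _ hij
        · exact hr.anti _ _ hij.symm
        · exact hr.inj _ _ hne (neg_injective hij)
      · intro v hv
        obtain ⟨i, hi | hi⟩ := hr.surj v (hWV hv)
        · refine ⟨i, ?_, ?_⟩
          · rw [Finset.mem_filter]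
            refine ⟨Finset.mem_univ _, fun h => h.1 (by rwa [← hi])⟩
          · rw [if_pos (by rwa [← hi]), hi]
        · refine ⟨i, ?_, ?_⟩
          · rw [Finset.mem_filter]
            refine ⟨Finset.mem_univ _, fun h => h.2 (by rwa [← hi])⟩
          · have h2 : r i ∉ W := by
              intro h3
              have h4 := noanti W hW (r i) h3
              rw [← hi] at h4
              exact h4 hv
            rw [if_neg h2, hi]
    have h2 := Finset.card_filter_add_card_filter_not (s := (Finset.univ : Finset (Fin n)))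
      (fun i : Fin n => r i ∉ W ∧ -r i ∉ W)
    rw [h1, Finset.card_univ, Fintype.card_fin] at h2
    have h3 : (JI W).card =
        (Finset.univ.filter fun i : Fin n => r i ∉ W ∧ -r i ∉ W).card :=
      Finset.card_image_of_injective _ Fin.val_injective
    omega
  have hdisj : ∀ W i, i ∈ PI W → i ∉ JI W := by
    intro W i hi hi2
    have hin := ltPI W i hi
    have h1 := (memPI W ⟨i, hin⟩).1 hi
    have h2 := (memJI W ⟨i, hin⟩).1 hi2
    exact h2.1 h1
  -- the covering property
  have hcov : ∀ W ∈ fc V k, ∀ T ⊆ JI W, Cov w (Finset.range n) 0 (JI W) (PI W ∪ T) := by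
    intro W hW T hT
    obtain ⟨hWV, hWk, hSpt⟩ := mem_fc.1 hW
    have hWli := hS W hWV hSpt
    obtain ⟨l, hl1, hl2⟩ := hSpt
    refine cov_of_face hw (hJsub W) l ?_ ?_ ?_
    · intro i hi
      rw [memJI] at hi
      unfold sg
      by_cases h : r i ∈ W
      · rw [if_pos (Finset.mem_union_left _ ((memPI W i).2 h)), hl1 _ h]
      · have h2 : -r i ∈ W := by
          by_contra h3
          exact hi ⟨h, h3⟩
        have h3 : (i : ℕ) ∉ PI W ∪ T := by
          rw [Finset.mem_union, not_or]
          refine ⟨fun h4 => h ((memPI W i).1 h4), fun h4 => ?_⟩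
          exact ((memJI W i).1 (hT h4)).2 h2
        rw [if_neg h3]
        have h4 := hl1 _ h2
        rw [map_neg] at h4
        linarith
    · intro i hi
      rw [memJI] at hi
      have h1 := hl2 _ (hr.mem i) hi.1
      have h2 := hl2 _ (hV.neg _ (hr.mem i)) hi.2
      rw [map_neg] at h2
      rw [abs_lt]
      constructor <;> linarith
    · intro z hz hzJ
      refine pu_li hr hWli (J := JI W) ?_ z hz hzJ
      intro i hi
      rw [memJI] at hi
      by_contra h
      rw [not_or] at h
      exact hi h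
  -- counting
  set PP : Finset (Finset ℕ × Finset ℕ) :=
    ((Finset.range n).powersetCard (n - k) ×ˢ (Finset.range n).powerset).filter
      fun P => Cov w (Finset.range n) 0 P.1 P.2 with hPP
  have hcount : (fc V k).card * 2 ^ (n - k) ≤ PP.card := by
    have h1 : ((fc V k).sigma fun W => (JI W).powerset).card =
        (fc V k).card * 2 ^ (n - k) := by
      rw [Finset.card_sigma, Finset.sum_congr rfl fun W hW => by
        rw [Finset.card_powerset, hJcard W hW], Finset.sum_const, smul_eq_mul]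
    rw [← h1]
    refine Finset.card_le_card_of_injOn (fun x => (JI x.1, PI x.1 ∪ x.2)) ?_ ?_
    · rintro ⟨W, T⟩ hx
      have hx' := Finset.mem_sigma.1 (Finset.mem_coe.1 hx)
      simp only [Finset.mem_powerset] at hx'
      rw [Finset.mem_coe, hPP, Finset.mem_filter, Finset.mem_product, Finset.mem_powersetCard,
        Finset.mem_powerset]
      exact ⟨⟨⟨hJsub W, hJcard W hx'.1⟩, Finset.union_subset (hPsub W) (hx'.2.trans (hJsub W))⟩,
        hcov W hx'.1 T hx'.2⟩
    · rintro ⟨W, T⟩ hx ⟨W', T'⟩ hx' hxx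
      have hx1 := Finset.mem_sigma.1 (Finset.mem_coe.1 hx)
      have hx2 := Finset.mem_sigma.1 (Finset.mem_coe.1 hx')
      simp only [Finset.mem_powerset] at hx1 hx2
      simp only [Prod.mk.injEq] at hxx
      obtain ⟨hJJ, hAA⟩ := hxx
      have hT : T = T' := by
        ext i
        constructor
        · intro hi
          have hiJ := hx1.2 hi
          have h5 : i ∈ PI W' ∪ T' := by
            rw [← hAA]
            exact Finset.mem_union_right _ hi
          rcases Finset.mem_union.1 h5 with h6 | h6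
          · exact absurd (hJJ ▸ hiJ) (hdisj W' i h6)
          · exact h6
        · intro hi
          have hiJ := hx2.2 hi
          have h5 : i ∈ PI W ∪ T := by
            rw [hAA]
            exact Finset.mem_union_right _ hi
          rcases Finset.mem_union.1 h5 with h6 | h6
          · exact absurd (hJJ.symm ▸ hiJ) (hdisj W i h6)
          · exact h6
      have hPi : ∀ i : Fin n, r i ∈ W ↔ r i ∈ W' := by
        have aux : ∀ (U U' : Finset (E d)) (R R' : Finset ℕ), R' ⊆ JI U' → JI U = JI U' →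
            PI U ∪ R = PI U' ∪ R' → ∀ i : Fin n, r i ∈ U → r i ∈ U' := by
          intro U U' R R' hR' hJ' hA' i hi
          have h5 : (i : ℕ) ∈ PI U := (memPI U i).2 hi
          have h6 : (i : ℕ) ∈ PI U' ∪ R' := by
            rw [← hA']
            exact Finset.mem_union_left _ h5
          rcases Finset.mem_union.1 h6 with h7 | h7
          · exact (memPI U' i).1 h7
          · have h8 := hR' h7
            rw [← hJ'] at h8
            exact absurd h8 (hdisj U i h5)
        exact fun i => ⟨aux W W' T T' hx2.2 hJJ hAA i, aux W' W T' T hx1.2 hJJ.symm hAA.symm i⟩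
      have hWW : W = W' := by
        have aux : ∀ (U U' : Finset (E d)), U ∈ fc V k → JI U = JI U' →
            (∀ i : Fin n, r i ∈ U ↔ r i ∈ U') → U ⊆ U' := by
          intro U U' hU hJ' hii v hv
          obtain ⟨i, hi | hi⟩ := hr.surj v ((mem_fc.1 hU).1 hv)
          · rw [hi] at hv ⊢
            exact (hii i).1 hv
          · rw [hi] at hv ⊢
            have h5 : r i ∉ U := by
              intro h6
              exact noanti U hU (r i) h6 hv
            have h7 : (i : ℕ) ∉ JI U' := by
              rw [← hJ', memJI]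
              exact fun h8 => h8.2 hv
            rw [memJI] at h7
            by_contra h8
            exact h7 ⟨fun h9 => h5 ((hii i).2 h9), h8⟩
        exact Finset.Subset.antisymm (aux W W' hx1.1 hJJ hPi)
          (aux W' W hx2.1 hJJ.symm fun i => (hPi i).symm)
      subst hT
      subst hWW
      rfl
  have hfr : fr w (Finset.range n) 0 (n - k) =
      (PP.card : ℝ) / ((n.choose k : ℝ) * 2 ^ n) := by
    unfold fr pr
    rw [Finset.card_range, Nat.choose_symm hkn]
  rw [hfr]
  have hC : (0 : ℝ) < (n.choose k : ℝ) := by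
    exact_mod_cast Nat.choose_pos hkn
  have h2n : (2 : ℝ) ^ n = 2 ^ k * 2 ^ (n - k) := by
    rw [← pow_add]
    congr 1
    omega
  have h3 : ((fc V k).card : ℝ) * 2 ^ (n - k) ≤ PP.card := by
    exact_mod_cast hcount
  have h4 : (2 : ℝ) ^ k * (n.choose k : ℝ) * ((PP.card : ℝ) / ((n.choose k : ℝ) * 2 ^ n)) =
      (PP.card : ℝ) / 2 ^ (n - k) := by
    rw [h2n]
    have h5 : (2 : ℝ) ^ k ≠ 0 := by positivity
    have h6 : (2 : ℝ) ^ (n - k) ≠ 0 := by positivity
    field_simp
  rw [h4, le_div_iff₀ (by positivity)]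
  exact h3

end Pool.Agent.H.MP_4bcbbd_co.F
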