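import Mathlib

/-!
MP_4bcbbd_co, polytopes with few vertices: from pointwise to uniform convergence for monotone functions.
-/

set_option autoImplicit false

namespace Pool.Agent.H.MP_4bcbbd_co.F

open scoped Topology
open Filter

theorem polya_sub {d i : ℕ} (h : i < d) : ((d - i : ℕ) : ℝ) = (d : ℝ) - i := Nat.cast_sub h.le

theorem polya_large {δ : ℝ} (hδ : 0 < δ) : ∃ N : ℕ, 1 ≤ N ∧ ∀ d, N ≤ d → 1 / Real.sqrt d ≤ δ := by
  obtain ⟨N, hN⟩ := exists_nat_ge ((1 / δ) ^ 2)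
  refine ⟨N + 1, by omega, fun d hd => ?_⟩
  have hd0 : (0 : ℝ) < d := by
    have : 0 < d := by omega
    exact_mod_cast this
  have h1 : 1 / δ ≤ Real.sqrt d := by
    rw [← Real.sqrt_sq (by positivity : (0 : ℝ) ≤ 1 / δ)]
    refine Real.sqrt_le_sqrt (hN.trans ?_)
    exact_mod_cast (by omega : N ≤ d)
  rw [div_le_iff₀ (Real.sqrt_pos.2 hd0)]
  rw [div_le_iff₀ hδ] at h1
  linarith

/-- an index with a prescribed position. -/
theorem polya_index {μ : ℝ} (hμ : 0 < μ) {δ : ℝ} (hδ : 0 < δ) : ∃ N : ℕ, ∀ d, N ≤ d →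
    ∃ j : ℕ, j < d ∧ |((d - j : ℕ) : ℝ) / Real.sqrt d - μ| ≤ δ ∧
      (∀ i, i < d → ((d - i : ℕ) : ℝ) / Real.sqrt d ≤ μ → j ≤ i) ∧
      ∀ i, i < d → μ ≤ ((d - i : ℕ) : ℝ) / Real.sqrt d → i ≤ j := by
  obtain ⟨N₁, hN₁, h1⟩ := polya_large hδ
  obtain ⟨N₂, hN₂, h2⟩ := polya_large (δ := 1 / (μ + 1)) (by positivity)
  refine ⟨max N₁ N₂, fun d hd => ?_⟩
  have hdpos : 0 < d := by
    have := le_max_left N₁ N₂
    omega
  have hd0 : (0 : ℝ) < d := by exact_mod_cast hdpos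
  have hs : 0 < Real.sqrt d := Real.sqrt_pos.2 hd0
  have hss : Real.sqrt d * Real.sqrt d = d := Real.mul_self_sqrt hd0.le
  have e1 := h1 d ((le_max_left _ _).trans hd)
  have e2 := h2 d ((le_max_right _ _).trans hd)
  have e3 : μ + 1 ≤ Real.sqrt d := by
    rw [div_le_div_iff₀ hs (by positivity)] at e2
    linarith
  obtain ⟨q, hq⟩ : ∃ q : ℕ, q = ⌈μ * Real.sqrt d⌉₊ := ⟨_, rfl⟩
  have hq1 : μ * Real.sqrt d ≤ q := by rw [hq]; exact Nat.le_ceil _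
  have hq2 : (q : ℝ) < μ * Real.sqrt d + 1 := by
    rw [hq]
    exact Nat.ceil_lt_add_one (by positivity)
  have hq0 : 0 < q := by
    rw [hq]
    exact Nat.ceil_pos.2 (by positivity)
  have hqd : q ≤ d := by
    have h3 : (q : ℝ) ≤ d := by
      have h4 : μ * Real.sqrt d + 1 ≤ (μ + 1) * Real.sqrt d := by
        have : 1 ≤ Real.sqrt d := by linarith
        nlinarith
      have h5 : (μ + 1) * Real.sqrt d ≤ Real.sqrt d * Real.sqrt d :=
        mul_le_mul_of_nonneg_right e3 hs.le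
      linarith
    exact_mod_cast h3
  refine ⟨d - q, by omega, ?_, ?_, ?_⟩
  · have h3 : d - (d - q) = q := by omega
    rw [h3, abs_le]
    constructor
    · have : μ ≤ (q : ℝ) / Real.sqrt d := by rw [le_div_iff₀ hs]; exact hq1
      linarith
    · have h4 : (q : ℝ) / Real.sqrt d ≤ μ + 1 / Real.sqrt d := by
        rw [div_le_iff₀ hs, add_mul, one_div, inv_mul_cancel₀ hs.ne']
        exact hq2.le
      linarith
  · intro i hi h
    rw [div_le_iff₀ hs] at h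
    have h3 : ((d - i : ℕ) : ℝ) ≤ q := h.trans hq1
    have h4 : d - i ≤ q := by exact_mod_cast h3
    omega
  · intro i hi h
    rw [le_div_iff₀ hs] at h
    have h3 : q ≤ d - i := by
      rw [hq]
      exact Nat.ceil_le.2 h
    omega

/-- pointwise convergence of monotone functions to a continuous limit is uniform. -/
theorem polya {r : ℕ → ℕ → ℝ} {ψ : ℝ → ℝ} (hcont : Continuous ψ) (hmono : Monotone ψ)
    (h0 : ψ 0 = 0) (h1 : Tendsto ψ atTop (𝓝 1)) (hle : ∀ x, ψ x ≤ 1)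
    (hr0 : ∀ d i, 0 ≤ r d i) (hr1 : ∀ d, 0 < d → ∀ i, r d i ≤ 1)
    (hanti : ∃ N : ℕ, ∀ d, N ≤ d → ∀ i j : ℕ, i ≤ j → j < d → r d j ≤ r d i)
    (hpt : ∀ μ : ℝ, 0 < μ → ∀ ε : ℝ, 0 < ε → ∃ (N : ℕ) (δ : ℝ), 0 < δ ∧ ∀ d i : ℕ, N ≤ d → i < d →
      |((d - i : ℕ) : ℝ) / Real.sqrt d - μ| ≤ δ → |r d i - ψ μ| ≤ ε)
    {ε : ℝ} (hε : 0 < ε) : ∃ N : ℕ, ∀ d, N ≤ d → ∀ i < d,
      |r d i - ψ (((d : ℝ) - i) / Real.sqrt d)| ≤ ε := by
  classical
  -- the two ends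
  obtain ⟨a, ha, ha2⟩ : ∃ a : ℝ, 0 < a ∧ ψ a ≤ ε / 4 := by
    have h2 : ∀ᶠ x in 𝓝 (0 : ℝ), ψ x < ε / 4 := by
      have h3 := hcont.tendsto 0
      rw [h0] at h3
      exact h3.eventually_lt_const (by positivity)
    obtain ⟨η, hη, h3⟩ := Metric.eventually_nhds_iff.1 h2
    refine ⟨η / 2, by positivity, (h3 ?_).le⟩
    rw [Real.dist_eq, sub_zero, abs_of_pos (by positivity)]
    linarith
  obtain ⟨b, hab, hb⟩ : ∃ b : ℝ, a ≤ b ∧ 1 - ε / 4 ≤ ψ b := by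
    have h2 : ∀ᶠ x in atTop, 1 - ε / 4 < ψ x := h1.eventually_const_lt (by linarith)
    obtain ⟨b, hb, hb2⟩ := (h2.and (eventually_ge_atTop a)).exists
    exact ⟨b, hb2, hb.le⟩
  have hb0 : 0 < b := lt_of_lt_of_le ha hab
  -- the compact part
  have hloc : ∀ μ : ℝ, ∃ (N : ℕ) (δ : ℝ), 0 < δ ∧ (μ ∈ Set.Icc a b → ∀ d i : ℕ, N ≤ d → i < d →
      |((d - i : ℕ) : ℝ) / Real.sqrt d - μ| < δ →
      |r d i - ψ (((d - i : ℕ) : ℝ) / Real.sqrt d)| ≤ ε) := by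
    intro μ
    by_cases hμ : μ ∈ Set.Icc a b
    · obtain ⟨N, δ, hδ, h2⟩ := hpt μ (lt_of_lt_of_le ha hμ.1) (ε / 2) (by positivity)
      have h3 : ∀ᶠ x in 𝓝 μ, |ψ x - ψ μ| < ε / 2 := by
        have h4 : Tendsto (fun x => |ψ x - ψ μ|) (𝓝 μ) (𝓝 |ψ μ - ψ μ|) :=
          ((hcont.sub continuous_const).abs).tendsto μ
        rw [sub_self, abs_zero] at h4
        exact h4.eventually_lt_const (by positivity)
      obtain ⟨η, hη, h4⟩ := Metric.eventually_nhds_iff.1 h3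
      refine ⟨N, min δ η, lt_min hδ hη, fun _ d i hd hi hx => ?_⟩
      have h5 := h2 d i hd hi (hx.le.trans (min_le_left _ _))
      have h6 := h4 (y := ((d - i : ℕ) : ℝ) / Real.sqrt d) (by
        rw [Real.dist_eq]
        exact lt_of_lt_of_le hx (min_le_right _ _))
      rw [abs_le] at h5 ⊢
      rw [abs_lt] at h6
      constructor <;> linarith [h5.1, h5.2, h6.1, h6.2]
    · exact ⟨0, 1, one_pos, fun h => absurd h hμ⟩
  choose Nf δf hδf hf using hloc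
  obtain ⟨T, hT, hT2⟩ := (isCompact_Icc (a := a) (b := b)).elim_nhds_subcover
    (fun μ => Metric.ball μ (δf μ)) (fun μ _ => Metric.ball_mem_nhds μ (hδf μ))
  obtain ⟨N₀, hN₀⟩ := hanti
  obtain ⟨N₁, δ₁, hδ₁, h2⟩ := hpt a ha (ε / 4) (by positivity)
  obtain ⟨N₂, δ₂, hδ₂, h3⟩ := hpt b hb0 (ε / 4) (by positivity)
  obtain ⟨N₃, h4⟩ := polya_index ha hδ₁
  obtain ⟨N₄, h5⟩ := polya_index hb0 hδ₂
  refine ⟨N₀ + N₁ + N₂ + N₃ + N₄ + T.sup Nf, fun d hd i hi => ?_⟩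
  have hd1 : 0 < d := by omega
  rw [← polya_sub hi]
  obtain ⟨x, hx⟩ : ∃ x : ℝ, x = ((d - i : ℕ) : ℝ) / Real.sqrt d := ⟨_, rfl⟩
  rw [← hx]
  have hψ0 : 0 ≤ ψ x := by
    rw [← h0]
    refine hmono ?_
    rw [hx]
    positivity
  rcases lt_or_ge x a with hxa | hxa
  · obtain ⟨j, hj, hj2, hj3, -⟩ := h4 d (by omega)
    have e1 := h2 d j (by omega) hj hj2
    have e2 : r d i ≤ r d j := hN₀ d (by omega) j i (hj3 i hi (by rw [← hx]; exact hxa.le)) hi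
    have e3 : ψ x ≤ ψ a := hmono hxa.le
    have e4 := hr0 d i
    rw [abs_le] at e1 ⊢
    constructor <;> linarith [e1.1, e1.2]
  rcases lt_or_ge b x with hxb | hxb
  · obtain ⟨j, hj, hj2, -, hj3⟩ := h5 d (by omega)
    have e1 := h3 d j (by omega) hj hj2
    have e2 : r d j ≤ r d i := hN₀ d (by omega) i j (hj3 i hi (by rw [← hx]; exact hxb.le)) hj
    have e3 : ψ b ≤ ψ x := hmono hxb.le
    have e4 := hr1 d hd1 i
    have e5 := hle x
    rw [abs_le] at e1 ⊢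
    constructor <;> linarith [e1.1, e1.2]
  · have h6 := hT2 (show x ∈ Set.Icc a b from ⟨hxa, hxb⟩)
    rw [Set.mem_iUnion₂] at h6
    obtain ⟨μ, hμT, hμ⟩ := h6
    rw [Metric.mem_ball, Real.dist_eq] at hμ
    have h7 : Nf μ ≤ T.sup Nf := Finset.le_sup hμT
    have h8 := hf μ (hT μ hμT) d i (by omega) hi (by rw [← hx]; exact hμ)
    rw [← hx] at h8
    exact h8

end Pool.Agent.H.MP_4bcbbd_co.F
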