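import Pool.Agent.H.MP_4bcbbd_co.h39f.UpperFr
import Pool.Agent.H.MP_4bcbbd_co.h39f.PolyUpper
import Pool.Agent.H.MP_4bcbbd_co.h39f.Gale
import Pool.Agent.H.MP_4bcbbd_co.h39f.PolyLower
import Pool.Agent.H.MP_4bcbbd_co.h39f.Mono
import Pool.Agent.H.MP_4bcbbd_co.h39f.Polya

/-!
MP_4bcbbd_co, polytopes with few vertices: the theorem.
-/

set_option autoImplicit false

namespace Pool.Agent.H.MP_4bcbbd_co.F

open scoped BigOperators RealInnerProductSpace Topology
open Filter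

/-- the normalised maximum. -/
noncomputable def ratio (c d i : ℕ) : ℝ :=
  (maxFaces i d (d + c) : ℝ) / (2 ^ (i + 1) * ((d + c).choose (i + 1) : ℝ))

/-- the position of the complement. -/
theorem fin_pos (c : ℕ) {μ δ : ℝ} (hμ : 0 < μ) (hδ : 0 < δ) : ∃ (N : ℕ) (δ' : ℝ), 0 < δ' ∧
    ∀ d i : ℕ, N ≤ d → i < d → |((d - i : ℕ) : ℝ) / Real.sqrt d - μ| ≤ δ' →
      |((d + c - (i + 1) : ℕ) : ℝ) / Real.sqrt ((d + c : ℕ) : ℝ) - μ| ≤ δ := by
  obtain ⟨N, hN1, hN⟩ := polya_large (δ := δ / 2 / ((μ + 3) * (c + 1))) (by positivity)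
  refine ⟨N, min (δ / 2) 1, lt_min (by positivity) one_pos, fun d i hd hi h => ?_⟩
  have hd0 : 0 < d := by omega
  have hdR : (1 : ℝ) ≤ d := by exact_mod_cast hd0
  have h1 : |((d - i : ℕ) : ℝ) / Real.sqrt d - μ| ≤ δ / 2 := h.trans (min_le_left _ _)
  have h2 : |((d - i : ℕ) : ℝ) / Real.sqrt d - μ| ≤ 1 := h.trans (min_le_right _ _)
  have hs : 0 < Real.sqrt d := Real.sqrt_pos.2 (by linarith)
  have hss : Real.sqrt d * Real.sqrt d = d := Real.mul_self_sqrt (by linarith)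
  have hc0 : (0 : ℝ) ≤ c := Nat.cast_nonneg c
  have ht : 0 < Real.sqrt ((d + c : ℕ) : ℝ) := Real.sqrt_pos.2 (by push_cast; linarith)
  have htt : Real.sqrt ((d + c : ℕ) : ℝ) * Real.sqrt ((d + c : ℕ) : ℝ) = d + c := by
    rw [Real.mul_self_sqrt (by positivity)]
    push_cast
    rfl
  have hst : Real.sqrt d ≤ Real.sqrt ((d + c : ℕ) : ℝ) :=
    Real.sqrt_le_sqrt (by push_cast; linarith)
  have hs1 : 1 ≤ Real.sqrt d := Real.one_le_sqrt.2 hdR
  obtain ⟨s, hs'⟩ : ∃ s : ℝ, s = Real.sqrt d := ⟨_, rfl⟩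
  obtain ⟨t, ht'⟩ : ∃ t : ℝ, t = Real.sqrt ((d + c : ℕ) : ℝ) := ⟨_, rfl⟩
  obtain ⟨q, hq'⟩ : ∃ q : ℝ, q = ((d - i : ℕ) : ℝ) := ⟨_, rfl⟩
  have hq0 : 0 ≤ q := by rw [hq']; positivity
  have hm : ((d + c - (i + 1) : ℕ) : ℝ) = q + (c - 1) := by
    rw [hq', polya_sub hi, Nat.cast_sub (by omega)]
    push_cast
    ring
  have hN' := hN d hd
  rw [hm, ← ht']
  rw [← hs', ← hq'] at h1 h2
  rw [← hs'] at hs hss hst hs1 hN'
  rw [← ht'] at ht htt hst
  have hq1 : q ≤ (μ + 1) * s := by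
    have h3 : q / s ≤ μ + 1 := by
      have := (abs_le.1 h2).2
      linarith
    rwa [div_le_iff₀ hs] at h3
  -- `t - s ≤ c / s`
  have h4 : t - s ≤ c / s := by
    rw [le_div_iff₀ hs]
    have h5 : (t - s) * (t + s) = c := by
      have : (t - s) * (t + s) = t * t - s * s := by ring
      rw [this, htt, hss]
      ring
    have h6 : (t - s) * s ≤ (t - s) * (t + s) :=
      mul_le_mul_of_nonneg_left (by linarith) (by linarith)
    linarith
  have h7 : |(q + (c - 1)) / t - q / s| ≤ (μ + 3) * (c + 1) / s := by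
    have e1 : (q + (c - 1)) / t - q / s = (c - 1) / t - q * (t - s) / (s * t) := by
      field_simp
      ring
    rw [e1]
    have e2 : |((c : ℝ) - 1) / t| ≤ (c + 1) / s := by
      rw [abs_div, abs_of_pos ht]
      have h8 : |(c : ℝ) - 1| ≤ c + 1 := by
        rw [abs_le]
        constructor <;> linarith
      calc |(c : ℝ) - 1| / t ≤ (c + 1) / t := div_le_div_of_nonneg_right h8 ht.le
        _ ≤ (c + 1) / s := div_le_div_of_nonneg_left (by positivity) hs hst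
    have e3 : |q * (t - s) / (s * t)| ≤ (μ + 1) * c / s := by
      have h9 : 0 ≤ t - s := by linarith
      rw [abs_of_nonneg (by positivity)]
      rw [div_le_div_iff₀ (by positivity) hs]
      have h10 : q * (t - s) ≤ (μ + 1) * s * (c / s) :=
        mul_le_mul hq1 h4 h9 (by positivity)
      have h11 : (μ + 1) * s * (c / s) = (μ + 1) * c := by
        field_simp
      rw [h11] at h10
      have h12 : (0 : ℝ) ≤ (μ + 1) * c := by positivity
      calc q * (t - s) * s ≤ (μ + 1) * c * s := mul_le_mul_of_nonneg_right h10 hs.le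
        _ ≤ (μ + 1) * c * (s * t) := by
          refine mul_le_mul_of_nonneg_left ?_ h12
          have : 1 ≤ t := by linarith
          nlinarith
    calc |((c : ℝ) - 1) / t - q * (t - s) / (s * t)| ≤
        |((c : ℝ) - 1) / t| + |q * (t - s) / (s * t)| := abs_sub _ _
      _ ≤ (c + 1) / s + (μ + 1) * c / s := add_le_add e2 e3
      _ = (c + 1 + (μ + 1) * c) / s := by rw [← add_div]
      _ ≤ (μ + 3) * (c + 1) / s := by
        refine div_le_div_of_nonneg_right ?_ hs.le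
        nlinarith
  have h8 : (μ + 3) * (c + 1) / s ≤ δ / 2 := by
    rw [le_div_iff₀ (by positivity)] at hN'
    calc (μ + 3) * (c + 1) / s = 1 / s * ((μ + 3) * (c + 1)) := by ring
      _ ≤ δ / 2 := hN'
  calc |(q + (c - 1)) / t - μ| = |((q + (c - 1)) / t - q / s) + (q / s - μ)| := by ring_nf
    _ ≤ |(q + (c - 1)) / t - q / s| + |q / s - μ| := abs_add_le _ _
    _ ≤ δ := by linarith

theorem fin_empty {d : ℕ} (hd : 0 < d) (i n : ℕ)
    (h : ¬ ∃ V : Finset (E d), CSData V ∧ Simp V ∧ V.card = 2 * n) : maxFaces i d n = 0 := by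
  rw [C.maxFaces_eq_sSup hd]
  have h1 : C.maxSet i d n = ∅ := by
    ext m
    simp only [Set.mem_empty_iff_false, iff_false]
    rintro ⟨V, h1, h2, h3, -⟩
    exact h ⟨V, h1, h2, h3⟩
  rw [h1]
  simp

theorem ratio_nonneg (c d i : ℕ) : 0 ≤ ratio c d i := by
  unfold ratio
  positivity

theorem fin_ratio_le {c d i : ℕ} (hd : 0 < d) (hi : i < d) {b : ℝ} (hb : 0 ≤ b)
    (h : ∀ w : ℕ → E c, fr w (Finset.range (d + c)) 0 (d + c - (i + 1)) ≤ b) :
    ratio c d i ≤ b := by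
  by_cases hex : ∃ V : Finset (E d), CSData V ∧ Simp V ∧ V.card = 2 * (d + c)
  · obtain ⟨V, hV, hS, hcard, hmax⟩ := C.maxFaces_attained hd i hex
    obtain ⟨w, hw⟩ := polyUpper (c := c) (k := i + 1) rfl (by omega) (by omega) hV hS hcard
    unfold ratio
    have hC : (0 : ℝ) < ((d + c).choose (i + 1) : ℝ) := by
      exact_mod_cast Nat.choose_pos (by omega)
    have hD : (0 : ℝ) < 2 ^ (i + 1) * ((d + c).choose (i + 1) : ℝ) := by positivity
    rw [div_le_iff₀ hD, hmax]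
    calc ((fc V (i + 1)).card : ℝ) ≤ 2 ^ (i + 1) * ((d + c).choose (i + 1) : ℝ) *
          fr w (Finset.range (d + c)) 0 (d + c - (i + 1)) := hw
      _ ≤ 2 ^ (i + 1) * ((d + c).choose (i + 1) : ℝ) * b :=
        mul_le_mul_of_nonneg_left (h w) hD.le
      _ = b * (2 ^ (i + 1) * ((d + c).choose (i + 1) : ℝ)) := mul_comm _ _
  · unfold ratio
    rw [fin_empty hd i (d + c) hex]
    simpa using hb

/-- PROOF: `maxFaces_attained`, `polyUpper`, `upperFr`. (`i + 1 + m = d + c`.) -/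
theorem ratio_upper {c : ℕ} (hc : 1 ≤ c) {μ ε : ℝ} (hμ : 0 < μ) (hε : 0 < ε) :
    ∃ (N : ℕ) (δ : ℝ), 0 < δ ∧ ∀ d i : ℕ, N ≤ d → i < d →
      |((d - i : ℕ) : ℝ) / Real.sqrt d - μ| ≤ δ → ratio c d i ≤ psi c μ + ε := by
  obtain ⟨N₁, δ₁, hδ₁, h1⟩ := upperFr hc hμ hε
  obtain ⟨N₂, δ₂, hδ₂, h2⟩ := fin_pos c hμ hδ₁
  refine ⟨N₁ + N₂ + 1, δ₂, hδ₂, fun d i hd hi h => ?_⟩
  refine fin_ratio_le (by omega) hi (add_nonneg (psi_nonneg c μ) hε.le) fun w => ?_
  refine h1 w _ 0 _ ?_ ?_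
  · rw [Finset.card_range]
    omega
  · rw [Finset.card_range]
    exact h2 d i (by omega) hi h

open Classical in
/-- the faces of a family with many robust covers. -/
theorem fin_poly {c d i : ℕ} (hd : 2 ≤ d) (hi : i < d) {w : ℕ → E c} {τ : ℝ}
    (hτ : 0 < τ) (hτ1 : τ < 1)
    (hv : ∀ j ∈ Finset.range (d + c),
      RCov (1 / 2) w (Finset.range (d + c)) ((Finset.range (d + c)).erase j) {j}) :
    ∃ V : Finset (E d), CSData V ∧ Simp V ∧ V.card = 2 * (d + c) ∧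
      pr (Finset.range (d + c)) (d + c - (i + 1)) (RCov τ w (Finset.range (d + c))) *
        (2 ^ (i + 1) * ((d + c).choose (i + 1) : ℝ)) ≤ ((fc V (i + 1)).card : ℝ) := by
  obtain ⟨n, hn⟩ : ∃ n : ℕ, n = d + c := ⟨_, rfl⟩
  rw [← hn] at hv ⊢
  have hspan : ∀ u : E c, u ≠ 0 → ∃ j ∈ Finset.range n, ⟪u, w j⟫ ≠ 0 := by
    intro u hu
    by_contra hcon
    push Not at hcon
    have h1 := (hv 0 (Finset.mem_range.2 (by omega)) u).2 hu
    have h2 : ∑ j ∈ (Finset.range n).erase 0, |⟪u, w j⟫| = 0 := by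
      refine Finset.sum_eq_zero fun j hj => ?_
      rw [hcon j (Finset.mem_of_mem_erase hj), abs_zero]
    rw [h2] at h1
    exact lt_irrefl 0 h1
  obtain ⟨x, hx1, hx2⟩ := gale hn w hspan
  -- the certified faces
  obtain ⟨Q, hQ⟩ : ∃ Q : Finset (Finset ℕ × Finset ℕ), Q =
      ((Finset.range n).powersetCard (n - (i + 1)) ×ˢ (Finset.range n).powerset).filter
        fun P => RCov τ w (Finset.range n) P.1 P.2 := ⟨_, rfl⟩
  obtain ⟨F, hF⟩ : ∃ F : Finset ℕ × Finset ℕ → Finset (Fin n) × Finset (Fin n), F = fun P : Finset ℕ × Finset ℕ =>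
      ((Finset.univ : Finset (Fin n)).filter fun j : Fin n => (j : ℕ) ∉ P.1,
        (Finset.univ : Finset (Fin n)).filter fun j : Fin n => (j : ℕ) ∈ P.2 ∧ (j : ℕ) ∉ P.1) :=
    ⟨_, rfl⟩
  have hS : ∀ P j, j ∈ (F P).1 ↔ (j : ℕ) ∉ P.1 := by
    intro P j
    rw [hF]
    simp
  have hA : ∀ P j, j ∈ (F P).2 ↔ (j : ℕ) ∈ P.2 ∧ (j : ℕ) ∉ P.1 := by
    intro P j
    rw [hF]
    simp
  have hcardS : ∀ P ∈ Q, (F P).1.card = i + 1 := by
    intro P hP
    rw [hQ, Finset.mem_filter, Finset.mem_product, Finset.mem_powersetCard] at hP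
    have h1 : ((F P).1.image fun j : Fin n => (j : ℕ)) = Finset.range n \ P.1 := by
      ext j
      simp only [Finset.mem_image, hS, Finset.mem_sdiff, Finset.mem_range]
      constructor
      · rintro ⟨k, hk, rfl⟩
        exact ⟨k.2, hk⟩
      · rintro ⟨h2, h3⟩
        exact ⟨⟨j, h2⟩, h3, rfl⟩
    have h2 := congrArg Finset.card h1
    rw [Finset.card_image_of_injective _ Fin.val_injective,
      Finset.card_sdiff_of_subset hP.1.1.1, Finset.card_range, hP.1.1.2] at h2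
    rw [h2]
    omega
  have hface : ∀ P ∈ Q, X.Face x (F P).1 (F P).2 ∧
      LinearIndependent ℝ (fun j : (F P).1 => x j) := by
    intro P hP
    rw [hQ, Finset.mem_filter, Finset.mem_product, Finset.mem_powersetCard] at hP
    refine face_of_rcov hx1 hx2 hτ hτ1.le hP.1.1.1 hP.2 _ _ (hS P) fun j => ?_
    rw [hA, hS]
  have hvert : ∀ j : Fin n, X.Face x {j} {j} ∧ x j ≠ 0 := by
    intro j
    have h1 := face_of_rcov (τ := 1 / 2) hx1 hx2 (by norm_num) (by norm_num)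
      (Finset.erase_subset _ _) (hv j (Finset.mem_range.2 j.2)) {j} {j} (fun k => by
        rw [Finset.mem_singleton, Finset.mem_erase, Finset.mem_range]
        constructor
        · rintro rfl h
          exact h.1 rfl
        · intro h
          by_contra hkj
          exact h ⟨fun h2 => hkj (Fin.ext h2), k.2⟩) (fun k => by
        rw [Finset.mem_singleton, Finset.mem_singleton]
        constructor
        · rintro rfl
          exact ⟨rfl, rfl⟩
        · exact fun h => h.2)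
    refine ⟨h1.1, ?_⟩
    exact h1.2.ne_zero (⟨j, Finset.mem_singleton_self j⟩ : ({j} : Finset (Fin n)))
  obtain ⟨V, hV, hSi, hcard, hP⟩ := polyLower (k := i + 1) hd (by omega : d ≤ n) hvert (Q.image F)
    (by
      intro q hq
      rw [Finset.mem_image] at hq
      obtain ⟨P, hP, rfl⟩ := hq
      refine ⟨hcardS P hP, fun j hj => ?_, (hface P hP).1, (hface P hP).2⟩
      rw [hS]
      exact ((hA P j).1 hj).2)
  refine ⟨V, hV, hSi, hcard, ?_⟩
  -- the fibres of `F`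
  have hfib : Q.card ≤ 2 ^ (n - (i + 1)) * (Q.image F).card := by
    refine Finset.card_le_mul_card_image Q _ fun q hq => ?_
    rw [Finset.mem_image] at hq
    obtain ⟨P₀, hP₀, rfl⟩ := hq
    have hP₀' := hP₀
    rw [hQ, Finset.mem_filter, Finset.mem_product, Finset.mem_powersetCard] at hP₀'
    have h1 : (P₀.1.powerset).card = 2 ^ (n - (i + 1)) := by
      rw [Finset.card_powerset, hP₀'.1.1.2]
    rw [← h1]
    refine Finset.card_le_card_of_injOn (fun P => P.2 ∩ P₀.1) ?_ ?_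
    · intro P _
      exact Finset.mem_coe.2 (Finset.mem_powerset.2 Finset.inter_subset_right)
    · intro P hP P' hP' h
      rw [Finset.mem_coe, Finset.mem_filter] at hP hP'
      have hPQ := hP.1
      have hPQ' := hP'.1
      rw [hQ, Finset.mem_filter, Finset.mem_product, Finset.mem_powersetCard,
        Finset.mem_powerset] at hPQ hPQ'
      have hJ : ∀ P : Finset ℕ × Finset ℕ, P ∈ Q → F P = F P₀ → P.1 = P₀.1 ∧
          ∀ j, j ∉ P₀.1 → j < n → (j ∈ P.2 ↔ j ∈ P₀.2) := by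
        intro P hPQ h
        rw [hQ, Finset.mem_filter, Finset.mem_product, Finset.mem_powersetCard,
          Finset.mem_powerset] at hPQ
        have h2 : ∀ j, j < n → (j ∉ P.1 ↔ j ∉ P₀.1) := by
          intro j hj
          rw [← hS P ⟨j, hj⟩, ← hS P₀ ⟨j, hj⟩, h]
        have h3 : P.1 = P₀.1 := by
          ext j
          constructor
          · intro hj
            by_contra hcon
            exact (h2 j (Finset.mem_range.1 (hPQ.1.1.1 hj))).2 hcon hj
          · intro hj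
            by_contra hcon
            exact (h2 j (Finset.mem_range.1 (hP₀'.1.1.1 hj))).1 hcon hj
        refine ⟨h3, fun j hj hjn => ?_⟩
        have h4 : (⟨j, hjn⟩ : Fin n) ∈ (F P).2 ↔ (⟨j, hjn⟩ : Fin n) ∈ (F P₀).2 := by rw [h]
        rw [hA, hA, h3] at h4
        exact ⟨fun h5 => (h4.1 ⟨h5, hj⟩).1, fun h5 => (h4.2 ⟨h5, hj⟩).1⟩
      obtain ⟨a1, a2⟩ := hJ P hP.1 hP.2
      obtain ⟨b1, b2⟩ := hJ P' hP'.1 hP'.2
      refine Prod.ext (a1.trans b1.symm) ?_
      ext j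
      by_cases hj : j ∈ P₀.1
      · have h5 : j ∈ P.2 ∩ P₀.1 ↔ j ∈ P'.2 ∩ P₀.1 := by
          have : P.2 ∩ P₀.1 = P'.2 ∩ P₀.1 := h
          rw [this]
        rw [Finset.mem_inter, Finset.mem_inter] at h5
        exact ⟨fun h6 => (h5.1 ⟨h6, hj⟩).1, fun h6 => (h5.2 ⟨h6, hj⟩).1⟩
      · constructor
        · intro h6
          have hjn := Finset.mem_range.1 (hPQ.1.2 h6)
          exact (b2 j hj hjn).2 ((a2 j hj hjn).1 h6)
        · intro h6
          have hjn := Finset.mem_range.1 (hPQ'.1.2 h6)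
          exact (a2 j hj hjn).2 ((b2 j hj hjn).1 h6)
  have hk : i + 1 ≤ n := by omega
  rw [avg_pr, ← hQ, Finset.card_range, Nat.choose_symm hk]
  have hC : (0 : ℝ) < (n.choose (i + 1) : ℝ) := by exact_mod_cast Nat.choose_pos hk
  have hpow : (2 : ℝ) ^ n = 2 ^ (i + 1) * 2 ^ (n - (i + 1)) := by
    rw [← pow_add]
    congr 1
    omega
  have h1 : (Q.card : ℝ) ≤ 2 ^ (n - (i + 1)) * ((Q.image F).card : ℝ) := by exact_mod_cast hfib
  have h2 : ((Q.image F).card : ℝ) ≤ ((fc V (i + 1)).card : ℝ) := by exact_mod_cast hP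
  have h3 : (Q.card : ℝ) / ((n.choose (i + 1) : ℝ) * 2 ^ n) *
      (2 ^ (i + 1) * (n.choose (i + 1) : ℝ)) = Q.card / 2 ^ (n - (i + 1)) := by
    rw [hpow]
    field_simp
  rw [h3, div_le_iff₀ (by positivity)]
  calc (Q.card : ℝ) ≤ 2 ^ (n - (i + 1)) * ((Q.image F).card : ℝ) := h1
    _ ≤ 2 ^ (n - (i + 1)) * ((fc V (i + 1)).card : ℝ) :=
      mul_le_mul_of_nonneg_left h2 (by positivity)
    _ = ((fc V (i + 1)).card : ℝ) * 2 ^ (n - (i + 1)) := mul_comm _ _

/-- PROOF: `lowerFr`, `gale`, `face_of_rcov`, `polyLower`, `fc_le_maxFaces`. -/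
theorem ratio_lower {c : ℕ} (hc : 1 ≤ c) {μ ε : ℝ} (hμ : 0 < μ) (hε : 0 < ε) :
    ∃ (N : ℕ) (δ : ℝ), 0 < δ ∧ ∀ d i : ℕ, N ≤ d → i < d →
      |((d - i : ℕ) : ℝ) / Real.sqrt d - μ| ≤ δ → psi c μ - ε ≤ ratio c d i := by
  obtain ⟨N₁, δ₁, τ, hδ₁, hτ, hτ1, h1⟩ := lowerFr hc hμ hε
  obtain ⟨N₂, δ₂, hδ₂, h2⟩ := fin_pos c hμ hδ₁
  refine ⟨N₁ + N₂ + 2, δ₂, hδ₂, fun d i hd hi h => ?_⟩
  obtain ⟨w, hw1, hw2⟩ := h1 (d + c) (d + c - (i + 1)) (by omega) (h2 d i (by omega) hi h)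
  obtain ⟨V, hV, hS, hcard, hV2⟩ := fin_poly (i := i) (by omega : 2 ≤ d) hi hτ hτ1 hw1
  have hmax := C.fc_le_maxFaces (i := i) (by omega : 0 < d) hV hS hcard
  refine hw2.trans ?_
  unfold ratio
  have hC : (0 : ℝ) < ((d + c).choose (i + 1) : ℝ) := by
    exact_mod_cast Nat.choose_pos (by omega)
  rw [le_div_iff₀ (by positivity)]
  refine hV2.trans ?_
  exact_mod_cast hmax

theorem ratio_le_one {c d i : ℕ} (hd : 0 < d) (hi : i < d) : ratio c d i ≤ 1 :=
  fin_ratio_le hd hi zero_le_one fun _ => pr_le_one _ _ _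

/-- PROOF: `maxFaces_mono` (the polytopes exist for large `d`, by `lowerFr` and `fin_poly`). -/
theorem ratio_anti {c : ℕ} (hc : 1 ≤ c) : ∃ N : ℕ, ∀ d, N ≤ d → ∀ i j : ℕ, i ≤ j → j < d →
    ratio c d j ≤ ratio c d i := by
  obtain ⟨N₁, δ₁, τ, hδ₁, hτ, hτ1, h1⟩ := lowerFr hc one_pos one_pos
  obtain ⟨N₂, δ₂, hδ₂, h2⟩ := fin_pos c one_pos hδ₁
  obtain ⟨N₃, h3⟩ := polya_index one_pos hδ₂
  refine ⟨N₁ + N₂ + N₃ + 2, fun d hd i j hij hj => ?_⟩
  obtain ⟨i₀, hi₀, hi₀2, -, -⟩ := h3 d (by omega)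
  obtain ⟨w, hw1, -⟩ := h1 (d + c) (d + c - (i₀ + 1)) (by omega) (h2 d i₀ (by omega) hi₀ hi₀2)
  obtain ⟨V, hV, hS, hcard, -⟩ := fin_poly (i := i₀) (by omega : 2 ≤ d) hi₀ hτ hτ1 hw1
  have hex : ∃ V : Finset (E d), CSData V ∧ Simp V ∧ V.card = 2 * (d + c) := ⟨V, hV, hS, hcard⟩
  induction j, hij using Nat.le_induction with
  | base => exact le_rfl
  | succ j hij ih =>
    refine le_trans ?_ (ih (by omega))
    exact maxFaces_mono (by omega) (by omega) hex

/-- The theorem. PROOF: `ratio_upper`, `ratio_lower`, `ratio_anti`, `polya`. -/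
theorem main {c : ℕ} (hc : 1 ≤ c) {ε : ℝ} (hε : 0 < ε) : ∃ N : ℕ, ∀ d, N ≤ d → ∀ i < d,
    |ratio c d i - psi c (((d : ℝ) - i) / Real.sqrt d)| ≤ ε := by
  obtain ⟨N, hN⟩ := polya (r := fun d i => if i < d then ratio c d i else 0) (ψ := psi c)
    (psi_cont hc) (psi_mono hc) (psi_zero hc) (psi_tendsto hc) (psi_le_one c)
    (fun d i => by
      show 0 ≤ if i < d then ratio c d i else 0
      split
      · exact ratio_nonneg c d i
      · exact le_rfl)
    (fun d hd i => by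
      show (if i < d then ratio c d i else 0) ≤ 1
      split
      · rename_i h
        exact ratio_le_one hd h
      · exact zero_le_one)
    (by
      obtain ⟨N, hN⟩ := ratio_anti hc
      refine ⟨N, fun d hd i j hij hj => ?_⟩
      show (if j < d then ratio c d j else 0) ≤ if i < d then ratio c d i else 0
      rw [if_pos hj, if_pos (lt_of_le_of_lt hij hj)]
      exact hN d hd i j hij hj)
    (by
      intro μ hμ ε hε
      obtain ⟨N₁, δ₁, hδ₁, h1⟩ := ratio_upper hc hμ hε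
      obtain ⟨N₂, δ₂, hδ₂, h2⟩ := ratio_lower hc hμ hε
      refine ⟨N₁ + N₂, min δ₁ δ₂, lt_min hδ₁ hδ₂, fun d i hd hi h => ?_⟩
      show |(if i < d then ratio c d i else 0) - psi c μ| ≤ ε
      rw [if_pos hi, abs_le]
      have e1 := h1 d i (by omega) hi (h.trans (min_le_left _ _))
      have e2 := h2 d i (by omega) hi (h.trans (min_le_right _ _))
      constructor <;> linarith)
    hε
  refine ⟨N, fun d hd i hi => ?_⟩
  have h := hN d hd i hi
  rwa [if_pos hi] at h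

end Pool.Agent.H.MP_4bcbbd_co.F
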