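import Pool.Agent.H.MP_4bcbbd_co.h39f.Defs
import Pool.Agent.H.MP_4bcbbd_co.h30.GauPolar
import Pool.Agent.H.MP_d7d3dc_an.h17.GB

/-!
MP_4bcbbd_co, polytopes with few vertices: the standard Gaussian measure.
-/

set_option autoImplicit false

namespace Pool.Agent.H.MP_4bcbbd_co.F

open scoped BigOperators RealInnerProductSpace Topology
open MeasureTheory Filter

theorem dens_nonneg {c : ℕ} (x : E c) : 0 ≤ dens c x := by
  rw [dens_eq]
  exact D546neg.dens_nonneg x

theorem gau_dens_pos {c : ℕ} (x : E c) : 0 < dens c x := by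
  unfold dens
  positivity

theorem gau_dens_fun (c : ℕ) : dens c = D546neg.dens c := funext (dens_eq c)

theorem dens_continuous (c : ℕ) : Continuous (dens c) := by
  rw [gau_dens_fun]
  exact D546neg.dens_continuous

/-- PROOF: `GaussianFourier.integrable_cexp_neg_mul_sq_norm_add` or the real version. -/
theorem integrable_dens (c : ℕ) : Integrable (dens c) := by
  rw [gau_dens_fun]
  exact D546neg.integrable_dens

theorem integral_dens (c : ℕ) : ∫ x, dens c x = 1 := by
  rw [gau_dens_fun]
  exact D546neg.integral_dens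

instance isProb_gam (c : ℕ) : IsProbabilityMeasure (gam c) := by
  rw [gam_eq]
  infer_instance

theorem integral_gam {c : ℕ} (f : E c → ℝ) : ∫ x, f x ∂(gam c) = ∫ x, f x * dens c x := by
  rw [gam, integral_withDensity_eq_integral_toReal_smul
    (f := fun x => ENNReal.ofReal (dens c x))
    (ENNReal.measurable_ofReal.comp (dens_continuous c).measurable)
    (Eventually.of_forall fun x => ENNReal.ofReal_lt_top)]
  refine integral_congr_ae (Eventually.of_forall fun x => ?_)
  simp only [smul_eq_mul]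
  rw [ENNReal.toReal_ofReal (dens_nonneg x), mul_comm]

theorem integrable_gam {c : ℕ} {f : E c → ℝ} :
    Integrable f (gam c) ↔ Integrable fun x => f x * dens c x := by
  rw [gam, integrable_withDensity_iff_integrable_smul'
    (f := fun x => ENNReal.ofReal (dens c x))
    (ENNReal.measurable_ofReal.comp (dens_continuous c).measurable)
    (Eventually.of_forall fun x => ENNReal.ofReal_lt_top)]
  refine integrable_congr (Eventually.of_forall fun x => ?_)
  simp only [smul_eq_mul]
  rw [ENNReal.toReal_ofReal (dens_nonneg x), mul_comm]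

/-- PROOF: `GaussianFourier.integral_cexp_neg_mul_sq_norm_add`. -/
theorem charFun_gam {c : ℕ} (t : E c) :
    charFun (gam c) t = Complex.exp (-((‖t‖ ^ 2 / 2 : ℝ) : ℂ)) := by
  rw [gam_eq, ProbabilityTheory.charFun_stdGaussian]
  congr 1
  push_cast
  ring

theorem gam_map {c : ℕ} (g : E c ≃ₗᵢ[ℝ] E c) : (gam c).map g = gam c := by
  rw [gam_eq]
  exact ProbabilityTheory.stdGaussian_map g

/-- rotation invariance. PROOF: `LinearIsometryEquiv.measurePreserving` and `dens c (g x) = dens c x`. -/
theorem gam_image {c : ℕ} (g : E c ≃ₗᵢ[ℝ] E c) (S : Set (E c)) : gam c (g '' S) = gam c S := by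
  have h : (gam c).map g (g '' S) = gam c S := by
    rw [show (⇑g : E c → E c) = ⇑(g.toHomeomorph.toMeasurableEquiv) from rfl,
      MeasurableEquiv.map_apply, Set.preimage_image_eq]
    exact g.injective
  rw [← h, gam_map]

theorem integrable_norm_gam (c : ℕ) : Integrable (fun x : E c => ‖x‖) (gam c) := by
  rw [gam_eq]
  exact D7u.gb_integrable_norm

theorem integrable_norm_sq_gam (c : ℕ) : Integrable (fun x : E c => ‖x‖ ^ 2) (gam c) := by
  rw [gam_eq]
  exact D7u.gb_integrable_norm_sq

/-- PROOF: by rotation invariance `w = ‖w‖ e₀`; or: charFun of the image under `⟪·, w⟫` is that of `gaussianReal 0 (‖w‖ ^ 2)`. -/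
theorem int_abs_inner {c : ℕ} (w : E c) :
    ∫ u, |⟪u, w⟫| ∂(gam c) = Real.sqrt (2 / Real.pi) * ‖w‖ := by
  rw [gam_eq, mul_comm, ← D7u.gb_int_abs w]
  simp_rw [real_inner_comm]

theorem int_inner_sq {c : ℕ} (w : E c) : ∫ u, ⟪u, w⟫ ^ 2 ∂(gam c) = ‖w‖ ^ 2 := by
  rw [gam_eq, ← D7u.gb_int_sq w]
  simp_rw [real_inner_comm]

/-- PROOF: sum of `int_inner_sq` over an orthonormal basis. -/
theorem int_norm_sq (c : ℕ) : ∫ u : E c, ‖u‖ ^ 2 ∂(gam c) = c := by
  rw [gam_eq]
  exact D7u.gb_int_norm_sq

theorem int_norm_pos {c : ℕ} (hc : 1 ≤ c) : 0 < ∫ u : E c, ‖u‖ ∂(gam c) := by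
  rw [gam_eq]
  have hc' : (0 : ℝ) < c := by exact_mod_cast hc
  exact (Real.sqrt_pos.2 (by positivity)).trans_le D7u.le_int_norm

theorem kap_pos {c : ℕ} (hc : 1 ≤ c) : 0 < kap c := by
  have hc' : (0 : ℝ) < c := by exact_mod_cast hc
  have h1 := Real.Gamma_pos_of_pos (s := (c : ℝ) / 2) (by positivity)
  have h2 := Real.Gamma_pos_of_pos (s := ((c : ℝ) + 1) / 2) (by positivity)
  have h3 := Real.sqrt_pos.2 Real.pi_pos
  unfold kap
  positivity

theorem rho_pos {c : ℕ} (hc : 1 ≤ c) : 0 < rho c := by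
  have hc' : (0 : ℝ) < c := by exact_mod_cast hc
  exact mul_pos (Real.sqrt_pos.2 hc') (kap_pos hc)

theorem gau_ac (c : ℕ) : gam c ≪ volume := withDensity_absolutelyContinuous _ _

theorem gau_sphere {c : ℕ} (hc : 1 ≤ c) (r : ℝ) : gam c (Metric.sphere 0 r) = 0 := by
  have : Nonempty (Fin c) := ⟨⟨0, hc⟩⟩
  exact gau_ac c (Measure.addHaar_sphere volume (0 : E c) r)

theorem gam_ball_open {c : ℕ} (hc : 1 ≤ c) (r : ℝ) :
    gam c (Metric.ball 0 r) = gam c (Metric.closedBall 0 r) := by
  refine le_antisymm (measure_mono Metric.ball_subset_closedBall) ?_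
  rw [← Metric.ball_union_sphere]
  refine (measure_union_le _ _).trans ?_
  rw [gau_sphere hc, add_zero]

theorem gau_law {c : ℕ} (r : ℝ) :
    gam c (Metric.closedBall 0 r) = ((gam c).map fun x : E c => ‖x‖) (Set.Iic r) := by
  rw [Measure.map_apply (by fun_prop) measurableSet_Iic]
  congr 1
  ext x
  simp

theorem gau_mono (c : ℕ) :
    Monotone fun r : ℝ => (gam c (Metric.closedBall 0 r)).toReal := by
  intro a b hab
  exact ENNReal.toReal_mono (measure_ne_top _ _)
    (measure_mono (Metric.closedBall_subset_closedBall hab))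

/-- PROOF: spheres are null sets (`Measure.addHaar_sphere`), continuity of measures from above and below. -/
theorem gam_ball_cont {c : ℕ} (hc : 1 ≤ c) :
    Continuous fun r : ℝ => (gam c (Metric.closedBall 0 r)).toReal := by
  have hP : IsProbabilityMeasure ((gam c).map fun x : E c => ‖x‖) :=
    Measure.isProbabilityMeasure_map (by fun_prop)
  have h : (fun r : ℝ => (gam c (Metric.closedBall 0 r)).toReal) =
      fun r => ProbabilityTheory.cdf ((gam c).map fun x : E c => ‖x‖) r := by
    funext r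
    rw [gau_law, ProbabilityTheory.cdf_eq_real]
    rfl
  rw [h]
  set P : Measure ℝ := (gam c).map fun x : E c => ‖x‖ with hPdef
  refine continuous_iff_continuousAt.2 fun r => ?_
  have h1 : P {r} = 0 := by
    rw [hPdef, Measure.map_apply (by fun_prop) (measurableSet_singleton r)]
    have h2 : (fun x : E c => ‖x‖) ⁻¹' {r} = Metric.sphere 0 r := by
      ext x
      simp
    rw [h2]
    exact gau_sphere hc r
  have h2 := (ProbabilityTheory.cdf P).measure_singleton r
  rw [ProbabilityTheory.measure_cdf, h1] at h2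
  have h3 := ENNReal.ofReal_eq_zero.1 h2.symm
  have h4 := (ProbabilityTheory.cdf P).mono.leftLim_le (le_refl r)
  have h5 : Function.leftLim (ProbabilityTheory.cdf P) r = ProbabilityTheory.cdf P r := by linarith
  have h6 := ((ProbabilityTheory.cdf P).mono.continuousWithinAt_Iio_iff_leftLim_eq).2 h5
  have h7 := (ProbabilityTheory.cdf P).right_continuous r
  exact continuousAt_iff_continuous_left'_right'.2 ⟨h6, h7.mono Set.Ioi_subset_Ici_self⟩

theorem gam_ball_tendsto (c : ℕ) :
    Tendsto (fun r : ℝ => (gam c (Metric.closedBall 0 r)).toReal) atTop (𝓝 1) := by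
  have hP : IsProbabilityMeasure ((gam c).map fun x : E c => ‖x‖) :=
    Measure.isProbabilityMeasure_map (by fun_prop)
  have h : (fun r : ℝ => (gam c (Metric.closedBall 0 r)).toReal) =
      fun r => ProbabilityTheory.cdf ((gam c).map fun x : E c => ‖x‖) r := by
    funext r
    rw [gau_law, ProbabilityTheory.cdf_eq_real]
    rfl
  rw [h]
  exact ProbabilityTheory.tendsto_cdf_atTop _

theorem gau_pos_open {c : ℕ} {S : Set (E c)} (hS : IsOpen S) (hne : S.Nonempty) :
    0 < gam c S := by
  rw [pos_iff_ne_zero]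
  intro h
  have h2 : volume S = 0 := by
    have hac : volume ≪ gam c := by
      refine withDensity_absolutelyContinuous' ?_ ?_
      · exact (ENNReal.measurable_ofReal.comp (dens_continuous c).measurable).aemeasurable
      · exact Eventually.of_forall fun x => (ENNReal.ofReal_pos.2 (gau_dens_pos x)).ne'
    exact hac h
  exact (hS.measure_pos volume hne).ne' h2

theorem gam_ball_pos {c : ℕ} (x : E c) {r : ℝ} (hr : 0 < r) : 0 < gam c (Metric.ball x r) :=
  gau_pos_open Metric.isOpen_ball ⟨x, Metric.mem_ball_self hr⟩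

theorem psi_zero {c : ℕ} (hc : 1 ≤ c) : psi c 0 = 0 := by
  unfold psi
  rw [mul_zero, ← gam_ball_open hc, Metric.ball_zero, measure_empty, ENNReal.toReal_zero]

theorem psi_mono {c : ℕ} (hc : 1 ≤ c) : Monotone (psi c) := by
  intro a b hab
  exact gau_mono c (mul_le_mul_of_nonneg_left hab (rho_pos hc).le)

theorem psi_cont {c : ℕ} (hc : 1 ≤ c) : Continuous (psi c) :=
  (gam_ball_cont hc).comp (continuous_const.mul continuous_id)

theorem psi_tendsto {c : ℕ} (hc : 1 ≤ c) : Tendsto (psi c) atTop (𝓝 1) :=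
  (gam_ball_tendsto c).comp (tendsto_id.const_mul_atTop (rho_pos hc))

theorem psi_le_one (c : ℕ) (x : ℝ) : psi c x ≤ 1 := by
  have h : gam c (Metric.closedBall 0 (rho c * x)) ≤ 1 := prob_le_one
  exact (ENNReal.toReal_mono ENNReal.one_ne_top h).trans_eq ENNReal.toReal_one

theorem psi_nonneg (c : ℕ) (x : ℝ) : 0 ≤ psi c x := ENNReal.toReal_nonneg

end Pool.Agent.H.MP_4bcbbd_co.F
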