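import Pool.Agent.H.MP_4bcbbd_co.h39f.Defs

/-!
MP_4bcbbd_co, polytopes with few vertices: isotropic normalisation.
-/

set_option autoImplicit false

namespace Pool.Agent.H.MP_4bcbbd_co.F

open scoped BigOperators RealInnerProductSpace

lemma norm_sm_map {c : ℕ} (w : ℕ → E c) (A S : Finset ℕ) (Φ : E c ≃ₗ[ℝ] E c) :
    sm (fun i => Φ (w i)) A S = Φ (sm w A S) := by
  unfold sm
  rw [map_sum]
  exact Finset.sum_congr rfl fun i _ => by rw [map_smul]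

lemma norm_ineq_map {c : ℕ} (w : ℕ → E c) (B : Finset ℕ) (y : E c) (J A : Finset ℕ)
    (Φ : E c ≃ₗ[ℝ] E c) {u v : E c} (h : ∀ x, ⟪u, Φ x⟫ = ⟪v, x⟫) :
    (|⟪u, Φ y + sm (fun i => Φ (w i)) A (B \ J)⟫| < ∑ i ∈ J, |⟪u, Φ (w i)⟫|) ↔
      (|⟪v, y + sm w A (B \ J)⟫| < ∑ i ∈ J, |⟪v, w i⟫|) := by
  rw [norm_sm_map, ← map_add, h]
  have e : ∑ i ∈ J, |⟪u, Φ (w i)⟫| = ∑ i ∈ J, |⟪v, w i⟫| :=
    Finset.sum_congr rfl fun i _ => by rw [h]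
  rw [e]

lemma norm_cov_map {c : ℕ} (w : ℕ → E c) (B : Finset ℕ) (y : E c) (J A : Finset ℕ)
    (Φ : E c ≃ₗ[ℝ] E c) :
    Cov (fun i => Φ (w i)) B (Φ y) J A ↔ Cov w B y J A := by
  constructor
  · intro H v hv
    have h : ∀ x, ⟪LinearMap.adjoint Φ.symm.toLinearMap v, Φ x⟫ = ⟪v, x⟫ := by
      intro x
      rw [LinearMap.adjoint_inner_left]
      simp
    have hu : LinearMap.adjoint Φ.symm.toLinearMap v ≠ 0 := by
      intro h0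
      have h1 := h v
      rw [h0, inner_zero_left] at h1
      exact hv (inner_self_eq_zero.mp h1.symm)
    exact (norm_ineq_map w B y J A Φ h).mp (H _ hu)
  · intro H u hu
    have h : ∀ x, ⟪u, Φ x⟫ = ⟪LinearMap.adjoint Φ.toLinearMap u, x⟫ := by
      intro x
      rw [LinearMap.adjoint_inner_left]
      simp
    have hv : LinearMap.adjoint Φ.toLinearMap u ≠ 0 := by
      intro h0
      have h1 := h (Φ.symm u)
      rw [h0, inner_zero_left, LinearEquiv.apply_symm_apply] at h1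
      exact hu (inner_self_eq_zero.mp h1)
    exact (norm_ineq_map w B y J A Φ h).mpr (H _ hv)

/-- PROOF: if `⟪u, Φ x⟫ = ⟪C u, x⟫` then `Cov` for `Φ ∘ w`, `Φ y` at `u` is `Cov` for `w`, `y` at `C u`; `C` (the adjoint) is
bijective. -/
theorem fr_map {c : ℕ} (w : ℕ → E c) (B : Finset ℕ) (y : E c) (m : ℕ) (Φ : E c ≃ₗ[ℝ] E c) :
    fr (fun i => Φ (w i)) B (Φ y) m = fr w B y m := by
  have e : Cov (fun i => Φ (w i)) B (Φ y) = Cov w B y := by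
    funext J A
    exact propext (norm_cov_map w B y J A Φ)
  unfold fr
  rw [e]

theorem fr_eq_zero {c : ℕ} {w : ℕ → E c} {B : Finset ℕ} (y : E c) (m : ℕ) {u : E c} (hu : u ≠ 0)
    (h : ∀ i ∈ B, ⟪u, w i⟫ = 0) : fr w B y m = 0 := by
  classical
  unfold fr pr
  have e : ((B.powersetCard m ×ˢ B.powerset).filter fun P => Cov w B y P.1 P.2) = ∅ := by
    apply Finset.filter_eq_empty_iff.mpr
    rintro ⟨J, A⟩ hP hC
    have hJ : J ⊆ B := (Finset.mem_powersetCard.mp (Finset.mem_product.mp hP).1).1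
    have h1 := hC u hu
    have h2 : ∑ i ∈ J, |⟪u, w i⟫| = 0 :=
      Finset.sum_eq_zero fun i hi => by rw [h i (hJ hi), abs_zero]
    rw [h2] at h1
    exact absurd h1 (not_lt.mpr (abs_nonneg _))
  rw [e]
  simp

/-- PROOF: `T u = (⟪u, w i⟫)_{i ∈ B}` is an injective linear map to `EuclideanSpace ℝ B`; its range has dimension `c`; let
`φ` be a linear isometry from `E c` onto the range (orthonormal basis), `C = T⁻¹ ∘ φ`, `Φ` the adjoint of `C`. -/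
theorem exists_iso {c : ℕ} (w : ℕ → E c) (B : Finset ℕ)
    (h : ∀ u : E c, u ≠ 0 → ∃ i ∈ B, ⟪u, w i⟫ ≠ 0) :
    ∃ Φ C : E c ≃ₗ[ℝ] E c, (∀ u x, ⟪u, Φ x⟫ = ⟪C u, x⟫) ∧ Iso (fun i => Φ (w i)) B := by
  classical
  let T : E c →ₗ[ℝ] EuclideanSpace ℝ B :=
    { toFun := fun u => WithLp.toLp 2 fun i : B => ⟪u, w i⟫
      map_add' := by
        intro u v
        ext i
        simp [inner_add_left]
      map_smul' := by
        intro r u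
        ext i
        simp [real_inner_smul_left] }
  have hTi : ∀ u (i : B), T u i = ⟪u, w i⟫ := fun u i => rfl
  have hTinj : Function.Injective T := by
    rw [← LinearMap.ker_eq_bot, LinearMap.ker_eq_bot']
    intro u hu
    by_contra hne
    obtain ⟨i, hi, h1⟩ := h u hne
    apply h1
    have := hTi u ⟨i, hi⟩
    rw [hu] at this
    exact this.symm
  have hfr : Module.finrank ℝ (LinearMap.range T) = c := by
    rw [LinearMap.finrank_range_of_inj hTinj]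
    simp
  let b : OrthonormalBasis (Fin c) ℝ (LinearMap.range T) :=
    (stdOrthonormalBasis ℝ (LinearMap.range T)).reindex (finCongr hfr)
  let φ : E c ≃ₗᵢ[ℝ] LinearMap.range T := b.repr.symm
  let T' : E c ≃ₗ[ℝ] LinearMap.range T := LinearEquiv.ofInjective T hTinj
  let C : E c ≃ₗ[ℝ] E c := φ.toLinearEquiv.trans T'.symm
  have hTC : ∀ u, T (C u) = (φ u : EuclideanSpace ℝ B) := by
    intro u
    have h1 : T' (C u) = φ u := by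
      show T' (T'.symm (φ u)) = φ u
      exact LinearEquiv.apply_symm_apply _ _
    have h2 : ((T' (C u) : LinearMap.range T) : EuclideanSpace ℝ B) = T (C u) := rfl
    rw [← h2, h1]
  have hinj : Function.Injective (LinearMap.adjoint C.toLinearMap) := by
    rw [← LinearMap.ker_eq_bot, LinearMap.ker_eq_bot']
    intro x hx
    have h1 : ⟪C.symm x, LinearMap.adjoint C.toLinearMap x⟫ = ⟪x, x⟫ := by
      rw [LinearMap.adjoint_inner_right]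
      simp
    rw [hx, inner_zero_right] at h1
    exact inner_self_eq_zero.mp h1.symm
  let Φ : E c ≃ₗ[ℝ] E c := LinearEquiv.ofInjectiveEndo (LinearMap.adjoint C.toLinearMap) hinj
  have hΦ : ∀ u x, ⟪u, Φ x⟫ = ⟪C u, x⟫ := by
    intro u x
    have h1 : Φ x = LinearMap.adjoint C.toLinearMap x := rfl
    rw [h1, LinearMap.adjoint_inner_right]
    simp
  refine ⟨Φ, C, hΦ, ?_⟩
  intro u
  have h1 : ∑ i ∈ B, ⟪u, Φ (w i)⟫ ^ 2 = ∑ i ∈ B, ⟪C u, w i⟫ ^ 2 :=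
    Finset.sum_congr rfl fun i _ => by rw [hΦ]
  have h2 : ‖T (C u)‖ ^ 2 = ∑ i ∈ B, ⟪C u, w i⟫ ^ 2 := by
    rw [EuclideanSpace.real_norm_sq_eq, ← Finset.sum_coe_sort B fun i => ⟪C u, w i⟫ ^ 2]
    exact Finset.sum_congr rfl fun i _ => by rw [hTi]
  have h3 : ‖T (C u)‖ = ‖u‖ := by
    rw [hTC u]
    show ‖φ u‖ = ‖u‖
    exact φ.norm_map u
  show ∑ i ∈ B, ⟪u, Φ (w i)⟫ ^ 2 = ‖u‖ ^ 2
  rw [h1, ← h2, h3]

/-- PROOF: `‖C u‖ ≤ ‖u‖ / √η` since `∑ ⟪C u, w i⟫ ^ 2 = ‖u‖ ^ 2`; `‖Φ x‖ ^ 2 = ⟪C (Φ x), x⟫`. -/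
theorem iso_norm_le {c : ℕ} {w : ℕ → E c} {B : Finset ℕ} {Φ C : E c ≃ₗ[ℝ] E c}
    (hC : ∀ u x, ⟪u, Φ x⟫ = ⟪C u, x⟫) (hI : Iso (fun i => Φ (w i)) B) {η : ℝ} (hη : 0 < η)
    (h : ∀ u : E c, η * ‖u‖ ^ 2 ≤ ∑ i ∈ B, ⟪u, w i⟫ ^ 2) (x : E c) :
    η * ‖Φ x‖ ^ 2 ≤ ‖x‖ ^ 2 := by
  have h1 : η * ‖C (Φ x)‖ ^ 2 ≤ ‖Φ x‖ ^ 2 := by
    have h2 := h (C (Φ x))
    have h3 : ∑ i ∈ B, ⟪C (Φ x), w i⟫ ^ 2 = ‖Φ x‖ ^ 2 := by
      rw [← hI (Φ x)]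
      exact Finset.sum_congr rfl fun i _ => by rw [hC]
    rwa [h3] at h2
  have h4 : ‖Φ x‖ ^ 2 ≤ ‖C (Φ x)‖ * ‖x‖ := by
    have h5 : ⟪C (Φ x), x⟫ = ‖Φ x‖ ^ 2 := by
      rw [← hC, real_inner_self_eq_norm_sq]
    rw [← h5]
    exact real_inner_le_norm _ _
  rcases eq_or_ne ‖Φ x‖ 0 with h0 | h0
  · rw [h0]
    simp
  · have hp : 0 < ‖Φ x‖ ^ 2 := by positivity
    have h6 : (‖Φ x‖ ^ 2) ^ 2 ≤ (‖C (Φ x)‖ * ‖x‖) ^ 2 :=
      pow_le_pow_left₀ hp.le h4 2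
    have h7 : ‖Φ x‖ ^ 2 * (η * ‖Φ x‖ ^ 2) ≤ ‖Φ x‖ ^ 2 * ‖x‖ ^ 2 := by
      calc ‖Φ x‖ ^ 2 * (η * ‖Φ x‖ ^ 2) = η * (‖Φ x‖ ^ 2) ^ 2 := by ring
        _ ≤ η * (‖C (Φ x)‖ * ‖x‖) ^ 2 := mul_le_mul_of_nonneg_left h6 hη.le
        _ = (η * ‖C (Φ x)‖ ^ 2) * ‖x‖ ^ 2 := by ring
        _ ≤ ‖Φ x‖ ^ 2 * ‖x‖ ^ 2 := mul_le_mul_of_nonneg_right h1 (by positivity)
    exact le_of_mul_le_mul_left h7 hp

/-- PROOF: sum over an orthonormal basis. -/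
theorem Iso.sum_norm {c : ℕ} {w : ℕ → E c} {B : Finset ℕ} (h : Iso w B) :
    ∑ i ∈ B, ‖w i‖ ^ 2 = c := by
  let b := EuclideanSpace.basisFun (Fin c) ℝ
  have h1 : ∀ i ∈ B, ‖w i‖ ^ 2 = ∑ j : Fin c, ⟪b j, w i⟫ ^ 2 := by
    intro i _
    rw [← b.sum_sq_norm_inner_right (w i)]
    exact Finset.sum_congr rfl fun j _ => by rw [Real.norm_eq_abs, sq_abs]
  rw [Finset.sum_congr rfl h1, Finset.sum_comm]
  have h2 : ∀ j : Fin c, ∑ i ∈ B, ⟪b j, w i⟫ ^ 2 = 1 := by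
    intro j
    rw [h (b j), b.norm_eq_one j]
    norm_num
  rw [Finset.sum_congr rfl fun j _ => h2 j]
  simp

theorem Iso.card_large {c : ℕ} {w : ℕ → E c} {B L : Finset ℕ} (h : Iso w B) (hL : L ⊆ B)
    {δ : ℝ} (hδ : 0 < δ) (h2 : ∀ i ∈ L, δ ≤ ‖w i‖) : (L.card : ℝ) ≤ c / δ ^ 2 := by
  rw [le_div_iff₀ (by positivity)]
  calc (L.card : ℝ) * δ ^ 2 = ∑ i ∈ L, δ ^ 2 := by rw [Finset.sum_const, nsmul_eq_mul]
    _ ≤ ∑ i ∈ L, ‖w i‖ ^ 2 :=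
        Finset.sum_le_sum fun i hi => pow_le_pow_left₀ hδ.le (h2 i hi) 2
    _ ≤ ∑ i ∈ B, ‖w i‖ ^ 2 :=
        Finset.sum_le_sum_of_subset_of_nonneg hL fun i _ _ => by positivity
    _ = c := h.sum_norm

/-- Cauchy-Schwarz. -/
theorem Iso.sum_norm_le {c : ℕ} {w : ℕ → E c} {B : Finset ℕ} (h : Iso w B) :
    ∑ i ∈ B, ‖w i‖ ≤ Real.sqrt B.card * Real.sqrt c := by
  have h1 : (∑ i ∈ B, ‖w i‖) ^ 2 ≤ (B.card : ℝ) * c := by
    rw [← h.sum_norm]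
    exact sq_sum_le_card_mul_sum_sq
  have h0 : 0 ≤ ∑ i ∈ B, ‖w i‖ := Finset.sum_nonneg fun i _ => norm_nonneg _
  rw [← Real.sqrt_mul (Nat.cast_nonneg _)]
  exact Real.le_sqrt_of_sq_le h1

theorem sum_abs_le {c : ℕ} (w : ℕ → E c) (B : Finset ℕ) (u : E c) :
    ∑ i ∈ B, |⟪u, w i⟫| ≤ Real.sqrt B.card * Real.sqrt (∑ i ∈ B, ⟪u, w i⟫ ^ 2) := by
  have h1 : (∑ i ∈ B, |⟪u, w i⟫|) ^ 2 ≤ (B.card : ℝ) * ∑ i ∈ B, ⟪u, w i⟫ ^ 2 := by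
    have h2 : ∑ i ∈ B, ⟪u, w i⟫ ^ 2 = ∑ i ∈ B, |⟪u, w i⟫| ^ 2 :=
      Finset.sum_congr rfl fun i _ => by rw [sq_abs]
    rw [h2]
    exact sq_sum_le_card_mul_sum_sq
  rw [← Real.sqrt_mul (Nat.cast_nonneg _)]
  exact Real.le_sqrt_of_sq_le h1

end Pool.Agent.H.MP_4bcbbd_co.F
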