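import Pool.Agent.H.MP_4bcbbd_co.h39f.Rot
import Pool.Agent.H.MP_4bcbbd_co.h39f.Norm

/-!
MP_4bcbbd_co, polytopes with few vertices: nearly optimal families.
-/

set_option autoImplicit false

namespace Pool.Agent.H.MP_4bcbbd_co.F

open scoped BigOperators RealInnerProductSpace

lemma gw_shift {R : ℕ} (hR : 0 < R) (b : Fin R → ℝ) (q x : ℕ) :
    b ⟨(R * q + x) % R, Nat.mod_lt _ hR⟩ = b ⟨x % R, Nat.mod_lt _ hR⟩ := by
  congr 1
  apply Fin.ext
  show (R * q + x) % R = x % R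
  rw [Nat.mul_add_mod]

lemma gw_one {R : ℕ} (hR : 0 < R) (b : Fin R → ℝ) :
    ∑ i ∈ Finset.range R, b ⟨i % R, Nat.mod_lt _ hR⟩ = ∑ k, b k := by
  rw [Finset.sum_range]
  refine Finset.sum_congr rfl fun k _ => ?_
  congr 1
  apply Fin.ext
  show (k : ℕ) % R = k
  exact Nat.mod_eq_of_lt k.2

lemma gw_mul {R : ℕ} (hR : 0 < R) (b : Fin R → ℝ) (q : ℕ) :
    ∑ i ∈ Finset.range (R * q), b ⟨i % R, Nat.mod_lt _ hR⟩ = (q : ℝ) * ∑ k, b k := by
  induction q with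
  | zero => simp
  | succ q ih =>
    rw [Nat.mul_succ, Finset.sum_range_add, ih]
    have h1 : ∑ x ∈ Finset.range R, b ⟨(R * q + x) % R, Nat.mod_lt _ hR⟩ = ∑ k, b k := by
      rw [← gw_one hR b]
      exact Finset.sum_congr rfl fun x _ => gw_shift hR b q x
    rw [h1]
    push_cast
    ring

/-- averages of a periodic sequence. -/
theorem periodic_avg {R : ℕ} (hR : 0 < R) (b : Fin R → ℝ) {M : ℝ} (hb : ∀ k, |b k| ≤ M) (n : ℕ) :
    |∑ i ∈ Finset.range n, b ⟨i % R, Nat.mod_lt _ hR⟩ - (n : ℝ) * ((1 / (R : ℝ)) * ∑ k, b k)| ≤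
      2 * R * M := by
  have hM : 0 ≤ M := (abs_nonneg _).trans (hb ⟨0, hR⟩)
  have hR' : (0 : ℝ) < R := by exact_mod_cast hR
  set q := n / R with hq
  set r := n % R with hr
  have hn : n = R * q + r := (Nat.div_add_mod n R).symm
  have hrR : (r : ℝ) ≤ R := by exact_mod_cast (Nat.mod_lt n hR).le
  have hr0 : (0 : ℝ) ≤ r := Nat.cast_nonneg _
  have h1 : ∑ i ∈ Finset.range n, b ⟨i % R, Nat.mod_lt _ hR⟩ = (q : ℝ) * ∑ k, b k +
      ∑ x ∈ Finset.range r, b ⟨x % R, Nat.mod_lt _ hR⟩ := by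
    rw [hn, Finset.sum_range_add, gw_mul hR b q]
    congr 1
    exact Finset.sum_congr rfl fun x _ => gw_shift hR b q x
  have h2 : |∑ x ∈ Finset.range r, b ⟨x % R, Nat.mod_lt _ hR⟩| ≤ r * M := by
    refine (Finset.abs_sum_le_sum_abs _ _).trans ?_
    refine (Finset.sum_le_sum fun x _ => hb _).trans ?_
    rw [Finset.sum_const, Finset.card_range, nsmul_eq_mul]
  have h3 : |∑ k, b k| ≤ R * M := by
    refine (Finset.abs_sum_le_sum_abs _ _).trans ?_
    refine (Finset.sum_le_sum fun x _ => hb _).trans ?_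
    rw [Finset.sum_const, Finset.card_univ, Fintype.card_fin, nsmul_eq_mul]
  have h4 : (n : ℝ) * ((1 / (R : ℝ)) * ∑ k, b k) = (q : ℝ) * ∑ k, b k + (r / R) * ∑ k, b k := by
    have h5 : (n : ℝ) = R * q + r := by exact_mod_cast hn
    rw [h5]
    field_simp
  have h5 : |(r / R : ℝ) * ∑ k, b k| ≤ R * M := by
    rw [abs_mul, abs_of_nonneg (div_nonneg hr0 hR'.le)]
    calc (r / R : ℝ) * |∑ k, b k| ≤ 1 * (R * M) :=
          mul_le_mul ((div_le_one hR').2 hrR) h3 (abs_nonneg _) zero_le_one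
      _ = R * M := one_mul _
  rw [h1, h4]
  have h6 : (q : ℝ) * ∑ k, b k + ∑ x ∈ Finset.range r, b ⟨x % R, Nat.mod_lt _ hR⟩ -
      ((q : ℝ) * ∑ k, b k + (r / R) * ∑ k, b k) =
      ∑ x ∈ Finset.range r, b ⟨x % R, Nat.mod_lt _ hR⟩ - (r / R) * ∑ k, b k := by ring
  rw [h6]
  have h7 : (r : ℝ) * M ≤ R * M := mul_le_mul_of_nonneg_right hrR hM
  calc |∑ x ∈ Finset.range r, b ⟨x % R, Nat.mod_lt _ hR⟩ - (r / R) * ∑ k, b k|
      ≤ |∑ x ∈ Finset.range r, b ⟨x % R, Nat.mod_lt _ hR⟩| + |(r / R : ℝ) * ∑ k, b k| :=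
        abs_sub _ _
    _ ≤ 2 * R * M := by linarith

/-- The numbers for the family `√(c/n) • g (i % R) e`. -/
lemma gw_sums {c : ℕ} (hc : 1 ≤ c) {R : ℕ} (hR : 0 < R) (g : Fin R → (E c ≃ₗᵢ[ℝ] E c)) {ε : ℝ}
    (hg : ∀ u w : E c, |av1 g u w - kap c * (‖u‖ * ‖w‖)| ≤ ε * (‖u‖ * ‖w‖) ∧
      |av2 g u w - (1 / (c : ℝ)) * (‖u‖ * ‖w‖) ^ 2| ≤ ε * (‖u‖ * ‖w‖) ^ 2)
    {e : E c} (he : ‖e‖ = 1) {n : ℕ} (hn : 0 < n) (u : E c) :
    (Real.sqrt n * (rho c - Real.sqrt c * (ε + 2 * R / n)) * ‖u‖ ≤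
      ∑ i ∈ Finset.range n, |⟪u, Real.sqrt (c / n) • g ⟨i % R, Nat.mod_lt _ hR⟩ e⟫|) ∧
    |∑ i ∈ Finset.range n, ⟪u, Real.sqrt (c / n) • g ⟨i % R, Nat.mod_lt _ hR⟩ e⟫ ^ 2 - ‖u‖ ^ 2| ≤
      c * (ε + 2 * R / n) * ‖u‖ ^ 2 := by
  have hn' : (0 : ℝ) < n := by exact_mod_cast hn
  have hc' : (0 : ℝ) < c := by exact_mod_cast hc
  have hs : Real.sqrt (c / n) ^ 2 = c / n := Real.sq_sqrt (by positivity)
  have hs0 : 0 ≤ Real.sqrt (c / n) := Real.sqrt_nonneg _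
  have hcs : ∀ k, |⟪g k e, u⟫| ≤ ‖u‖ := by
    intro k
    have h1 := abs_real_inner_le_norm (g k e) u
    rwa [LinearIsometryEquiv.norm_map, he, one_mul] at h1
  obtain ⟨h1, h2⟩ := hg e u
  rw [he, one_mul] at h1 h2
  constructor
  · have h3 := periodic_avg hR (fun k => |⟪g k e, u⟫|) (M := ‖u‖)
      (fun k => by rw [abs_abs]; exact hcs k) n
    have h4 : ∑ i ∈ Finset.range n, |⟪u, Real.sqrt (c / n) • g ⟨i % R, Nat.mod_lt _ hR⟩ e⟫| =
        Real.sqrt (c / n) * ∑ i ∈ Finset.range n, |⟪g ⟨i % R, Nat.mod_lt _ hR⟩ e, u⟫| := by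
      rw [Finset.mul_sum]
      refine Finset.sum_congr rfl fun i _ => ?_
      rw [real_inner_smul_right, abs_mul, abs_of_nonneg hs0, real_inner_comm]
    rw [h4]
    have h5 : (1 / (R : ℝ)) * ∑ k, |⟪g k e, u⟫| = av1 g e u := rfl
    rw [h5] at h3
    have h6 := (abs_le.1 h3).1
    have h7 := (abs_le.1 h1).1
    have h8 : (n : ℝ) * ((kap c - ε - 2 * R / n) * ‖u‖) ≤
        ∑ i ∈ Finset.range n, |⟪g ⟨i % R, Nat.mod_lt _ hR⟩ e, u⟫| := by
      have h9 : (n : ℝ) * ((kap c - ε) * ‖u‖) ≤ n * av1 g e u :=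
        mul_le_mul_of_nonneg_left (by linarith) hn'.le
      have h10 : (n : ℝ) * ((kap c - ε - 2 * R / n) * ‖u‖) =
          n * ((kap c - ε) * ‖u‖) - 2 * R * ‖u‖ := by
        field_simp
      rw [h10]
      linarith
    have h9 : Real.sqrt n * (rho c - Real.sqrt c * (ε + 2 * R / n)) * ‖u‖ =
        Real.sqrt (c / n) * ((n : ℝ) * ((kap c - ε - 2 * R / n) * ‖u‖)) := by
      have h10 : Real.sqrt (c / n) * n = Real.sqrt n * Real.sqrt c := by
        rw [Real.sqrt_div hc'.le]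
        have h11 : Real.sqrt n ≠ 0 := (Real.sqrt_pos.2 hn').ne'
        have h12 : (n : ℝ) = Real.sqrt n * Real.sqrt n := (Real.mul_self_sqrt hn'.le).symm
        rw [div_mul_eq_mul_div, div_eq_iff h11]
        linear_combination Real.sqrt c * h12
      unfold rho
      linear_combination (-((kap c - ε - 2 * R / n) * ‖u‖)) * h10
    rw [h9]
    exact mul_le_mul_of_nonneg_left h8 hs0
  · have h3 := periodic_avg hR (fun k => ⟪g k e, u⟫ ^ 2) (M := ‖u‖ ^ 2)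
      (fun k => by
        rw [abs_of_nonneg (sq_nonneg _)]
        have := hcs k
        exact sq_le_sq' (by linarith [(abs_le.1 this).1]) (abs_le.1 this).2) n
    have h4 : ∑ i ∈ Finset.range n, ⟪u, Real.sqrt (c / n) • g ⟨i % R, Nat.mod_lt _ hR⟩ e⟫ ^ 2 =
        (c / n : ℝ) * ∑ i ∈ Finset.range n, ⟪g ⟨i % R, Nat.mod_lt _ hR⟩ e, u⟫ ^ 2 := by
      rw [Finset.mul_sum]
      refine Finset.sum_congr rfl fun i _ => ?_
      rw [real_inner_smul_right, mul_pow, hs, real_inner_comm]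
    rw [h4]
    have h5 : (1 / (R : ℝ)) * ∑ k, ⟪g k e, u⟫ ^ 2 = av2 g e u := rfl
    rw [h5] at h3
    set S := ∑ i ∈ Finset.range n, ⟪g ⟨i % R, Nat.mod_lt _ hR⟩ e, u⟫ ^ 2
    have h6 : (c / n : ℝ) * S - ‖u‖ ^ 2 =
        (c / n : ℝ) * (S - n * av2 g e u) + c * (av2 g e u - 1 / (c : ℝ) * ‖u‖ ^ 2) := by
      field_simp
      ring
    rw [h6]
    have h7 : |(c / n : ℝ) * (S - n * av2 g e u)| ≤ (c / n : ℝ) * (2 * R * ‖u‖ ^ 2) := by
      rw [abs_mul, abs_of_nonneg (by positivity : (0 : ℝ) ≤ c / n)]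
      exact mul_le_mul_of_nonneg_left h3 (by positivity)
    have h8 : |(c : ℝ) * (av2 g e u - 1 / (c : ℝ) * ‖u‖ ^ 2)| ≤ c * (ε * ‖u‖ ^ 2) := by
      rw [abs_mul, abs_of_nonneg hc'.le]
      exact mul_le_mul_of_nonneg_left h2 hc'.le
    refine (abs_add_le _ _).trans ?_
    have h9 : (c : ℝ) * (ε + 2 * R / n) * ‖u‖ ^ 2 =
        (c / n : ℝ) * (2 * R * ‖u‖ ^ 2) + c * (ε * ‖u‖ ^ 2) := by
      field_simp
      ring
    rw [h9]
    exact add_le_add h7 h8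

/-- PROOF: note, lower bound. `v i = √(c/n) • g (i % R) e` with `g` from `exists_rot` and a unit vector `e`; by `periodic_avg` the
sums `∑ ⟪u, v i⟫ ^ 2` and `∑ |⟪u, v i⟫|` are near `‖u‖ ^ 2` and `rho c √n ‖u‖`; `w = Φ ∘ v` with `exists_iso`; `iso_norm_le`, and
`∑ |⟪u, Φ (v i)⟫| = ∑ |⟪C u, v i⟫|`, `‖u‖ ^ 2 = ∑ ⟪C u, v i⟫ ^ 2 ≤ (1 + small) ‖C u‖ ^ 2`. -/
theorem exists_goodW {c : ℕ} (hc : 1 ≤ c) {ε : ℝ} (hε : 0 < ε) :
    ∃ N : ℕ, ∀ n, N ≤ n → ∃ w : ℕ → E c, Iso w (Finset.range n) ∧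
      (∀ i ∈ Finset.range n, ‖w i‖ ≤ 2 * Real.sqrt (c / n)) ∧
      ∀ u : E c, (rho c - ε) * Real.sqrt n * ‖u‖ ≤ ∑ i ∈ Finset.range n, |⟪u, w i⟫| := by
  have hc' : (0 : ℝ) < c := by exact_mod_cast hc
  set K : ℝ := c + Real.sqrt c + c * |rho c| with hK
  have hK0 : 0 < K := by
    have h1 := Real.sqrt_nonneg (c : ℝ)
    have h2 := mul_nonneg hc'.le (abs_nonneg (rho c))
    linarith
  set m : ℝ := min (1 / 2) ε with hm
  have hm0 : 0 < m := lt_min (by norm_num) hε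
  have hm1 : m ≤ 1 / 2 := min_le_left _ _
  have hm2 : m ≤ ε := min_le_right _ _
  obtain ⟨R, hR, g, hg⟩ := exists_rot hc (ε := m / (2 * K)) (by positivity)
  have hR' : (0 : ℝ) < R := by exact_mod_cast hR
  obtain ⟨e, he⟩ : ∃ e : E c, ‖e‖ = 1 := by
    refine ⟨EuclideanSpace.single ⟨0, hc⟩ 1, ?_⟩
    simp
  obtain ⟨N, hN⟩ := exists_nat_ge (4 * R * K / m)
  refine ⟨N + 1, fun n hn => ?_⟩
  have hn0 : 0 < n := by omega
  have hn' : (0 : ℝ) < n := by exact_mod_cast hn0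
  have hNn : 4 * R * K / m ≤ n := by
    have h1 : ((N + 1 : ℕ) : ℝ) ≤ n := by exact_mod_cast hn
    push_cast at h1
    linarith
  set t : ℝ := m / (2 * K) + 2 * R / n with ht
  have ht0 : 0 ≤ t := by positivity
  have hKt : K * t ≤ m := by
    have h1 : 2 * R / n ≤ m / (2 * K) := by
      rw [div_le_div_iff₀ hn' (by positivity)]
      rw [div_le_iff₀ hm0] at hNn
      linarith
    have h2 : K * (m / (2 * K)) = m / 2 := by
      field_simp
    have h3 : K * (2 * R / n) ≤ m / 2 := by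
      rw [← h2]
      exact mul_le_mul_of_nonneg_left h1 hK0.le
    rw [ht, mul_add, h2]
    linarith
  have hct : c * t ≤ 1 / 2 := by
    have h1 : c * t ≤ K * t := by
      apply mul_le_mul_of_nonneg_right _ ht0
      have h1 := Real.sqrt_nonneg (c : ℝ)
      have h2 := mul_nonneg hc'.le (abs_nonneg (rho c))
      linarith
    linarith
  have hct0 : 0 ≤ c * t := mul_nonneg hc'.le ht0
  let v : ℕ → E c := fun i => Real.sqrt (c / n) • g ⟨i % R, Nat.mod_lt _ hR⟩ e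
  have hsum := fun u : E c => gw_sums hc hR g hg he hn0 u
  have hv2 : ∀ u : E c, (1 - c * t) * ‖u‖ ^ 2 ≤ ∑ i ∈ Finset.range n, ⟪u, v i⟫ ^ 2 := by
    intro u
    have h1 := (abs_le.1 (hsum u).2).1
    rw [← ht] at h1
    linarith
  have hv3 : ∀ u : E c, ∑ i ∈ Finset.range n, ⟪u, v i⟫ ^ 2 ≤ (1 + c * t) * ‖u‖ ^ 2 := by
    intro u
    have h1 := (abs_le.1 (hsum u).2).2
    rw [← ht] at h1
    linarith
  obtain ⟨Φ, C, hC, hI⟩ := exists_iso v (Finset.range n) (by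
    intro u hu
    by_contra hne
    push Not at hne
    have h1 : ∑ i ∈ Finset.range n, ⟪u, v i⟫ ^ 2 = 0 :=
      Finset.sum_eq_zero fun i hi => by rw [hne i hi]; norm_num
    have h2 := hv2 u
    rw [h1] at h2
    have h3 : 0 < ‖u‖ ^ 2 := by
      have := norm_pos_iff.2 hu
      positivity
    have h4 : 0 < (1 - c * t) * ‖u‖ ^ 2 := mul_pos (by linarith) h3
    linarith)
  refine ⟨fun i => Φ (v i), hI, ?_, ?_⟩
  · intro i _
    have h1 := iso_norm_le hC hI (η := 1 - c * t) (by linarith) hv2 (v i)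
    have h2 : ‖v i‖ ^ 2 = c / n := by
      show ‖Real.sqrt (c / n) • g ⟨i % R, Nat.mod_lt _ hR⟩ e‖ ^ 2 = c / n
      rw [norm_smul, LinearIsometryEquiv.norm_map, he, mul_one, Real.norm_eq_abs, sq_abs,
        Real.sq_sqrt (by positivity)]
    rw [h2] at h1
    have h3 : ‖Φ (v i)‖ ^ 2 ≤ (2 * Real.sqrt (c / n)) ^ 2 := by
      rw [mul_pow, Real.sq_sqrt (by positivity)]
      have h4 : (1 / 4 : ℝ) * ‖Φ (v i)‖ ^ 2 ≤ (1 - c * t) * ‖Φ (v i)‖ ^ 2 :=
        mul_le_mul_of_nonneg_right (by linarith) (sq_nonneg _)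
      linarith
    exact (pow_le_pow_iff_left₀ (norm_nonneg _) (by positivity) two_ne_zero).1 h3
  · intro u
    have h1 : ∀ i, ⟪u, Φ (v i)⟫ = ⟪C u, v i⟫ := fun i => hC u (v i)
    simp only [h1]
    rcases le_or_gt (rho c - ε) 0 with hneg | hpos
    · refine le_trans ?_ (Finset.sum_nonneg fun i _ => abs_nonneg _)
      exact mul_nonpos_of_nonpos_of_nonneg
        (mul_nonpos_of_nonpos_of_nonneg hneg (Real.sqrt_nonneg _)) (norm_nonneg _)
    · have h2 := (hsum (C u)).1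
      rw [← ht] at h2
      refine le_trans ?_ h2
      have h3 : ‖u‖ ^ 2 ≤ (1 + c * t) * ‖C u‖ ^ 2 := by
        have h4 := hI u
        simp only [h1] at h4
        rw [← h4]
        exact hv3 (C u)
      have h4 : (1 - c * t) * ‖u‖ ≤ ‖C u‖ := by
        refine (pow_le_pow_iff_left₀ (mul_nonneg (by linarith) (norm_nonneg _)) (norm_nonneg _)
          two_ne_zero).1 ?_
        rw [mul_pow]
        have h5 : (1 - c * t) ^ 2 * ‖u‖ ^ 2 ≤ (1 - c * t) ^ 2 * ((1 + c * t) * ‖C u‖ ^ 2) :=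
          mul_le_mul_of_nonneg_left h3 (sq_nonneg _)
        have h6 : (1 - c * t) ^ 2 * (1 + c * t) ≤ 1 := by
          have h8 : 0 ≤ 1 + c * t - (c * t) ^ 2 := by
            have h9 : (c * t) * (c * t) ≤ 1 * (c * t) :=
              mul_le_mul_of_nonneg_right (by linarith) hct0
            nlinarith
          have h9 := mul_nonneg hct0 h8
          have h10 : (1 - c * t) ^ 2 * (1 + c * t) = 1 - c * t * (1 + c * t - (c * t) ^ 2) := by
            ring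
          linarith
        have h7 : (1 - c * t) ^ 2 * ((1 + c * t) * ‖C u‖ ^ 2) ≤ 1 * ‖C u‖ ^ 2 := by
          rw [← mul_assoc]
          exact mul_le_mul_of_nonneg_right h6 (sq_nonneg _)
        linarith
      have hrho : 0 < rho c := by linarith
      have h5 : Real.sqrt c * t + c * t * rho c ≤ ε := by
        have h6 : (Real.sqrt c + c * rho c) * t ≤ K * t := by
          apply mul_le_mul_of_nonneg_right _ ht0
          rw [hK, abs_of_pos hrho]
          linarith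
        have h7 : (Real.sqrt c + c * rho c) * t = Real.sqrt c * t + c * t * rho c := by ring
        linarith
      have h6 : 0 ≤ rho c - Real.sqrt c * t := by
        have h7 := mul_nonneg hct0 hrho.le
        linarith
      have h7 : rho c - ε ≤ (rho c - Real.sqrt c * t) * (1 - c * t) := by
        have h8 : 0 ≤ Real.sqrt c * t * (c * t) :=
          mul_nonneg (mul_nonneg (Real.sqrt_nonneg _) ht0) hct0
        nlinarith
      calc (rho c - ε) * Real.sqrt n * ‖u‖ = Real.sqrt n * ((rho c - ε) * ‖u‖) := by ring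
        _ ≤ Real.sqrt n * (((rho c - Real.sqrt c * t) * (1 - c * t)) * ‖u‖) :=
            mul_le_mul_of_nonneg_left (mul_le_mul_of_nonneg_right h7 (norm_nonneg _))
              (Real.sqrt_nonneg _)
        _ = Real.sqrt n * (rho c - Real.sqrt c * t) * ((1 - c * t) * ‖u‖) := by ring
        _ ≤ Real.sqrt n * (rho c - Real.sqrt c * t) * ‖C u‖ :=
            mul_le_mul_of_nonneg_left h4 (mul_nonneg (Real.sqrt_nonneg _) h6)

end Pool.Agent.H.MP_4bcbbd_co.F
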