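import Pool.Agent.H.MP_4bcbbd_co.h39f.Gauss
import Pool.Agent.H.MP_1c6531_pr.PL

/-!
MP_4bcbbd_co, polytopes with few vertices: Prekopa-Leindler for the Gaussian measure.
-/

set_option autoImplicit false

namespace Pool.Agent.H.MP_4bcbbd_co.F

open scoped BigOperators RealInnerProductSpace ENNReal
open MeasureTheory

lemma plg_logconc {c : ℕ} {a b : ℝ} (ha : 0 < a) (hb : 0 < b) (hab : a + b = 1) (x y : E c) :
    dens c x ^ a * dens c y ^ b ≤ dens c (a • x + b • y) := by
  have hK : 0 < (2 * Real.pi) ^ (-(c : ℝ) / 2) := by positivity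
  have h1 : ‖a • x + b • y‖ ≤ a * ‖x‖ + b * ‖y‖ := by
    refine (norm_add_le _ _).trans_eq ?_
    rw [norm_smul, norm_smul, Real.norm_of_nonneg ha.le, Real.norm_of_nonneg hb.le]
  have h2 : ‖a • x + b • y‖ ^ 2 ≤ a * ‖x‖ ^ 2 + b * ‖y‖ ^ 2 := by
    have h3 : ‖a • x + b • y‖ ^ 2 ≤ (a * ‖x‖ + b * ‖y‖) ^ 2 :=
      pow_le_pow_left₀ (norm_nonneg _) h1 2
    have h4 : (a * ‖x‖ + b * ‖y‖) ^ 2 =
        a * ‖x‖ ^ 2 + b * ‖y‖ ^ 2 - a * b * (‖x‖ - ‖y‖) ^ 2 := by
      have hb' : b = 1 - a := by linarith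
      subst hb'
      ring
    have h5 : 0 ≤ a * b * (‖x‖ - ‖y‖) ^ 2 := by positivity
    linarith
  unfold dens
  generalize (2 * Real.pi) ^ (-(c : ℝ) / 2) = K at hK ⊢
  rw [Real.mul_rpow hK.le (Real.exp_pos _).le, Real.mul_rpow hK.le (Real.exp_pos _).le,
    ← Real.exp_mul, ← Real.exp_mul, mul_mul_mul_comm, ← Real.rpow_add hK, hab, Real.rpow_one,
    ← Real.exp_add]
  refine mul_le_mul_of_nonneg_left (Real.exp_le_exp.2 ?_) hK.le
  nlinarith [h2]

lemma plg_transfer {c : ℕ} (f : E c → ℝ≥0∞) (hf : Measurable f) :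
    ∫⁻ v : Fin c → ℝ, f (WithLp.toLp 2 v) = ∫⁻ x, f x :=
  (PiLp.volume_preserving_toLp (Fin c)).lintegral_comp hf

lemma plg_gam {c : ℕ} {A : Set (E c)} (hA : MeasurableSet A) :
    gam c A = ∫⁻ x, A.indicator (fun x => ENNReal.ofReal (dens c x)) x := by
  rw [gam, withDensity_apply _ hA, lintegral_indicator hA]

/-- PROOF: `Pool.Agent.H.MP_1c6531_pr.prekopa_leindler` for `f = 1_A dens`, `g = 1_B dens`, `h = 1_C dens` transferred to
`Fin c → ℝ` by `PiLp.volume_preserving_toLp` (as in H/MP_d7d3dc_an/h17/Conc.lean); `dens` is log-concave: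
`‖a x + b y‖ ^ 2 ≤ a ‖x‖ ^ 2 + b ‖y‖ ^ 2`. -/
theorem gam_pl {c : ℕ} {A B C : Set (E c)} (hA : MeasurableSet A) (hB : MeasurableSet B)
    (hC : MeasurableSet C) {a b : ℝ} (ha : 0 < a) (hb : 0 < b) (hab : a + b = 1)
    (h : ∀ x ∈ A, ∀ y ∈ B, a • x + b • y ∈ C) :
    (gam c A) ^ a * (gam c B) ^ b ≤ gam c C := by
  have hdm : Measurable fun x : E c => ENNReal.ofReal (dens c x) :=
    ENNReal.measurable_ofReal.comp (dens_continuous c).measurable
  have hto : Measurable (WithLp.toLp 2 : (Fin c → ℝ) → E c) :=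
    (PiLp.volume_preserving_toLp (Fin c)).measurable
  have hPL := Pool.Agent.H.MP_1c6531_pr.prekopa_leindler
    (f := fun v : Fin c → ℝ => A.indicator (fun x => ENNReal.ofReal (dens c x)) (WithLp.toLp 2 v))
    (g := fun v => B.indicator (fun x => ENNReal.ofReal (dens c x)) (WithLp.toLp 2 v))
    (h := fun v => C.indicator (fun x => ENNReal.ofReal (dens c x)) (WithLp.toLp 2 v))
    ((hdm.indicator hA).comp hto) ((hdm.indicator hB).comp hto) ((hdm.indicator hC).comp hto)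
    (a := a) (b := b) ha hb hab (fun x y => by
      by_cases hx : (WithLp.toLp 2 x : E c) ∈ A
      · by_cases hy : (WithLp.toLp 2 y : E c) ∈ B
        · have hxy : (WithLp.toLp 2 (a • x + b • y) : E c) =
              a • (WithLp.toLp 2 x : E c) + b • (WithLp.toLp 2 y : E c) := rfl
          have h1 := h _ hx _ hy
          rw [← hxy] at h1
          rw [Set.indicator_of_mem hx, Set.indicator_of_mem hy, Set.indicator_of_mem h1,
            ENNReal.ofReal_rpow_of_nonneg (dens_nonneg _) ha.le,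
            ENNReal.ofReal_rpow_of_nonneg (dens_nonneg _) hb.le,
            ← ENNReal.ofReal_mul (Real.rpow_nonneg (dens_nonneg _) _), hxy]
          exact ENNReal.ofReal_le_ofReal (plg_logconc ha hb hab _ _)
        · rw [Set.indicator_of_notMem hy, ENNReal.zero_rpow_of_pos hb, mul_zero]
          exact zero_le
      · rw [Set.indicator_of_notMem hx, ENNReal.zero_rpow_of_pos ha, zero_mul]
        exact zero_le)
  rw [plg_transfer _ (hdm.indicator hA), plg_transfer _ (hdm.indicator hB),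
    plg_transfer _ (hdm.indicator hC), ← plg_gam hA, ← plg_gam hB, ← plg_gam hC] at hPL
  exact hPL

/-- PROOF: induction on `N`: `C N` the (compact) set of the means; `C (N+1) = (N/(N+1)) C N + (1/(N+1)) A N`. -/
theorem gam_mean {c N : ℕ} (hN : 0 < N) {A : Fin N → Set (E c)} (hA : ∀ j, IsCompact (A j))
    {C : Set (E c)} (hC : MeasurableSet C)
    (h : ∀ x : Fin N → E c, (∀ j, x j ∈ A j) → (1 / (N : ℝ)) • ∑ j, x j ∈ C) {a : ℝ≥0∞}
    (ha : ∀ j, a ≤ gam c (A j)) : a ≤ gam c C := by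
  induction N generalizing C with
  | zero => exact absurd hN (lt_irrefl _)
  | succ N ih =>
    rcases Nat.eq_zero_or_pos N with h0 | h0
    · subst h0
      refine (ha 0).trans (measure_mono fun z hz => ?_)
      have := h (fun _ => z) (fun j => by
        have hj : j = 0 := Fin.ext (by simp)
        rw [hj]
        exact hz)
      simpa using this
    · have hc : IsCompact ((fun x : Fin N → E c => (1 / (N : ℝ)) • ∑ j, x j) ''
          (Set.univ.pi fun j : Fin N => A j.castSucc)) := by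
        refine (isCompact_univ_pi fun j : Fin N => hA j.castSucc).image ?_
        fun_prop
      set D := (fun x : Fin N → E c => (1 / (N : ℝ)) • ∑ j, x j) ''
          (Set.univ.pi fun j : Fin N => A j.castSucc) with hD
      have hDm : MeasurableSet D := hc.isClosed.measurableSet
      have h1 : a ≤ gam c D := ih h0 (fun j => hA j.castSucc) hDm
        (fun x hx => ⟨x, fun j _ => hx j, rfl⟩) (fun j => ha j.castSucc)
      have hNR : (0 : ℝ) < N := by exact_mod_cast h0
      have hs : (0 : ℝ) < (N : ℝ) / (N + 1) := by positivity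
      have ht : (0 : ℝ) < 1 / ((N : ℝ) + 1) := by positivity
      have hst : (N : ℝ) / (N + 1) + 1 / ((N : ℝ) + 1) = 1 := by field_simp
      have h2 := gam_pl hDm (hA (Fin.last N)).isClosed.measurableSet hC hs ht hst
        (fun x hx y hy => by
          obtain ⟨z, hz, rfl⟩ := hx
          have h3 := h (Fin.snoc z y) (fun j => by
            refine Fin.lastCases ?_ (fun i => ?_) j
            · rw [Fin.snoc_last]
              exact hy
            · rw [Fin.snoc_castSucc]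
              exact hz i (Set.mem_univ _))
          rw [Fin.sum_univ_castSucc] at h3
          simp only [Fin.snoc_castSucc, Fin.snoc_last] at h3
          convert h3 using 1
          simp only []
          rw [smul_smul, smul_add]
          congr 2
          · push_cast
            field_simp
          · push_cast
            rfl)
      refine le_trans ?_ h2
      calc a = a ^ ((N : ℝ) / (N + 1)) * a ^ (1 / ((N : ℝ) + 1)) := by
            rw [← ENNReal.rpow_add_of_nonneg _ _ hs.le ht.le, hst, ENNReal.rpow_one]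
        _ ≤ _ := mul_le_mul' (ENNReal.rpow_le_rpow h1 hs.le)
            (ENNReal.rpow_le_rpow (ha _) ht.le)

/-- the rotation `± g k`. -/
noncomputable def plgRot {c : ℕ} (g : E c ≃ₗᵢ[ℝ] E c) (s : Fin 2) : E c ≃ₗᵢ[ℝ] E c :=
  if s = 0 then g else g.trans (LinearIsometryEquiv.neg ℝ)

lemma plg_compact {c R : ℕ} (hR : 0 < R) (g : Fin R → (E c ≃ₗᵢ[ℝ] E c)) (U : Finset (E c))
    (hU : ∀ x : E c, (∀ u ∈ U, ⟪u, x⟫ = 0) → x = 0) (β : Fin R → E c → ℝ) (y : E c) :
    IsCompact {x | ∀ k, ∀ u ∈ U, |⟪(g k).symm u, x + y⟫| ≤ β k u} := by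
  refine Metric.isCompact_of_isClosed_isBounded ?_ ?_
  · simp only [Set.ofPred_forall]
    refine isClosed_iInter fun k => isClosed_iInter fun u => isClosed_iInter fun _ => ?_
    exact isClosed_le (by fun_prop) continuous_const
  · let L : E c →ₗ[ℝ] (U → ℝ) :=
      LinearMap.pi fun u => (innerSL ℝ ((g ⟨0, hR⟩).symm (u : E c))).toLinearMap
    have hL : ∀ x u, L x u = ⟪(g ⟨0, hR⟩).symm (u : E c), x⟫ := fun x u => rfl
    have hker : LinearMap.ker L = ⊥ := by
      rw [LinearMap.ker_eq_bot']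
      intro x hx
      have h1 : g ⟨0, hR⟩ x = 0 := hU _ fun u hu => by
        have h2 := congrFun hx ⟨u, hu⟩
        rw [hL] at h2
        rw [← (g ⟨0, hR⟩).symm.inner_map_map u (g ⟨0, hR⟩ x)]
        simpa using h2
      simpa using h1
    obtain ⟨K, hK, hanti⟩ := L.exists_antilipschitzWith hker
    refine (Metric.isBounded_iff_subset_closedBall (0 : E c)).2
      ⟨K * (∑ u : U, |β ⟨0, hR⟩ u|) + ‖y‖, fun x hx => ?_⟩
    have h1 := hanti.le_mul_dist (x + y) 0
    rw [dist_zero_right, map_zero, dist_zero_right] at h1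
    have h2 : ‖L (x + y)‖ ≤ ∑ u : U, |β ⟨0, hR⟩ u| := by
      refine (pi_norm_le_iff_of_nonneg (Finset.sum_nonneg fun _ _ => abs_nonneg _)).2 fun u => ?_
      rw [hL, Real.norm_eq_abs]
      refine (hx ⟨0, hR⟩ u u.2).trans ((le_abs_self _).trans ?_)
      exact Finset.single_le_sum (f := fun u : U => |β ⟨0, hR⟩ u|) (fun _ _ => abs_nonneg _)
        (Finset.mem_univ u)
    rw [Metric.mem_closedBall, dist_zero_right]
    have h3 : ‖x‖ ≤ ‖x + y‖ + ‖y‖ := by
      have := norm_sub_le (x + y) y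
      simpa using this
    have h4 : (K : ℝ) * ‖L (x + y)‖ ≤ K * ∑ u : U, |β ⟨0, hR⟩ u| :=
      mul_le_mul_of_nonneg_left h2 K.2
    linarith

/-- PROOF. `K = {x | ∀ k, ∀ u ∈ U, |⟪(g k).symm u, x + y⟫| ≤ β k u}` is closed and (by `hU`) bounded, so compact. Apply
`gam_mean` to the `2 R` sets `g k '' K` and `(-g k) '' K` (`gam_image`); for `x_k^± = ± g k (z_k^± - y)` the shift `y`
cancels in the mean. -/
theorem gam_rot {c R : ℕ} (hR : 0 < R) (g : Fin R → (E c ≃ₗᵢ[ℝ] E c)) (U : Finset (E c))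
    (hU : ∀ x : E c, (∀ u ∈ U, ⟪u, x⟫ = 0) → x = 0) (β : Fin R → E c → ℝ) (y : E c) :
    gam c {x | ∀ k, ∀ u ∈ U, |⟪(g k).symm u, x + y⟫| ≤ β k u} ≤
      gam c {x | ∀ u ∈ U, |⟪u, x⟫| ≤ (1 / (R : ℝ)) * ∑ k, β k u} := by
  have hK := plg_compact hR g U hU β y
  set K : Set (E c) := {x | ∀ k, ∀ u ∈ U, |⟪(g k).symm u, x + y⟫| ≤ β k u} with hKdef
  have hC : MeasurableSet {x : E c | ∀ u ∈ U, |⟪u, x⟫| ≤ (1 / (R : ℝ)) * ∑ k, β k u} := by
    refine IsClosed.measurableSet ?_
    simp only [Set.ofPred_forall]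
    refine isClosed_iInter fun u => isClosed_iInter fun _ => ?_
    exact isClosed_le (by fun_prop) continuous_const
  have hRR : (0 : ℝ) < R := by exact_mod_cast hR
  refine gam_mean (N := R * 2) (by omega)
    (A := fun j => plgRot (g (finProdFinEquiv.symm j).1) (finProdFinEquiv.symm j).2 '' K)
    (fun j => hK.image (LinearIsometryEquiv.continuous _)) hC (fun x hx => ?_)
    (fun j => (gam_image _ _).ge)
  choose z hz hzx using hx
  have e1 : ∑ j, x j = ∑ k : Fin R, g k (z (finProdFinEquiv (k, 0)) - z (finProdFinEquiv (k, 1))) := by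
    rw [← finProdFinEquiv.sum_comp, Fintype.sum_prod_type]
    refine Finset.sum_congr rfl fun k _ => ?_
    rw [Fin.sum_univ_two, ← hzx, ← hzx]
    simp only [Equiv.symm_apply_apply]
    rw [map_sub]
    simp [plgRot, sub_eq_add_neg]
  intro u hu
  rw [e1, real_inner_smul_right, inner_sum, abs_mul]
  have h1 : |∑ k : Fin R, ⟪u, g k (z (finProdFinEquiv (k, 0)) - z (finProdFinEquiv (k, 1)))⟫| ≤
      ∑ k : Fin R, 2 * β k u := by
    refine (Finset.abs_sum_le_sum_abs _ _).trans (Finset.sum_le_sum fun k _ => ?_)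
    have e2 : ⟪u, g k (z (finProdFinEquiv (k, 0)) - z (finProdFinEquiv (k, 1)))⟫ =
        ⟪(g k).symm u, z (finProdFinEquiv (k, 0)) + y⟫ -
          ⟪(g k).symm u, z (finProdFinEquiv (k, 1)) + y⟫ := by
      rw [← inner_sub_right, add_sub_add_right_eq_sub, ← (g k).symm.inner_map_map u]
      simp
    rw [e2]
    have a0 := hz (finProdFinEquiv (k, 0)) k u hu
    have a1 := hz (finProdFinEquiv (k, 1)) k u hu
    rw [abs_le] at a0 a1 ⊢
    constructor <;> linarith [a0.1, a0.2, a1.1, a1.2]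
  rw [← Finset.mul_sum] at h1
  have e3 : |1 / ((R * 2 : ℕ) : ℝ)| = 1 / (R * 2) := by
    rw [abs_of_nonneg (by positivity)]
    push_cast
    rfl
  rw [e3]
  calc 1 / ((R : ℝ) * 2) * _ ≤ 1 / ((R : ℝ) * 2) * (2 * ∑ k, β k u) :=
        mul_le_mul_of_nonneg_left h1 (by positivity)
    _ = _ := by field_simp

/-- finite nets of the sphere. -/
theorem exists_net {c : ℕ} {ε : ℝ} (hε : 0 < ε) : ∃ U : Finset (E c), (∀ u ∈ U, ‖u‖ = 1) ∧
    ∀ x : E c, ‖x‖ = 1 → ∃ u ∈ U, ‖u - x‖ ≤ ε := by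
  obtain ⟨t, ht, hf, hcov⟩ := (isCompact_sphere (0 : E c) 1).finite_cover_balls hε
  refine ⟨hf.toFinset, fun u hu => ?_, fun x hx => ?_⟩
  · have := ht (hf.mem_toFinset.1 hu)
    simpa using this
  · have hx' : x ∈ Metric.sphere (0 : E c) 1 := by simpa using hx
    obtain ⟨u, hu, hux⟩ := Set.mem_iUnion₂.1 (hcov hx')
    refine ⟨u, hf.mem_toFinset.2 hu, ?_⟩
    rw [Metric.mem_ball, dist_eq_norm, norm_sub_rev] at hux
    exact hux.le

/-- PROOF: for `x ≠ 0` take `u ∈ U` near `x / ‖x‖`. -/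
theorem net_ball {c : ℕ} {ε : ℝ} (hε1 : ε < 1) {U : Finset (E c)}
    (hU : ∀ x : E c, ‖x‖ = 1 → ∃ u ∈ U, ‖u - x‖ ≤ ε) {x : E c} {r : ℝ}
    (h : ∀ u ∈ U, |⟪u, x⟫| ≤ r) (hr : 0 ≤ r) : ‖x‖ ≤ r / (1 - ε) := by
  have h1 : 0 < 1 - ε := by linarith
  rw [le_div_iff₀ h1]
  by_cases hx : x = 0
  · subst hx
    simpa using hr
  · have hn : 0 < ‖x‖ := norm_pos_iff.2 hx
    obtain ⟨u, hu, hux⟩ := hU (‖x‖⁻¹ • x) (by
      rw [norm_smul, norm_inv, norm_norm, inv_mul_cancel₀ hn.ne'])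
    have h2 := (abs_le.1 (h u hu)).2
    have h3 : ⟪‖x‖⁻¹ • x, x⟫ = ‖x‖ := by
      rw [real_inner_smul_left, real_inner_self_eq_norm_sq]
      field_simp
    have h4 : |⟪u - ‖x‖⁻¹ • x, x⟫| ≤ ε * ‖x‖ :=
      (abs_real_inner_le_norm _ _).trans (mul_le_mul_of_nonneg_right hux hn.le)
    rw [inner_sub_left, h3] at h4
    have h5 := (abs_le.1 h4).1
    nlinarith

end Pool.Agent.H.MP_4bcbbd_co.F
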