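import Pool.Agent.H.MP_4bcbbd_co.h39f.GoodW
import Pool.Agent.H.MP_4bcbbd_co.h39f.Clt
import Pool.Agent.H.MP_4bcbbd_co.h39f.PLG

/-!
MP_4bcbbd_co, polytopes with few vertices: the probability of a robust cover for nearly optimal families.
-/

set_option autoImplicit false

namespace Pool.Agent.H.MP_4bcbbd_co.F

open scoped BigOperators RealInnerProductSpace Topology
open MeasureTheory Filter

/-- robust cover. -/
def RCov {c : ℕ} (τ : ℝ) (w : ℕ → E c) (B J A : Finset ℕ) : Prop :=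
  ∀ u : E c, |⟪u, sm w A (B \ J)⟫| ≤ (1 - τ) * ∑ i ∈ J, |⟪u, w i⟫| ∧
    (u ≠ 0 → 0 < ∑ i ∈ J, |⟪u, w i⟫|)

/-- PROOF. By homogeneity `u` is a unit vector, near a member `v` of the net: `∑ i ∈ J, |⟪u, w i⟫| ≥ ∑ i ∈ J, |⟪v, w i⟫| - ε ∑ i ∈ J, ‖w i‖`,
and `∑ i ∈ J, ‖w i‖ ≤ M`. -/
theorem rcov_of_net {c : ℕ} {τ ε a M : ℝ} {w : ℕ → E c} {B J A : Finset ℕ} {U : Finset (E c)}
    (hU : ∀ x : E c, ‖x‖ = 1 → ∃ u ∈ U, ‖u - x‖ ≤ ε)
    (hJ : ∑ i ∈ J, ‖w i‖ ≤ M) (ha : ∀ u ∈ U, a ≤ ∑ i ∈ J, |⟪u, w i⟫|)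
    (hε : 0 ≤ ε) (hpos : 0 < a - ε * M) (hτ : τ < 1)
    (hs : ‖sm w A (B \ J)‖ ≤ (1 - τ) * (a - ε * M)) : RCov τ w B J A := by
  intro u
  by_cases hu : u = 0
  · subst hu
    simp
  have hn : 0 < ‖u‖ := norm_pos_iff.2 hu
  have hx : ‖(‖u‖⁻¹ : ℝ) • u‖ = 1 := by
    rw [norm_smul, norm_inv, norm_norm, inv_mul_cancel₀ hn.ne']
  obtain ⟨v, hv, hvx⟩ := hU _ hx
  have h1 : a - ε * M ≤ ∑ i ∈ J, |⟪(‖u‖⁻¹ : ℝ) • u, w i⟫| := by
    have h2 : ∀ i ∈ J, |⟪v, w i⟫| ≤ |⟪(‖u‖⁻¹ : ℝ) • u, w i⟫| + ε * ‖w i‖ := by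
      intro i _
      have h3 : ⟪v, w i⟫ = ⟪(‖u‖⁻¹ : ℝ) • u, w i⟫ + ⟪v - (‖u‖⁻¹ : ℝ) • u, w i⟫ := by
        rw [← inner_add_left]
        congr 1
        abel
      rw [h3]
      refine (abs_add_le _ _).trans ?_
      have h4 := abs_real_inner_le_norm (v - (‖u‖⁻¹ : ℝ) • u) (w i)
      have h5 := mul_le_mul_of_nonneg_right hvx (norm_nonneg (w i))
      linarith
    have h6 := Finset.sum_le_sum h2
    rw [Finset.sum_add_distrib, ← Finset.mul_sum] at h6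
    have h7 := ha v hv
    have h8 := mul_le_mul_of_nonneg_left hJ hε
    linarith
  have h9 : ∑ i ∈ J, |⟪u, w i⟫| = ‖u‖ * ∑ i ∈ J, |⟪(‖u‖⁻¹ : ℝ) • u, w i⟫| := by
    rw [Finset.mul_sum]
    refine Finset.sum_congr rfl fun i _ => ?_
    rw [real_inner_smul_left, abs_mul, abs_inv, abs_norm, mul_inv_cancel_left₀ hn.ne']
  have h10 : ‖u‖ * (a - ε * M) ≤ ∑ i ∈ J, |⟪u, w i⟫| := by
    rw [h9]
    exact mul_le_mul_of_nonneg_left h1 hn.le
  refine ⟨?_, fun _ => lt_of_lt_of_le (mul_pos hn hpos) h10⟩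
  calc |⟪u, sm w A (B \ J)⟫| ≤ ‖u‖ * ‖sm w A (B \ J)‖ := abs_real_inner_le_norm _ _
    _ ≤ ‖u‖ * ((1 - τ) * (a - ε * M)) := mul_le_mul_of_nonneg_left hs hn.le
    _ = (1 - τ) * (‖u‖ * (a - ε * M)) := by ring
    _ ≤ _ := mul_le_mul_of_nonneg_left h10 (by linarith)

theorem lf_ex_sum {κ : Type} (K : Finset κ) (B : Finset ℕ) (m : ℕ)
    (f : κ → Finset ℕ → Finset ℕ → ℝ) :
    ex B m (fun J A => ∑ k ∈ K, f k J A) = ∑ k ∈ K, ex B m (f k) := by
  unfold ex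
  rw [← Finset.sum_div]
  congr 1
  calc ∑ J ∈ B.powersetCard m, ∑ A ∈ B.powerset, ∑ k ∈ K, f k J A
      = ∑ J ∈ B.powersetCard m, ∑ k ∈ K, ∑ A ∈ B.powerset, f k J A :=
        Finset.sum_congr rfl fun J _ => Finset.sum_comm
    _ = _ := Finset.sum_comm

theorem lf_norm_sq {c : ℕ} (x : E c) :
    ‖x‖ ^ 2 = ∑ k : Fin c, ⟪(EuclideanSpace.basisFun (Fin c) ℝ) k, x⟫ ^ 2 := by
  rw [← (EuclideanSpace.basisFun (Fin c) ℝ).sum_sq_norm_inner_right x]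
  exact Finset.sum_congr rfl fun k _ => by rw [Real.norm_eq_abs, sq_abs]

theorem lf_ex_norm {c : ℕ} {w : ℕ → E c} {B : Finset ℕ} {m : ℕ} (hI : Iso w B) (hm : m ≤ B.card) :
    ex B m (fun J A => ‖sm w A J‖ ^ 2) = c * ((m : ℝ) / B.card) := by
  have h1 : (fun J A : Finset ℕ => ‖sm w A J‖ ^ 2) =
      fun J A => ∑ k ∈ (Finset.univ : Finset (Fin c)),
        ⟪(EuclideanSpace.basisFun (Fin c) ℝ) k, sm w A J⟫ ^ 2 := by
    funext J A
    exact lf_norm_sq _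
  rw [h1, lf_ex_sum]
  have h2 : ∀ k ∈ (Finset.univ : Finset (Fin c)),
      ex B m (fun J A => ⟪(EuclideanSpace.basisFun (Fin c) ℝ) k, sm w A J⟫ ^ 2) =
        (m : ℝ) / B.card := by
    intro k _
    rw [ex_sm_J hm w, hI, (EuclideanSpace.basisFun (Fin c) ℝ).norm_eq_one]
    ring
  rw [Finset.sum_congr rfl h2]
  simp

theorem lf_sm_split {c : ℕ} (w : ℕ → E c) {A B J : Finset ℕ} (h : J ⊆ B) :
    sm w A B = sm w A (B \ J) + sm w A J := by
  unfold sm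
  exact (Finset.sum_sdiff h).symm

/-- PROOF. `rcov_of_net`; `‖sm w A (B \ J)‖ ≤ ‖sm w A B‖ + ‖sm w A J‖`. The exceptional pairs: `ε ≤ ‖sm w A J‖` (Markov for
`‖sm w A J‖ ^ 2`, mean `c m / |B|`: `ex_sm_J` over an orthonormal basis) and `∑ i ∈ J, |⟪u, w i⟫| < a` for some `u ∈ U`
(`ex_J_var`). -/
theorem pr_rcov_ge {c : ℕ} {τ ε a M : ℝ} {w : ℕ → E c} {B : Finset ℕ} {m : ℕ} (hI : Iso w B)
    (hm : m ≤ B.card) {U : Finset (E c)} (hU1 : ∀ u ∈ U, ‖u‖ = 1)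
    (hU : ∀ x : E c, ‖x‖ = 1 → ∃ u ∈ U, ‖u - x‖ ≤ ε) (hε : 0 < ε)
    (hM0 : 0 ≤ M) (hM : ∀ i ∈ B, (m : ℝ) * ‖w i‖ ≤ M)
    (ha : ∀ u ∈ U, a + ε ≤ (m : ℝ) / B.card * ∑ i ∈ B, |⟪u, w i⟫|)
    (hpos : 0 < a - ε * M) (hτ : τ < 1) :
    (lawM w B (Metric.closedBall 0 ((1 - τ) * (a - ε * M) - ε))).toReal -
      (c + U.card) * ((m : ℝ) / B.card / ε ^ 2) ≤ pr B m (RCov τ w B) := by
  classical
  have hε2 : 0 < ε ^ 2 := by positivity
  rw [lawM_apply w B Metric.isClosed_closedBall.measurableSet, ← pr_A hm]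
  have hcov : pr B m (fun _ A => sm w A B ∈
        Metric.closedBall (0 : E c) ((1 - τ) * (a - ε * M) - ε)) ≤
      pr B m (fun J A => RCov τ w B J A ∨ (ε ^ 2 ≤ ‖sm w A J‖ ^ 2 ∨ ∃ u ∈ U,
        ε ^ 2 ≤ (∑ i ∈ J, |⟪u, w i⟫| - (m : ℝ) / B.card * ∑ i ∈ B, |⟪u, w i⟫|) ^ 2)) := by
    refine pr_mono fun J hJ A _ h => ?_
    rw [Finset.mem_powersetCard] at hJ
    by_cases h1 : ε ^ 2 ≤ ‖sm w A J‖ ^ 2
    · exact Or.inr (Or.inl h1)
    by_cases h2 : ∃ u ∈ U,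
        ε ^ 2 ≤ (∑ i ∈ J, |⟪u, w i⟫| - (m : ℝ) / B.card * ∑ i ∈ B, |⟪u, w i⟫|) ^ 2
    · exact Or.inr (Or.inr h2)
    left
    have h1' : ‖sm w A J‖ < ε := by
      by_contra hcon
      exact h1 (pow_le_pow_left₀ hε.le (not_lt.1 hcon) 2)
    refine rcov_of_net hU ?_ ?_ hε.le hpos hτ ?_
    · rcases Nat.eq_zero_or_pos m with h0 | h0
      · have : J = ∅ := Finset.card_eq_zero.1 (hJ.2.trans h0)
        rw [this]
        simpa using hM0
      · have h3 : ∑ i ∈ J, (m : ℝ) * ‖w i‖ ≤ ∑ i ∈ J, M :=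
          Finset.sum_le_sum fun i hi => hM i (hJ.1 hi)
        rw [← Finset.mul_sum, Finset.sum_const, nsmul_eq_mul, hJ.2] at h3
        exact le_of_mul_le_mul_left h3 (by exact_mod_cast h0)
    · intro u hu
      by_contra hcon
      push Not at hcon
      apply h2
      refine ⟨u, hu, ?_⟩
      have h3 := ha u hu
      have h4 : ε ≤ (m : ℝ) / B.card * ∑ i ∈ B, |⟪u, w i⟫| - ∑ i ∈ J, |⟪u, w i⟫| := by linarith
      calc ε ^ 2 ≤ ((m : ℝ) / B.card * ∑ i ∈ B, |⟪u, w i⟫| - ∑ i ∈ J, |⟪u, w i⟫|) ^ 2 :=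
            pow_le_pow_left₀ hε.le h4 2
        _ = _ := by ring
    · rw [Metric.mem_closedBall, dist_zero_right] at h
      have h3 : sm w A (B \ J) = sm w A B - sm w A J := by
        rw [lf_sm_split w hJ.1]
        abel
      rw [h3]
      refine (norm_sub_le _ _).trans ?_
      linarith
  have hor1 := pr_or B m (RCov τ w B) (fun J A => ε ^ 2 ≤ ‖sm w A J‖ ^ 2 ∨ ∃ u ∈ U,
        ε ^ 2 ≤ (∑ i ∈ J, |⟪u, w i⟫| - (m : ℝ) / B.card * ∑ i ∈ B, |⟪u, w i⟫|) ^ 2)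
  have hor2 := pr_or B m (fun J A => ε ^ 2 ≤ ‖sm w A J‖ ^ 2) (fun J _ => ∃ u ∈ U,
        ε ^ 2 ≤ (∑ i ∈ J, |⟪u, w i⟫| - (m : ℝ) / B.card * ∑ i ∈ B, |⟪u, w i⟫|) ^ 2)
  have hex := pr_exists U B m (fun u J _ =>
        ε ^ 2 ≤ (∑ i ∈ J, |⟪u, w i⟫| - (m : ℝ) / B.card * ∑ i ∈ B, |⟪u, w i⟫|) ^ 2)
  have hm1 : pr B m (fun J A => ε ^ 2 ≤ ‖sm w A J‖ ^ 2) ≤ c * ((m : ℝ) / B.card) / ε ^ 2 := by
    refine (pr_markov hε2 fun J _ A _ => sq_nonneg _).trans ?_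
    rw [lf_ex_norm hI hm]
  have hm2 : ∀ u ∈ U, pr B m (fun J _ =>
        ε ^ 2 ≤ (∑ i ∈ J, |⟪u, w i⟫| - (m : ℝ) / B.card * ∑ i ∈ B, |⟪u, w i⟫|) ^ 2) ≤
      (m : ℝ) / B.card / ε ^ 2 := by
    intro u hu
    refine (pr_markov hε2 fun J _ A _ => sq_nonneg _).trans ?_
    refine div_le_div_of_nonneg_right ?_ hε2.le
    refine (ex_J_var hm fun i => |⟪u, w i⟫|).trans ?_
    have h3 : ∑ i ∈ B, |⟪u, w i⟫| ^ 2 = 1 := by
      have h4 : ∑ i ∈ B, |⟪u, w i⟫| ^ 2 = ∑ i ∈ B, ⟪u, w i⟫ ^ 2 :=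
        Finset.sum_congr rfl fun i _ => sq_abs _
      rw [h4, hI, hU1 u hu]
      norm_num
    rw [h3, mul_one]
  have hsum := Finset.sum_le_sum hm2
  rw [Finset.sum_const, nsmul_eq_mul] at hsum
  have hfin : (c + U.card) * ((m : ℝ) / B.card / ε ^ 2) =
      c * ((m : ℝ) / B.card) / ε ^ 2 + U.card * ((m : ℝ) / B.card / ε ^ 2) := by ring
  rw [hfin]
  linarith

theorem lf_gam {c : ℕ} (hc : 1 ≤ c) (μ : ℝ) {ε : ℝ} (hε : 0 < ε) :
    ∃ θ : ℝ, 0 < θ ∧ psi c μ - ε ≤ (gam c (Metric.ball 0 (rho c * μ - θ))).toReal := by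
  have h1 := (gam_ball_cont hc).tendsto (rho c * μ)
  have h2 : Tendsto (fun θ : ℝ => rho c * μ - θ) (𝓝[>] 0) (𝓝 (rho c * μ)) := by
    have h3 : Tendsto (fun θ : ℝ => rho c * μ - θ) (𝓝 0) (𝓝 (rho c * μ - 0)) :=
      (continuous_const.sub continuous_id).tendsto 0
    rw [sub_zero] at h3
    exact h3.mono_left nhdsWithin_le_nhds
  have h4 := (h1.comp h2).eventually (lt_mem_nhds (show psi c μ - ε <
    (gam c (Metric.closedBall 0 (rho c * μ))).toReal by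
      unfold psi
      linarith))
  have h5 : ∀ᶠ θ : ℝ in 𝓝[>] 0, 0 < θ := self_mem_nhdsWithin
  obtain ⟨θ, hθ1, hθ2⟩ := (h4.and h5).exists
  refine ⟨θ, hθ2, ?_⟩
  rw [gam_ball_open hc]
  exact le_of_lt hθ1

theorem lf_eta {ρ μ θ K : ℝ} (hρ : 0 < ρ) (hμ : 0 < μ) (hθ : 0 < θ) :
    ∃ η : ℝ, 0 < η ∧ η < 1 ∧ η < ρ ∧
      ρ * μ - θ ≤ (1 - η) * ((μ - η) * (ρ - η) - η - η * K) - η ∧
      0 < (μ - η) * (ρ - η) - η - η * K := by
  have h1 : Tendsto (fun η : ℝ => (1 - η) * ((μ - η) * (ρ - η) - η - η * K) - η) (𝓝[>] 0)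
      (𝓝 ((1 - 0) * ((μ - 0) * (ρ - 0) - 0 - 0 * K) - 0)) := by
    have : Continuous fun η : ℝ => (1 - η) * ((μ - η) * (ρ - η) - η - η * K) - η := by fun_prop
    exact (this.tendsto 0).mono_left nhdsWithin_le_nhds
  have h2 : Tendsto (fun η : ℝ => (μ - η) * (ρ - η) - η - η * K) (𝓝[>] 0)
      (𝓝 ((μ - 0) * (ρ - 0) - 0 - 0 * K)) := by
    have : Continuous fun η : ℝ => (μ - η) * (ρ - η) - η - η * K := by fun_prop
    exact (this.tendsto 0).mono_left nhdsWithin_le_nhds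
  have h3 : Tendsto (fun η : ℝ => η) (𝓝[>] 0) (𝓝 0) := tendsto_id.mono_left nhdsWithin_le_nhds
  have e1 := h1.eventually (lt_mem_nhds (show ρ * μ - θ <
    (1 - 0) * ((μ - 0) * (ρ - 0) - 0 - 0 * K) - 0 by nlinarith))
  have e2 := h2.eventually (lt_mem_nhds (show 0 < (μ - 0) * (ρ - 0) - 0 - 0 * K by
    have := mul_pos hμ hρ
    linarith))
  have e3 := h3.eventually (gt_mem_nhds (show (0 : ℝ) < 1 by norm_num))
  have e4 := h3.eventually (gt_mem_nhds hρ)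
  have e5 : ∀ᶠ θ : ℝ in 𝓝[>] 0, 0 < θ := self_mem_nhdsWithin
  obtain ⟨η, h⟩ := (e1.and (e2.and (e3.and (e4.and e5)))).exists
  exact ⟨η, h.2.2.2.2, h.2.2.1, h.2.2.2.1, h.1.le, h.2.1⟩

/-- PROOF: `exists_goodW`, `pr_rcov_ge`, `clt_open`; sequences (by contradiction) or directly. The vertex condition:
`|⟪u, w i⟫| ≤ 2 √(c/n) ‖u‖`, `∑ j, |⟪u, w j⟫| ≥ (rho c / 2) √n ‖u‖`. -/
theorem lowerFr {c : ℕ} (hc : 1 ≤ c) {μ ε : ℝ} (hμ : 0 < μ) (hε : 0 < ε) :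
    ∃ (N : ℕ) (δ τ : ℝ), 0 < δ ∧ 0 < τ ∧ τ < 1 ∧ ∀ n m : ℕ, N ≤ n →
      |(m : ℝ) / Real.sqrt n - μ| ≤ δ → ∃ w : ℕ → E c,
        (∀ i ∈ Finset.range n, RCov (1 / 2) w (Finset.range n) ((Finset.range n).erase i) {i}) ∧
        psi c μ - ε ≤ pr (Finset.range n) m (RCov τ w (Finset.range n)) := by
  have hρ := rho_pos hc
  obtain ⟨θ, hθ, hgam⟩ := lf_gam hc μ (half_pos hε)
  obtain ⟨η, hη, hη1, hηρ, hf, hg⟩ := lf_eta (ρ := rho c) (μ := μ) (θ := θ) (K := 2 * Real.sqrt c * (μ + 1))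
    hρ hμ hθ
  obtain ⟨U, hU1, hU⟩ := exists_net (c := c) hη
  obtain ⟨N₁, hN₁⟩ := exists_goodW hc hη
  choose! w hw using hN₁
  set a : ℝ := (μ - η) * (rho c - η) - η with ha
  set M : ℝ := 2 * Real.sqrt c * (μ + 1) with hM
  have hM0 : 0 ≤ M := by positivity
  have hδ : Tendsto (fun k : ℕ => 2 * Real.sqrt (c / ((N₁ + k : ℕ) : ℝ))) atTop (𝓝 0) := by
    have h1 : Tendsto (fun k : ℕ => (c : ℝ) / ((N₁ + k : ℕ) : ℝ)) atTop (𝓝 0) := by
      refine Tendsto.div_atTop tendsto_const_nhds ?_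
      refine tendsto_natCast_atTop_atTop.comp ?_
      exact tendsto_atTop_mono (fun k => Nat.le_add_left k N₁) tendsto_id
    have h2 := (Real.continuous_sqrt.tendsto 0).comp h1
    rw [Real.sqrt_zero] at h2
    simpa using h2.const_mul 2
  have hclt := clt_open (w := fun k => w (N₁ + k)) (B := fun k => Finset.range (N₁ + k))
    (fun k => (hw _ (Nat.le_add_right _ _)).1) hδ (fun k => (hw _ (Nat.le_add_right _ _)).2.1)
    (G := Metric.ball 0 (rho c * μ - θ)) Metric.isOpen_ball (ε := ε / 4) (by linarith)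
  obtain ⟨K, hK⟩ := eventually_atTop.1 hclt
  set C : ℝ := 1 + (μ + 1) + 6 * Real.sqrt c / (rho c - η) +
    4 * ((c + U.card) * (μ + 1)) / (η ^ 2 * ε) with hC
  have hρη : 0 < rho c - η := by linarith
  have hC1 : 0 ≤ 6 * Real.sqrt c / (rho c - η) := by positivity
  have hC2 : 0 ≤ 4 * ((c + U.card) * (μ + 1)) / (η ^ 2 * ε) := by positivity
  refine ⟨N₁ + K + ⌈C ^ 2⌉₊, η, η, hη, hη, hη1, fun n m hn hmn => ?_⟩
  have hnN : N₁ ≤ n := by omega
  have hnK : K ≤ n - N₁ := by omega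
  have hnC : C ^ 2 ≤ (n : ℝ) := by
    refine (Nat.le_ceil (C ^ 2)).trans ?_
    exact_mod_cast (show ⌈C ^ 2⌉₊ ≤ n by omega)
  have hCn : C ≤ Real.sqrt n := Real.le_sqrt_of_sq_le hnC
  have hs1 : 1 ≤ Real.sqrt n := by linarith
  have hs0 : 0 < Real.sqrt n := by linarith
  have hss : Real.sqrt n * Real.sqrt n = n := Real.mul_self_sqrt (Nat.cast_nonneg n)
  have hn0 : (0 : ℝ) < n := by
    rw [← hss]
    exact mul_pos hs0 hs0
  have hsc : 0 ≤ Real.sqrt c := Real.sqrt_nonneg _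
  have h6 : 6 * Real.sqrt c < Real.sqrt n * (rho c - η) := by
    rw [← div_lt_iff₀ hρη]
    linarith
  obtain ⟨hI, hwn, hws⟩ := hw n hnN
  have hsq : Real.sqrt ((c : ℝ) / n) = Real.sqrt c / Real.sqrt n :=
    Real.sqrt_div (Nat.cast_nonneg c) _
  refine ⟨w n, ?_, ?_⟩
  · intro i hi u
    have hset : Finset.range n \ (Finset.range n).erase i = {i} := by
      ext j
      rw [Finset.mem_sdiff, Finset.mem_erase, Finset.mem_singleton]
      constructor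
      · intro h
        by_contra hcon
        exact h.2 ⟨hcon, h.1⟩
      · rintro rfl
        exact ⟨hi, fun h => h.1 rfl⟩
    have hsm : sm (w n) {i} (Finset.range n \ (Finset.range n).erase i) = w n i := by
      rw [hset]
      unfold sm sg
      simp
    have hi1 : |⟪u, w n i⟫| ≤ 2 * Real.sqrt c * ‖u‖ := by
      refine (abs_real_inner_le_norm u (w n i)).trans ?_
      have h1 := hwn i hi
      rw [hsq] at h1
      have h2 : Real.sqrt c / Real.sqrt n ≤ Real.sqrt c := div_le_self hsc hs1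
      have h3 : ‖w n i‖ ≤ 2 * Real.sqrt c := by linarith
      calc ‖u‖ * ‖w n i‖ ≤ ‖u‖ * (2 * Real.sqrt c) := mul_le_mul_of_nonneg_left h3 (norm_nonneg u)
        _ = _ := by ring
    have hsplit := Finset.add_sum_erase (Finset.range n) (fun j => |⟪u, w n j⟫|) hi
    have hall := hws u
    have h7 : 6 * Real.sqrt c * ‖u‖ ≤ (rho c - η) * Real.sqrt n * ‖u‖ := by
      refine mul_le_mul_of_nonneg_right ?_ (norm_nonneg u)
      rw [mul_comm (rho c - η)]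
      exact h6.le
    refine ⟨?_, ?_⟩
    · rw [hsm]
      linarith
    · intro hu
      have h8 : 6 * Real.sqrt c * ‖u‖ < (rho c - η) * Real.sqrt n * ‖u‖ := by
        refine mul_lt_mul_of_pos_right ?_ (norm_pos_iff.2 hu)
        rw [mul_comm (rho c - η)]
        exact h6
      have h9 : 0 ≤ Real.sqrt c * ‖u‖ := mul_nonneg hsc (norm_nonneg u)
      linarith
  · rw [abs_le] at hmn
    have hm1 : (m : ℝ) / Real.sqrt n ≤ μ + 1 := by linarith
    have hmn' : (m : ℝ) / n = (m : ℝ) / Real.sqrt n / Real.sqrt n := by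
      rw [div_div, hss]
    have hm2 : (m : ℝ) ≤ (μ + 1) * Real.sqrt n := by
      rw [div_le_iff₀ hs0] at hm1
      exact hm1
    have hmle : m ≤ (Finset.range n).card := by
      rw [Finset.card_range]
      have h1 : (m : ℝ) ≤ n := by
        refine hm2.trans ?_
        calc (μ + 1) * Real.sqrt n ≤ Real.sqrt n * Real.sqrt n :=
              mul_le_mul_of_nonneg_right (by linarith) hs0.le
          _ = n := hss
      exact_mod_cast h1
    have hmain := pr_rcov_ge (τ := η) (ε := η) (a := a) (M := M) (w := w n) (B := Finset.range n)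
      (m := m) hI hmle hU1 hU hη hM0 ?_ ?_ hg hη1
    · rw [Finset.card_range] at hmain
      have h1 := hK (n - N₁) hnK
      rw [Nat.add_sub_cancel' hnN] at h1
      have h2 : (lawM (w n) (Finset.range n) (Metric.ball 0 (rho c * μ - θ))).toReal ≤
          (lawM (w n) (Finset.range n)
            (Metric.closedBall 0 ((1 - η) * (a - η * M) - η))).toReal := by
        refine ENNReal.toReal_mono (measure_ne_top _ _) (measure_mono ?_)
        exact Metric.ball_subset_closedBall.trans (Metric.closedBall_subset_closedBall hf)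
      have h3 : (c + U.card : ℝ) * ((m : ℝ) / n / η ^ 2) ≤ ε / 4 := by
        have h4 : (m : ℝ) / n ≤ (μ + 1) / Real.sqrt n := by
          rw [hmn']
          exact div_le_div_of_nonneg_right hm1 hs0.le
        have h5 : 4 * ((c + U.card) * (μ + 1)) / (η ^ 2 * ε) ≤ Real.sqrt n := by linarith
        have hη2 : 0 < η ^ 2 := by positivity
        rw [div_le_iff₀ (by positivity)] at h5
        calc (c + U.card : ℝ) * ((m : ℝ) / n / η ^ 2) ≤
              (c + U.card : ℝ) * ((μ + 1) / Real.sqrt n / η ^ 2) := by gcongr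
          _ = (c + U.card : ℝ) * (μ + 1) / (Real.sqrt n * η ^ 2) := by
              field_simp
          _ ≤ ε / 4 := by
              rw [div_le_iff₀ (by positivity)]
              linarith
      linarith
    · intro i hi
      have h1 := hwn i hi
      rw [hsq] at h1
      calc (m : ℝ) * ‖w n i‖ ≤ m * (2 * (Real.sqrt c / Real.sqrt n)) :=
            mul_le_mul_of_nonneg_left h1 (Nat.cast_nonneg m)
        _ = 2 * Real.sqrt c * ((m : ℝ) / Real.sqrt n) := by ring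
        _ ≤ 2 * Real.sqrt c * (μ + 1) := mul_le_mul_of_nonneg_left hm1 (by positivity)
    · intro u hu
      rw [Finset.card_range]
      have h1 := hws u
      rw [hU1 u hu, mul_one] at h1
      have h2 : (m : ℝ) / n * ((rho c - η) * Real.sqrt n) ≤
          (m : ℝ) / n * ∑ i ∈ Finset.range n, |⟪u, w n i⟫| :=
        mul_le_mul_of_nonneg_left h1 (by positivity)
      have h3 : (m : ℝ) / n * ((rho c - η) * Real.sqrt n) = (m : ℝ) / Real.sqrt n * (rho c - η) := by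
        rw [hmn']
        field_simp
      have h4 : (μ - η) * (rho c - η) ≤ (m : ℝ) / Real.sqrt n * (rho c - η) :=
        mul_le_mul_of_nonneg_right (by linarith) hρη.le
      linarith

end Pool.Agent.H.MP_4bcbbd_co.F
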