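import Pool.Agent.H.MP_4bcbbd_co.h39f.Gauss
import Pool.Agent.H.MP_4bcbbd_co.h30.GamEq
import Pool.Agent.H.MP_4bcbbd_co.h30.Rot

/-!
MP_4bcbbd_co, polytopes with few vertices: finite families of rotations which are nearly equidistributed.
-/

set_option autoImplicit false

namespace Pool.Agent.H.MP_4bcbbd_co.F

open scoped BigOperators RealInnerProductSpace
open MeasureTheory

/-- the mean of `|⟪g k u, w⟫|`. -/
noncomputable def av1 {c R : ℕ} (g : Fin R → (E c ≃ₗᵢ[ℝ] E c)) (u w : E c) : ℝ :=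
  (1 / (R : ℝ)) * ∑ k, |⟪g k u, w⟫|

/-- the mean of `⟪g k u, w⟫ ^ 2`. -/
noncomputable def av2 {c R : ℕ} (g : Fin R → (E c ≃ₗᵢ[ℝ] E c)) (u w : E c) : ℝ :=
  (1 / (R : ℝ)) * ∑ k, ⟪g k u, w⟫ ^ 2

lemma rot_kap {c : ℕ} (hc : 1 ≤ c) : H4bcRot.kap c = kap c := by
  have h1 := kap_int_norm hc
  have h2 := int_norm_pos hc
  rw [gam_eq] at h1 h2
  rw [H4bcRot.kap, div_eq_iff h2.ne']
  exact h1.symm

theorem exists_rot {c : ℕ} (hc : 1 ≤ c) {ε : ℝ} (hε : 0 < ε) :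
    ∃ (R : ℕ) (_ : 0 < R) (g : Fin R → (E c ≃ₗᵢ[ℝ] E c)), ∀ u w : E c,
      |av1 g u w - kap c * (‖u‖ * ‖w‖)| ≤ ε * (‖u‖ * ‖w‖) ∧
      |av2 g u w - (1 / (c : ℝ)) * (‖u‖ * ‖w‖) ^ 2| ≤ ε * (‖u‖ * ‖w‖) ^ 2 := by
  obtain ⟨g, hg⟩ := H4bcRot.rot_seq c hc
  obtain ⟨N, hN⟩ := hg ε hε
  obtain ⟨h1, h2⟩ := hN (N + 1) (by omega)
  refine ⟨N + 1, by omega, fun k => g k, fun u w => ⟨?_, ?_⟩⟩
  · have h := h1 u w
    rw [rot_kap hc, Finset.sum_range] at h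
    rw [av1, one_div, inv_mul_eq_div]
    exact h
  · have h := h2 u w
    rw [Finset.sum_range] at h
    rw [av2, one_div, inv_mul_eq_div, mul_pow, one_div, inv_mul_eq_div]
    exact h

theorem rot_const (c : ℕ) {ε : ℝ} (hε : 0 < ε) :
    ∃ (R : ℕ) (_ : 0 < R) (g : Fin R → (E c ≃ₗᵢ[ℝ] E c)),
      ∀ u u' w : E c, ‖u‖ = 1 → ‖u'‖ = 1 → ‖w‖ = 1 →
        |av1 g u w - av1 g u' w| ≤ ε ∧ |av2 g u w - av2 g u' w| ≤ ε := by
  rcases Nat.eq_zero_or_pos c with rfl | hc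
  · refine ⟨1, by omega, fun _ => LinearIsometryEquiv.refl ℝ _, fun u u' w hu _ _ => ?_⟩
    rw [Subsingleton.elim u 0, norm_zero] at hu
    norm_num at hu
  · obtain ⟨R, hR, g, hg⟩ := exists_rot hc (half_pos hε)
    refine ⟨R, hR, g, fun u u' w hu hu' hw => ?_⟩
    obtain ⟨a1, a2⟩ := hg u w
    obtain ⟨b1, b2⟩ := hg u' w
    rw [hu, hw] at a1 a2
    rw [hu', hw] at b1 b2
    rw [abs_le] at a1 a2 b1 b2
    constructor <;> rw [abs_le] <;> constructor <;>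
      nlinarith [a1.1, a1.2, a2.1, a2.2, b1.1, b1.2, b2.1, b2.2]

end Pool.Agent.H.MP_4bcbbd_co.F
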