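import Pool.Agent.H.MP_4bcbbd_co.h39f.Clt
import Pool.Agent.H.MP_4bcbbd_co.h39f.PLG
import Pool.Agent.H.MP_4bcbbd_co.h39f.Rot
import Pool.Agent.H.MP_4bcbbd_co.h39f.Norm

/-!
MP_4bcbbd_co, polytopes with few vertices: the upper bound for isotropic families of small vectors.
-/

set_option autoImplicit false

namespace Pool.Agent.H.MP_4bcbbd_co.F

open scoped BigOperators RealInnerProductSpace Topology
open MeasureTheory Filter

lemma nd_sm_split {c : ℕ} (w : ℕ → E c) (A : Finset ℕ) {J B : Finset ℕ} (h : J ⊆ B) :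
    sm w A B = sm w A (B \ J) + sm w A J := by
  unfold sm
  exact (Finset.sum_sdiff h).symm

lemma nd_closed {c : ℕ} (D : Finset (E c)) (y : E c) (b : E c → ℝ) :
    IsClosed {x : E c | ∀ v ∈ D, |⟪v, x + y⟫| ≤ b v} := by
  have : {x : E c | ∀ v ∈ D, |⟪v, x + y⟫| ≤ b v} = ⋂ v ∈ D, {x : E c | |⟪v, x + y⟫| ≤ b v} := by
    ext x
    simp
  rw [this]
  refine isClosed_iInter fun v => isClosed_iInter fun _ => ?_
  exact isClosed_le (by fun_prop) continuous_const

/-- Reduction to finitely many directions. PROOF: `Cov` at `u = v` gives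
`|⟪v, y + sm w A B⟫| ≤ |⟪v, sm w A J⟫| + ∑ i ∈ J, |⟪v, w i⟫|`; Chebyshev for both terms (`ex_sm_J`, `ex_J_var` with
`a i = |⟪v, w i⟫|`), union bound over `v ∈ D`. -/
theorem fr_le_dirs {c : ℕ} {w : ℕ → E c} {B : Finset ℕ} (hI : Iso w B) (y : E c) {m : ℕ}
    (hm : m ≤ B.card) (D : Finset (E c)) (hD : ∀ v ∈ D, ‖v‖ = 1) {ε : ℝ} (hε : 0 < ε) :
    fr w B y m ≤ (lawM w B {x | ∀ v ∈ D, |⟪v, x + y⟫| ≤
        (m : ℝ) / B.card * ∑ i ∈ B, |⟪v, w i⟫| + 2 * ε}).toReal +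
      2 * D.card * ((m : ℝ) / B.card / ε ^ 2) := by
  classical
  set b : E c → ℝ := fun v => (m : ℝ) / B.card * ∑ i ∈ B, |⟪v, w i⟫| + 2 * ε with hb
  have hmeas : MeasurableSet {x : E c | ∀ v ∈ D, |⟪v, x + y⟫| ≤ b v} :=
    (nd_closed D y b).measurableSet
  have e1 : (lawM w B {x | ∀ v ∈ D, |⟪v, x + y⟫| ≤ b v}).toReal =
      pr B m (fun _ A => ∀ v ∈ D, |⟪v, sm w A B + y⟫| ≤ b v) := by
    rw [lawM_apply w B hmeas, pr_A hm]
    congr 2
  have hε2 : 0 < ε ^ 2 := by positivity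
  have e2 : pr B m (fun J A => ∃ v ∈ D, ε ^ 2 ≤ ⟪v, sm w A J⟫ ^ 2) ≤
      D.card * ((m : ℝ) / B.card / ε ^ 2) := by
    refine le_trans (pr_exists D B m _) ?_
    rw [← nsmul_eq_mul]
    refine Finset.sum_le_card_nsmul _ _ _ fun v hv => ?_
    refine le_trans (pr_markov hε2 fun J _ A _ => sq_nonneg _) ?_
    rw [ex_sm_J hm, hI v, hD v hv]
    simp
  have e3 : pr B m (fun J _ => ∃ v ∈ D, ε ^ 2 ≤ (∑ i ∈ J, |⟪v, w i⟫| -
      (m : ℝ) / B.card * ∑ i ∈ B, |⟪v, w i⟫|) ^ 2) ≤ D.card * ((m : ℝ) / B.card / ε ^ 2) := by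
    refine le_trans (pr_exists D B m _) ?_
    rw [← nsmul_eq_mul]
    refine Finset.sum_le_card_nsmul _ _ _ fun v hv => ?_
    refine le_trans (pr_markov hε2 fun J _ A _ => sq_nonneg _) ?_
    refine div_le_div_of_nonneg_right ?_ hε2.le
    refine le_trans (ex_J_var hm fun i => |⟪v, w i⟫|) ?_
    have h1 : ∑ i ∈ B, |⟪v, w i⟫| ^ 2 = 1 := by
      have h2 : ∑ i ∈ B, |⟪v, w i⟫| ^ 2 = ∑ i ∈ B, ⟪v, w i⟫ ^ 2 :=
        Finset.sum_congr rfl fun i _ => sq_abs _
      rw [h2, hI v, hD v hv, one_pow]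
    rw [h1, mul_one]
  have e4 : fr w B y m ≤ pr B m (fun J A => (∀ v ∈ D, |⟪v, sm w A B + y⟫| ≤ b v) ∨
      ((∃ v ∈ D, ε ^ 2 ≤ ⟪v, sm w A J⟫ ^ 2) ∨ (∃ v ∈ D, ε ^ 2 ≤ (∑ i ∈ J, |⟪v, w i⟫| -
      (m : ℝ) / B.card * ∑ i ∈ B, |⟪v, w i⟫|) ^ 2))) := by
    unfold fr
    refine pr_mono fun J hJ A hA hC => ?_
    by_contra hcon
    push Not at hcon
    obtain ⟨⟨v, hv, h1⟩, h2, h3⟩ := hcon
    have h2' := abs_lt_of_sq_lt_sq (h2 v hv) hε.le
    have h3' := abs_lt_of_sq_lt_sq (h3 v hv) hε.le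
    have hv0 : v ≠ 0 := by
      rintro rfl
      have := hD 0 hv
      simp at this
    have h4 := hC v hv0
    have hJB := (Finset.mem_powersetCard.1 hJ).1
    have h5 : ⟪v, sm w A B + y⟫ = ⟪v, y + sm w A (B \ J)⟫ + ⟪v, sm w A J⟫ := by
      rw [nd_sm_split w A hJB, inner_add_right, inner_add_right, inner_add_right]
      ring
    have h6 : |⟪v, sm w A B + y⟫| ≤ |⟪v, y + sm w A (B \ J)⟫| + |⟪v, sm w A J⟫| := by
      rw [h5]
      exact abs_add_le _ _
    have h7 := (abs_lt.1 h3').2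
    simp only [hb] at h1
    linarith
  have e5 := pr_or B m (fun _ A => ∀ v ∈ D, |⟪v, sm w A B + y⟫| ≤ b v)
    (fun J A => (∃ v ∈ D, ε ^ 2 ≤ ⟪v, sm w A J⟫ ^ 2) ∨ (∃ v ∈ D, ε ^ 2 ≤ (∑ i ∈ J, |⟪v, w i⟫| -
      (m : ℝ) / B.card * ∑ i ∈ B, |⟪v, w i⟫|) ^ 2))
  have e6 := pr_or B m (fun J A => ∃ v ∈ D, ε ^ 2 ≤ ⟪v, sm w A J⟫ ^ 2)
    (fun J _ => ∃ v ∈ D, ε ^ 2 ≤ (∑ i ∈ J, |⟪v, w i⟫| -
      (m : ℝ) / B.card * ∑ i ∈ B, |⟪v, w i⟫|) ^ 2)
  rw [e1]
  linarith

/-- far offsets. PROOF: Chebyshev for `E ‖sm w A B‖ ^ 2 = c`. -/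
theorem law_far {c : ℕ} {w : ℕ → E c} {B : Finset ℕ} (hI : Iso w B) {r : ℝ} (hr : 0 < r) :
    (lawM w B {x | r ≤ ‖x‖}).toReal ≤ c / r ^ 2 := by
  classical
  have hmeas : MeasurableSet {x : E c | r ≤ ‖x‖} :=
    (isClosed_le continuous_const continuous_norm).measurableSet
  rw [lawM_apply w B hmeas]
  have h1 : ∀ x : E c, ‖x‖ ^ 2 = ∑ j, ⟪(EuclideanSpace.basisFun (Fin c) ℝ) j, x⟫ ^ 2 := by
    intro x
    exact ((EuclideanSpace.basisFun (Fin c) ℝ).sum_sq_inner_right x).symm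
  have h2 : ∑ A ∈ B.powerset, ‖sm w A B‖ ^ 2 = c * 2 ^ B.card := by
    have h3 : ∑ A ∈ B.powerset, ‖sm w A B‖ ^ 2 = ∑ j, ∑ A ∈ B.powerset,
        ⟪(EuclideanSpace.basisFun (Fin c) ℝ) j, sm w A B⟫ ^ 2 := by
      rw [Finset.sum_comm]
      exact Finset.sum_congr rfl fun A _ => h1 _
    rw [h3]
    have h4 : ∀ j, ∑ A ∈ B.powerset, ⟪(EuclideanSpace.basisFun (Fin c) ℝ) j, sm w A B⟫ ^ 2 =
        2 ^ B.card := by
      intro j
      have h5 := rad_sq (le_refl B) fun i => ⟪(EuclideanSpace.basisFun (Fin c) ℝ) j, w i⟫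
      rw [hI, OrthonormalBasis.norm_eq_one, one_pow, mul_one] at h5
      rw [← h5]
      exact Finset.sum_congr rfl fun A _ => by rw [inner_sm]
    rw [Finset.sum_congr rfl fun j _ => h4 j, Finset.sum_const, Finset.card_univ, Fintype.card_fin,
      nsmul_eq_mul]
  have h6 : ((B.powerset.filter fun A => sm w A B ∈ {x : E c | r ≤ ‖x‖}).card : ℝ) * r ^ 2 ≤
      c * 2 ^ B.card := by
    rw [← h2, ← nsmul_eq_mul]
    refine le_trans (Finset.card_nsmul_le_sum _ (fun A => ‖sm w A B‖ ^ 2) _ fun A hA => ?_)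
      (Finset.sum_le_sum_of_subset_of_nonneg (Finset.filter_subset _ _)
        fun A _ _ => sq_nonneg _)
    have h7 : r ≤ ‖sm w A B‖ := (Finset.mem_filter.1 hA).2
    exact pow_le_pow_left₀ hr.le h7 2
  rw [div_le_div_iff₀ (by positivity) (by positivity)]
  exact h6

/-- The limit along a convergent sequence of data. PROOF: see the note (section 2). For large `n` the set of `fr_le_dirs` is
contained in the closed set with `y`, `b k u + ε` in place of `y n`, `b n k u`; `clt_closed`, `gam_rot`, `net_ball`. -/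
theorem nonDeg_limit {c R : ℕ} (hR : 0 < R) (g : Fin R → (E c ≃ₗᵢ[ℝ] E c)) (U : Finset (E c))
    {ε : ℝ} (hε : 0 < ε) (hε1 : ε < 1) (hU1 : ∀ u ∈ U, ‖u‖ = 1)
    (hU : ∀ x : E c, ‖x‖ = 1 → ∃ u ∈ U, ‖u - x‖ ≤ ε)
    {w : ℕ → ℕ → E c} {B : ℕ → Finset ℕ} {δ : ℕ → ℝ} (hI : ∀ n, Iso (w n) (B n))
    (hδ : Tendsto δ atTop (𝓝 0)) (hw : ∀ n, ∀ i ∈ B n, ‖w n i‖ ≤ δ n)
    {y : ℕ → E c} {y₀ : E c} (hy : Tendsto y atTop (𝓝 y₀))
    {b : ℕ → Fin R → E c → ℝ} {b₀ : Fin R → E c → ℝ}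
    (hb : ∀ k, ∀ u ∈ U, Tendsto (fun n => b n k u) atTop (𝓝 (b₀ k u)))
    {r : ℝ} (hr : 0 ≤ r) (hbr : ∀ u ∈ U, (1 / (R : ℝ)) * ∑ k, b₀ k u ≤ r) :
    ∀ᶠ n in atTop, (lawM (w n) (B n)
        {x | ∀ k, ∀ u ∈ U, |⟪(g k).symm u, x + y n⟫| ≤ b n k u}).toReal ≤
      (gam c (Metric.closedBall 0 ((r + ε) / (1 - ε)))).toReal + ε := by
  set F : Set (E c) := {x | ∀ k, ∀ u ∈ U, |⟪(g k).symm u, x + y₀⟫| ≤ b₀ k u + ε} with hF
  have hFc : IsClosed F := by
    have : F = ⋂ k, ⋂ u ∈ U, {x | |⟪(g k).symm u, x + y₀⟫| ≤ b₀ k u + ε} := by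
      ext x
      simp [hF]
    rw [this]
    refine isClosed_iInter fun k => isClosed_iInter fun u => isClosed_iInter fun _ => ?_
    exact isClosed_le (by fun_prop) continuous_const
  have h1 : ∀ᶠ n in atTop, (lawM (w n) (B n) F).toReal ≤ (gam c F).toReal + ε :=
    clt_closed hI hδ hw hFc hε
  have h2 : ∀ᶠ n in atTop, ‖y n - y₀‖ ≤ ε / 2 := by
    have := (tendsto_iff_norm_sub_tendsto_zero.1 hy).eventually (ge_mem_nhds (half_pos hε))
    exact this
  have h3 : ∀ᶠ n in atTop, ∀ k, ∀ u ∈ U, b n k u ≤ b₀ k u + ε / 2 := by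
    rw [eventually_all]
    intro k
    rw [Finset.eventually_all]
    intro u hu
    have := (hb k u hu).eventually (ge_mem_nhds (lt_add_of_pos_right (b₀ k u) (half_pos hε)))
    exact this
  have h4 : gam c F ≤ gam c (Metric.closedBall 0 ((r + ε) / (1 - ε))) := by
    have hU0 : ∀ x : E c, (∀ u ∈ U, ⟪u, x⟫ = 0) → x = 0 := by
      intro x hx
      have := net_ball hε1 hU (x := x) (r := 0) (fun u hu => by rw [hx u hu]; simp) le_rfl
      rw [zero_div] at this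
      exact norm_le_zero_iff.1 this
    refine le_trans (gam_rot hR g U hU0 (fun k u => b₀ k u + ε) y₀) ?_
    refine measure_mono fun x hx => ?_
    rw [mem_closedBall_zero_iff]
    refine net_ball hε1 hU (fun u hu => le_trans (hx u hu) ?_) (by linarith)
    rw [Finset.sum_add_distrib, mul_add, Finset.sum_const, Finset.card_univ, Fintype.card_fin,
      nsmul_eq_mul]
    have hR' : (R : ℝ) ≠ 0 := by positivity
    have := hbr u hu
    have h5 : 1 / (R : ℝ) * (R * ε) = ε := by field_simp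
    rw [h5]
    linarith
  filter_upwards [h1, h2, h3] with n hn1 hn2 hn3
  have h6 : {x | ∀ k, ∀ u ∈ U, |⟪(g k).symm u, x + y n⟫| ≤ b n k u} ⊆ F := by
    intro x hx k u hu
    have e1 : ⟪(g k).symm u, x + y₀⟫ = ⟪(g k).symm u, x + y n⟫ - ⟪(g k).symm u, y n - y₀⟫ := by
      rw [inner_add_right, inner_add_right, inner_sub_right]
      ring
    have e2 : |⟪(g k).symm u, y n - y₀⟫| ≤ ε / 2 := by
      refine le_trans (abs_real_inner_le_norm _ _) ?_
      rw [LinearIsometryEquiv.norm_map, hU1 u hu, one_mul]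
      exact hn2
    have e3 := hx k u hu
    have e4 := hn3 k u hu
    rw [e1]
    refine le_trans (abs_sub _ _) ?_
    linarith
  have h7 : (lawM (w n) (B n)
        {x | ∀ k, ∀ u ∈ U, |⟪(g k).symm u, x + y n⟫| ≤ b n k u}).toReal ≤
      (lawM (w n) (B n) F).toReal :=
    ENNReal.toReal_mono (measure_ne_top _ _) (measure_mono h6)
  have h8 : (gam c F).toReal ≤ (gam c (Metric.closedBall 0 ((r + ε) / (1 - ε)))).toReal :=
    ENNReal.toReal_mono (measure_ne_top _ _) h4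
  linarith

/-- the threshold parameter. -/
lemma nonDeg_param {c : ℕ} (hc : 1 ≤ c) {μ ε : ℝ} (hε : 0 < ε) :
    ∃ e : ℝ, 0 < e ∧ e < 1 / 2 ∧ e ≤ ε / 8 ∧
      (gam c (Metric.closedBall 0 (((μ + e) * (kap c + e) * Real.sqrt c + 2 * e + e) /
        (1 - e)))).toReal ≤ psi c μ + ε / 8 := by
  have h1 : Tendsto (fun e : ℝ => ((μ + e) * (kap c + e) * Real.sqrt c + 2 * e + e) / (1 - e))
      (𝓝 0) (𝓝 (rho c * μ)) := by
    have h2 : ContinuousAt (fun e : ℝ => ((μ + e) * (kap c + e) * Real.sqrt c + 2 * e + e) /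
        (1 - e)) 0 := by
      apply ContinuousAt.div
      · fun_prop
      · fun_prop
      · norm_num
    have h3 := h2.tendsto
    have h4 : ((μ + 0) * (kap c + 0) * Real.sqrt c + 2 * 0 + 0) / (1 - 0) = rho c * μ := by
      unfold rho
      ring
    rw [h4] at h3
    exact h3
  have h5 : Tendsto (fun e : ℝ => (gam c (Metric.closedBall 0
      (((μ + e) * (kap c + e) * Real.sqrt c + 2 * e + e) / (1 - e)))).toReal)
      (𝓝 0) (𝓝 (psi c μ)) := ((gam_ball_cont hc).tendsto _).comp h1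
  have h6 : ∀ᶠ e : ℝ in 𝓝 0, (gam c (Metric.closedBall 0
      (((μ + e) * (kap c + e) * Real.sqrt c + 2 * e + e) / (1 - e)))).toReal ≤
      psi c μ + ε / 8 := h5.eventually (ge_mem_nhds (by linarith))
  obtain ⟨η, hη, hη2⟩ := Metric.eventually_nhds_iff.1 h6
  refine ⟨min (η / 2) (min (1 / 4) (ε / 8)), by positivity, ?_, ?_, ?_⟩
  · have := min_le_right (η / 2) (min (1 / 4) (ε / 8))
    have h7 := min_le_left (1 / 4) (ε / 8)
    linarith
  · exact le_trans (min_le_right _ _) (min_le_right _ _)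
  · apply hη2
    have h8 : 0 < min (η / 2) (min (1 / 4) (ε / 8)) := by positivity
    rw [dist_zero_right, Real.norm_eq_abs, abs_of_pos h8]
    have := min_le_left (η / 2) (min (1 / 4) (ε / 8))
    linarith

/-- the proportion `m / |B|`. -/
lemma ratio_eq {m n : ℕ} : (m : ℝ) / n = (m : ℝ) / Real.sqrt n / Real.sqrt n := by
  rcases Nat.eq_zero_or_pos n with h | h
  · subst h
    simp
  · have h1 : Real.sqrt n * Real.sqrt n = n := Real.mul_self_sqrt (by positivity)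
    rw [div_div, h1]

/-- The upper bound for isotropic families of small vectors. PROOF: see the note (section 2): by contradiction, sequences;
`fr_le_dirs` with `D = {(g k).symm u}`; `law_far` for unbounded offsets; compactness for `y` and `b`; `nonDeg_limit`;
`(1/R) ∑ k, |⟪(g k).symm u, w i⟫| = (1/R) ∑ k, |⟪u, g k (w i)⟫| = av1 g (w i) u ≤ (kap c + ε) ‖w i‖` (`exists_rot`), `Iso.sum_norm_le`. -/
theorem nonDeg {c : ℕ} (hc : 1 ≤ c) {μ ε : ℝ} (hμ : 0 < μ) (hε : 0 < ε) :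
    ∃ (N : ℕ) (δ : ℝ), 0 < δ ∧ ∀ (w : ℕ → E c) (B : Finset ℕ) (y : E c) (m : ℕ), Iso w B →
      (∀ i ∈ B, ‖w i‖ ≤ δ) → N ≤ B.card → |(m : ℝ) / Real.sqrt B.card - μ| ≤ δ →
      fr w B y m ≤ psi c μ + ε := by
  classical
  by_contra hcon
  push Not at hcon
  obtain ⟨e, he, he2, he8, hball⟩ := nonDeg_param (μ := μ) hc hε
  obtain ⟨R, hR, g, hg⟩ := exists_rot hc he
  obtain ⟨U, hU1, hU⟩ := exists_net (c := c) he
  have hR' : (0 : ℝ) < R := by exact_mod_cast hR
  have hsq : ∀ n : ℕ, 0 < 1 / ((n : ℝ) + 1) := fun n => by positivity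
  choose w B y m hI hw hN hm hfr using fun n : ℕ => hcon n (1 / ((n : ℝ) + 1)) (hsq n)
  -- sizes
  set q : ℕ → ℝ := fun n => (m n : ℝ) / Real.sqrt (B n).card with hq
  have hδ : Tendsto (fun n : ℕ => 1 / ((n : ℝ) + 1)) atTop (𝓝 0) :=
    tendsto_one_div_add_atTop_nhds_zero_nat
  have hqlim : Tendsto q atTop (𝓝 μ) := by
    rw [tendsto_iff_norm_sub_tendsto_zero]
    exact squeeze_zero (fun n => norm_nonneg _) (fun n => by
      rw [Real.norm_eq_abs]
      exact hm n) hδ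
  have hBt : Tendsto (fun n => Real.sqrt (B n).card) atTop atTop := by
    refine Real.tendsto_sqrt_atTop.comp ?_
    refine tendsto_atTop_mono (fun n => ?_) tendsto_natCast_atTop_atTop
    exact_mod_cast hN n
  have hrat : Tendsto (fun n => (m n : ℝ) / (B n).card) atTop (𝓝 0) := by
    have h1 : Tendsto (fun n => q n / Real.sqrt (B n).card) atTop (𝓝 0) :=
      hqlim.div_atTop hBt
    exact h1.congr fun n => ratio_eq.symm
  have hmB : ∀ᶠ n in atTop, m n ≤ (B n).card := by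
    have h1 : ∀ᶠ n in atTop, (m n : ℝ) / (B n).card ≤ 1 / 2 :=
      hrat.eventually (ge_mem_nhds (by norm_num))
    filter_upwards [h1, eventually_ge_atTop 1] with n hn hn1
    have hB : (0 : ℝ) < (B n).card := by
      have := hN n
      exact_mod_cast (by omega : 0 < (B n).card)
    rw [div_le_iff₀ hB] at hn
    have : (m n : ℝ) ≤ (B n).card := by linarith
    exact_mod_cast this
  have hqle : ∀ᶠ n in atTop, q n ≤ μ + e :=
    hqlim.eventually (ge_mem_nhds (by linarith))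
  -- the directions
  set D : Finset (E c) := (Finset.univ ×ˢ U).image fun P : Fin R × E c => (g P.1).symm P.2 with hD
  have hD1 : ∀ v ∈ D, ‖v‖ = 1 := by
    intro v hv
    rw [hD, Finset.mem_image] at hv
    obtain ⟨P, hP, rfl⟩ := hv
    rw [LinearIsometryEquiv.norm_map]
    exact hU1 _ (Finset.mem_product.1 hP).2
  have hDmem : ∀ k, ∀ u ∈ U, (g k).symm u ∈ D := fun k u hu => by
    rw [hD, Finset.mem_image]
    exact ⟨(k, u), Finset.mem_product.2 ⟨Finset.mem_univ _, hu⟩, rfl⟩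
  set b : ℕ → Fin R → E c → ℝ := fun n k u =>
    (m n : ℝ) / (B n).card * ∑ i ∈ B n, |⟪(g k).symm u, w n i⟫| + 2 * e with hb
  -- the error term
  set err : ℕ → ℝ := fun n => 2 * D.card * ((m n : ℝ) / (B n).card / e ^ 2) with herr
  have herr0 : Tendsto err atTop (𝓝 0) := by
    have h1 := (hrat.div_const (e ^ 2)).const_mul (2 * (D.card : ℝ))
    simpa using h1
  have herrle : ∀ᶠ n in atTop, err n ≤ ε / 8 :=
    herr0.eventually (ge_mem_nhds (by linarith))
  have hmain : ∀ᶠ n in atTop, fr (w n) (B n) (y n) (m n) ≤ (lawM (w n) (B n)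
      {x | ∀ k, ∀ u ∈ U, |⟪(g k).symm u, x + y n⟫| ≤ b n k u}).toReal + ε / 8 := by
    filter_upwards [hmB, herrle] with n hn1 hn2
    refine le_trans (fr_le_dirs (hI n) (y n) hn1 D hD1 he) ?_
    refine add_le_add ?_ hn2
    refine ENNReal.toReal_mono (measure_ne_top _ _) (measure_mono ?_)
    intro x hx k u hu
    exact hx _ (hDmem k u hu)
  -- bounds for b
  have hb0 : ∀ n k u, 0 ≤ b n k u := fun n k u => by
    simp only [hb]
    positivity
  have hble : ∀ᶠ n in atTop, ∀ k, ∀ u ∈ U, b n k u ≤ μ + 1 + 2 := by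
    filter_upwards [hqle, eventually_ge_atTop 1] with n hn hn1 k u hu
    have h1 := sum_abs_le (w n) (B n) ((g k).symm u)
    rw [hI n, LinearIsometryEquiv.norm_map, hU1 u hu] at h1
    rw [one_pow, Real.sqrt_one, mul_one] at h1
    have h2 : (m n : ℝ) / (B n).card * ∑ i ∈ B n, |⟪(g k).symm u, w n i⟫| ≤
        (m n : ℝ) / (B n).card * Real.sqrt (B n).card :=
      mul_le_mul_of_nonneg_left h1 (by positivity)
    have hB : (0 : ℝ) < Real.sqrt (B n).card := by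
      have := hN n
      exact Real.sqrt_pos.2 (by exact_mod_cast (by omega : 0 < (B n).card))
    have h3 : (m n : ℝ) / (B n).card * Real.sqrt (B n).card = q n := by
      rw [ratio_eq]
      simp only [hq]
      field_simp
    rw [h3] at h2
    simp only [hb]
    linarith
  -- far offsets
  obtain ⟨r₀, hr₀, hr₀2⟩ : ∃ r₀ : ℝ, 0 < r₀ ∧ (c : ℝ) / r₀ ^ 2 ≤ ε / 8 := by
    have hc' : (0 : ℝ) < c := by exact_mod_cast hc
    refine ⟨Real.sqrt (8 * c / ε), Real.sqrt_pos.2 (by positivity), ?_⟩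
    rw [Real.sq_sqrt (by positivity)]
    apply le_of_eq
    field_simp
  set Z : ℝ := (μ + 1 + 2) / (1 - e) with hZ
  have hy : ∀ᶠ n in atTop, ‖y n‖ ≤ Z + r₀ := by
    filter_upwards [hmain, hble] with n hn1 hn2
    by_contra hlt
    push Not at hlt
    have h1 : {x | ∀ k, ∀ u ∈ U, |⟪(g k).symm u, x + y n⟫| ≤ b n k u} ⊆ {x | r₀ ≤ ‖x‖} := by
      intro x hx
      have h2 : ‖g ⟨0, hR⟩ (x + y n)‖ ≤ Z := by
        refine net_ball (by linarith) hU (fun u hu => ?_) (by linarith)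
        have h3 := hx ⟨0, hR⟩ u hu
        have h4 : ⟪(g ⟨0, hR⟩).symm u, x + y n⟫ = ⟪u, g ⟨0, hR⟩ (x + y n)⟫ := by
          rw [← LinearIsometryEquiv.inner_map_map (g ⟨0, hR⟩), LinearIsometryEquiv.apply_symm_apply]
        rw [← h4]
        exact le_trans h3 (hn2 _ u hu)
      rw [LinearIsometryEquiv.norm_map] at h2
      have h5 : ‖y n‖ ≤ ‖x + y n‖ + ‖x‖ := by
        have : y n = (x + y n) - x := by abel
        calc ‖y n‖ = ‖(x + y n) - x‖ := by rw [← this]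
          _ ≤ _ := norm_sub_le _ _
      show r₀ ≤ ‖x‖
      linarith
    have h6 : (lawM (w n) (B n)
        {x | ∀ k, ∀ u ∈ U, |⟪(g k).symm u, x + y n⟫| ≤ b n k u}).toReal ≤ ε / 8 := by
      refine le_trans (ENNReal.toReal_mono (measure_ne_top _ _) (measure_mono h1)) ?_
      exact le_trans (law_far (hI n) hr₀) hr₀2
    have h7 := hfr n
    have h8 := psi_nonneg c μ
    linarith
  -- compactness
  obtain ⟨N₁, hN₁⟩ := eventually_atTop.1 (hy.and hble)
  set z : ℕ → E c × (Fin R → U → ℝ) := fun n => (y (n + N₁), fun k u => b (n + N₁) k u) with hz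
  have hzb : ∀ n, z n ∈ Metric.closedBall (0 : E c × (Fin R → U → ℝ)) (max (Z + r₀) (μ + 1 + 2)) := by
    intro n
    rw [mem_closedBall_zero_iff, Prod.norm_def]
    obtain ⟨h1, h2⟩ := hN₁ (n + N₁) (by omega)
    refine max_le (le_trans h1 (le_max_left _ _)) ?_
    refine le_trans ?_ (le_max_right _ _)
    have h3 : (0 : ℝ) ≤ μ + 1 + 2 := by linarith
    rw [pi_norm_le_iff_of_nonneg h3]
    intro k
    rw [pi_norm_le_iff_of_nonneg h3]
    intro u
    rw [Real.norm_eq_abs, abs_of_nonneg (hb0 _ _ _)]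
    exact h2 k u u.2
  obtain ⟨z₀, -, φ, hφ, hlim⟩ := tendsto_subseq_of_bounded Metric.isBounded_closedBall hzb
  obtain ⟨y₀, b₀'⟩ := z₀
  have hlim1 : Tendsto (fun n => y (φ n + N₁)) atTop (𝓝 y₀) :=
    (continuous_fst.tendsto _).comp hlim
  have hlim2 : ∀ (k : Fin R) (u : U), Tendsto (fun n => b (φ n + N₁) k u) atTop (𝓝 (b₀' k u)) := by
    intro k u
    have h1 : Tendsto (fun n => (z (φ n)).2) atTop (𝓝 b₀') :=
      (continuous_snd.tendsto _).comp hlim
    exact tendsto_pi_nhds.1 (tendsto_pi_nhds.1 h1 k) u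
  have hψ : Tendsto (fun n => φ n + N₁) atTop atTop :=
    tendsto_atTop_mono (fun n => Nat.le_add_right (φ n) N₁) hφ.tendsto_atTop
  set b₀ : Fin R → E c → ℝ := fun k u => if h : u ∈ U then b₀' k ⟨u, h⟩ else 0 with hb₀
  have hlim3 : ∀ k, ∀ u ∈ U, Tendsto (fun n => b (φ n + N₁) k u) atTop (𝓝 (b₀ k u)) := by
    intro k u hu
    simp only [hb₀, hu, dif_pos]
    exact hlim2 k ⟨u, hu⟩
  set r : ℝ := (μ + e) * (kap c + e) * Real.sqrt c + 2 * e with hr
  have hkap := kap_pos hc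
  have hr0 : 0 ≤ r := by positivity
  have hbr : ∀ u ∈ U, (1 / (R : ℝ)) * ∑ k, b₀ k u ≤ r := by
    intro u hu
    have h1 : Tendsto (fun n => (1 / (R : ℝ)) * ∑ k, b (φ n + N₁) k u) atTop
        (𝓝 ((1 / (R : ℝ)) * ∑ k, b₀ k u)) :=
      (tendsto_finsetSum _ fun k _ => hlim3 k u hu).const_mul _
    refine le_of_tendsto h1 ?_
    have h2 : ∀ᶠ n in atTop, (1 / (R : ℝ)) * ∑ k, b n k u ≤ r := by
      filter_upwards [hqle, eventually_ge_atTop 1] with n hn hn1
      have h3 : (1 / (R : ℝ)) * ∑ k, b n k u =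
          (m n : ℝ) / (B n).card * ∑ i ∈ B n, av1 g (w n i) u + 2 * e := by
        simp only [hb, av1]
        rw [Finset.sum_add_distrib, mul_add, Finset.sum_const, Finset.card_univ,
          Fintype.card_fin, nsmul_eq_mul]
        have h4 : 1 / (R : ℝ) * (R * (2 * e)) = 2 * e := by field_simp
        rw [h4]
        congr 1
        rw [← Finset.mul_sum, ← Finset.mul_sum, Finset.sum_comm]
        rw [mul_left_comm]
        congr 2
        refine Finset.sum_congr rfl fun i _ => Finset.sum_congr rfl fun k _ => ?_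
        rw [← LinearIsometryEquiv.inner_map_map (g k), LinearIsometryEquiv.apply_symm_apply,
          real_inner_comm]
      rw [h3]
      have h5 : ∑ i ∈ B n, av1 g (w n i) u ≤ (kap c + e) * (Real.sqrt (B n).card * Real.sqrt c) := by
        refine le_trans (Finset.sum_le_sum fun i _ => ?_)
          (le_trans (Finset.mul_sum _ _ _).ge
            (mul_le_mul_of_nonneg_left (Iso.sum_norm_le (hI n)) (by linarith)))
        have h6 := (abs_le.1 (hg (w n i) u).1).2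
        rw [hU1 u hu, mul_one] at h6
        linarith
      have hB : (0 : ℝ) < Real.sqrt (B n).card := by
        have := hN n
        exact Real.sqrt_pos.2 (by exact_mod_cast (by omega : 0 < (B n).card))
      have h7 : (m n : ℝ) / (B n).card * ∑ i ∈ B n, av1 g (w n i) u ≤
          q n * ((kap c + e) * Real.sqrt c) := by
        refine le_trans (mul_le_mul_of_nonneg_left h5 (by positivity)) ?_
        rw [ratio_eq]
        apply le_of_eq
        simp only [hq]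
        field_simp
      have h8 : q n * ((kap c + e) * Real.sqrt c) ≤ (μ + e) * ((kap c + e) * Real.sqrt c) :=
        mul_le_mul_of_nonneg_right hn (by positivity)
      rw [hr]
      linarith
    exact hψ.eventually h2
  have hfin := nonDeg_limit hR g U he (by linarith) hU1 hU (w := fun n => w (φ n + N₁))
    (B := fun n => B (φ n + N₁)) (δ := fun n => 1 / (((φ n + N₁ : ℕ) : ℝ) + 1))
    (fun n => hI _) (hδ.comp hψ) (fun n i hi => hw _ i hi) hlim1 hlim3 hr0 hbr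
  obtain ⟨n, hn1, hn2⟩ := (hfin.and (hψ.eventually hmain)).exists
  have h9 := hfr (φ n + N₁)
  rw [hr] at hn1
  linarith

end Pool.Agent.H.MP_4bcbbd_co.F
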