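import Pool.Agent.H.MP_4bcbbd_co.h39f.Rad

/-!
MP_4bcbbd_co, polytopes with few vertices: removing a few vectors.
-/

set_option autoImplicit false

namespace Pool.Agent.H.MP_4bcbbd_co.F

open scoped BigOperators RealInnerProductSpace

lemma rem_sg_inter {A L : Finset ℕ} {i : ℕ} (hi : i ∈ L) : sg (A ∩ L) i = sg A i := by
  unfold sg
  simp [hi]

lemma rem_sg_sdiff {A L : Finset ℕ} {i : ℕ} (hi : i ∉ L) : sg (A \ L) i = sg A i := by
  unfold sg
  simp [hi]

lemma rem_sm {c : ℕ} (w : ℕ → E c) (A : Finset ℕ) {J B L : Finset ℕ} (hL : L ⊆ B)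
    (hJ : Disjoint J L) :
    sm w A (B \ J) = sm w (A ∩ L) L + sm w (A \ L) ((B \ L) \ J) := by
  have h1 : B \ J = L ∪ ((B \ L) \ J) := by
    ext i
    simp only [Finset.mem_sdiff, Finset.mem_union]
    constructor
    · intro h
      by_cases hi : i ∈ L
      · exact Or.inl hi
      · exact Or.inr ⟨⟨h.1, hi⟩, h.2⟩
    · rintro (h | h)
      · exact ⟨hL h, fun hj => (Finset.disjoint_left.mp hJ) hj h⟩
      · exact ⟨h.1.1, h.2⟩
  have h2 : Disjoint L ((B \ L) \ J) := by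
    rw [Finset.disjoint_left]
    intro i hi h
    simp only [Finset.mem_sdiff] at h
    exact h.1.2 hi
  unfold sm
  rw [h1, Finset.sum_union h2]
  congr 1
  · exact Finset.sum_congr rfl fun i hi => by rw [rem_sg_inter hi]
  · refine Finset.sum_congr rfl fun i hi => ?_
    simp only [Finset.mem_sdiff] at hi
    rw [rem_sg_sdiff hi.1.2]

lemma rem_cov {c : ℕ} (w : ℕ → E c) (y : E c) {A J B L : Finset ℕ} (hL : L ⊆ B)
    (hJ : Disjoint J L) (h : Cov w B y J A) :
    Cov w (B \ L) (y + sm w (A ∩ L) L) J (A \ L) := by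
  intro u hu
  have := h u hu
  rw [rem_sm w A hL hJ, ← add_assoc] at this
  exact this

lemma rem_bad {B L : Finset ℕ} (hL : L ⊆ B) {m : ℕ} (hm : m ≤ B.card) :
    pr B m (fun J _ => ∃ i ∈ L, i ∈ J) ≤ (L.card : ℝ) * m / B.card := by
  refine (pr_exists L B m fun i J _ => i ∈ J).trans ?_
  have h1 : ∀ i ∈ L, pr B m (fun J _ => i ∈ J) ≤ (m : ℝ) / B.card := by
    intro i hi
    have h2 : pr B m (fun J _ => i ∈ J) ≤
        pr B m (fun J _ => (1 : ℝ) ≤ ∑ k ∈ J, if k = i then (1 : ℝ) else 0) := by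
      refine pr_mono fun J _ A _ h => ?_
      rw [Finset.sum_ite_eq' J i fun _ => (1 : ℝ), if_pos h]
    refine h2.trans ?_
    have h3 := pr_markov (B := B) (m := m) (f := fun J _ => ∑ k ∈ J, if k = i then (1 : ℝ) else 0)
      (a := 1) one_pos (fun J _ A _ => Finset.sum_nonneg fun k _ => by split_ifs <;> norm_num)
    refine h3.trans ?_
    rw [ex_J hm, div_one, Finset.sum_ite_eq' B i fun _ => (1 : ℝ), if_pos (hL hi), mul_one]
  refine (Finset.sum_le_sum h1).trans ?_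
  rw [Finset.sum_const, nsmul_eq_mul, mul_div_assoc]

open Classical in
lemma rem_count {c : ℕ} (w : ℕ → E c) {B L : Finset ℕ} (hL : L ⊆ B) (y : E c) (m : ℕ) :
    ((B.powersetCard m ×ˢ B.powerset).filter
        fun P => Disjoint P.1 L ∧ Cov w B y P.1 P.2).card ≤
      ∑ A ∈ L.powerset, (((B \ L).powersetCard m ×ˢ (B \ L).powerset).filter
        fun P => Cov w (B \ L) (y + sm w A L) P.1 P.2).card := by
  rw [Finset.card_eq_sum_card_fiberwise (f := fun P => P.2 ∩ L) (t := L.powerset)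
    (fun P _ => Finset.mem_coe.mpr (Finset.mem_powerset.mpr Finset.inter_subset_right))]
  refine Finset.sum_le_sum fun A _ => ?_
  refine Finset.card_le_card_of_injOn (fun P => (P.1, P.2 \ L)) ?_ ?_
  · intro P hP
    simp only [Finset.coe_filter, Finset.mem_filter, Finset.mem_product, Finset.mem_powersetCard,
      Finset.mem_powerset, Set.mem_ofPred_eq] at hP ⊢
    obtain ⟨⟨⟨⟨hJ, hJm⟩, hA⟩, hd, hc⟩, hAL⟩ := hP
    refine ⟨⟨⟨fun i hi => Finset.mem_sdiff.mpr
      ⟨hJ hi, fun h => Finset.disjoint_left.mp hd hi h⟩, hJm⟩, ?_⟩, ?_⟩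
    · intro i hi
      rw [Finset.mem_sdiff] at hi ⊢
      exact ⟨hA hi.1, hi.2⟩
    · rw [← hAL]
      exact rem_cov w y hL hd hc
  · intro P hP Q hQ h
    simp only [Finset.coe_filter, Finset.mem_filter, Set.mem_ofPred_eq] at hP hQ
    simp only [Prod.mk.injEq] at h
    refine Prod.ext h.1 ?_
    rw [← Finset.sdiff_union_inter P.2 L, ← Finset.sdiff_union_inter Q.2 L, hP.2, hQ.2, h.2]

/-- PROOF. The pairs with `J ∩ L ≠ ∅` have proportion at most `∑ i ∈ L, P(i ∈ J) = |L| m / |B|` (`pr_exists`,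
`pr_markov`/`ex_J` with `a = indicator of L`). For `J ∩ L = ∅`: `J ⊆ B \ L`, `B \ J = L ∪ ((B \ L) \ J)`,
`A = A₁ ∪ A₂` with `A₁ = A ∩ L`, `A₂ = A \ L`, `sm w A (B \ J) = sm w A₁ L + sm w A₂ ((B \ L) \ J)`; and
`(|B \ L|).choose m ≤ |B|.choose m`. -/
theorem fr_remove {c : ℕ} (w : ℕ → E c) {B L : Finset ℕ} (hL : L ⊆ B) (y : E c) {m : ℕ}
    (hm : m ≤ (B \ L).card) :
    fr w B y m ≤ (L.card : ℝ) * m / B.card +
      (∑ A ∈ L.powerset, fr w (B \ L) (y + sm w A L) m) / 2 ^ L.card := by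
  classical
  have hmB : m ≤ B.card := hm.trans (Finset.card_le_card Finset.sdiff_subset)
  have h1 : fr w B y m ≤ pr B m (fun J A => (∃ i ∈ L, i ∈ J) ∨ (Disjoint J L ∧ Cov w B y J A)) := by
    refine pr_mono fun J _ A _ h => ?_
    by_cases hd : Disjoint J L
    · exact Or.inr ⟨hd, h⟩
    · obtain ⟨i, hi, hi'⟩ := Finset.not_disjoint_iff.mp hd
      exact Or.inl ⟨i, hi', hi⟩
  refine h1.trans ((pr_or B m _ _).trans (add_le_add (rem_bad hL hmB) ?_))
  have hch : (0 : ℝ) < ((B \ L).card.choose m : ℝ) := by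
    exact_mod_cast Nat.choose_pos hm
  have hch2 : (((B \ L).card.choose m : ℕ) : ℝ) ≤ (B.card.choose m : ℝ) := by
    exact_mod_cast Nat.choose_le_choose m (Finset.card_le_card Finset.sdiff_subset)
  have hcard : B.card = (B \ L).card + L.card := (Finset.card_sdiff_add_card_eq_card hL).symm
  have hcount : ((((B.powersetCard m ×ˢ B.powerset).filter
        fun P => Disjoint P.1 L ∧ Cov w B y P.1 P.2).card : ℕ) : ℝ) ≤
      ∑ A ∈ L.powerset, ((((B \ L).powersetCard m ×ˢ (B \ L).powerset).filter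
        fun P => Cov w (B \ L) (y + sm w A L) P.1 P.2).card : ℝ) := by
    exact_mod_cast rem_count w hL y m
  have h2 : (∑ A ∈ L.powerset, fr w (B \ L) (y + sm w A L) m) / 2 ^ L.card =
      (∑ A ∈ L.powerset, ((((B \ L).powersetCard m ×ˢ (B \ L).powerset).filter
        fun P => Cov w (B \ L) (y + sm w A L) P.1 P.2).card : ℝ)) /
        (((B \ L).card.choose m : ℝ) * 2 ^ B.card) := by
    unfold fr pr
    rw [← Finset.sum_div, div_div, mul_assoc, ← pow_add, ← hcard]
  rw [h2]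
  unfold pr
  have hS : (0 : ℝ) ≤ ∑ A ∈ L.powerset, ((((B \ L).powersetCard m ×ˢ (B \ L).powerset).filter
        fun P => Cov w (B \ L) (y + sm w A L) P.1 P.2).card : ℝ) :=
    Finset.sum_nonneg fun _ _ => Nat.cast_nonneg _
  have hB : (0 : ℝ) < (B.card.choose m : ℝ) * 2 ^ B.card :=
    mul_pos (hch.trans_le hch2) (by positivity)
  refine (div_le_div_of_nonneg_right (le_trans (le_of_eq ?_) hcount) hB.le).trans ?_
  · congr!
  exact div_le_div_of_nonneg_left hS (mul_pos hch (by positivity))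
    (mul_le_mul_of_nonneg_right hch2 (by positivity))

end Pool.Agent.H.MP_4bcbbd_co.F
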