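import Pool.Agent.H.MP_4bcbbd_co.h39f.NonDeg
import Pool.Agent.H.MP_4bcbbd_co.h39f.Remove

/-!
MP_4bcbbd_co, polytopes with few vertices: the upper bound for all families.
-/

set_option autoImplicit false

namespace Pool.Agent.H.MP_4bcbbd_co.F

open scoped BigOperators RealInnerProductSpace Topology
open MeasureTheory Filter

lemma up_fr_nonneg {c : ℕ} (w : ℕ → E c) (B : Finset ℕ) (y : E c) (m : ℕ) : 0 ≤ fr w B y m :=
  pr_nonneg _ _ _

lemma up_fr_le_one {c : ℕ} (w : ℕ → E c) (B : Finset ℕ) (y : E c) (m : ℕ) : fr w B y m ≤ 1 :=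
  pr_le_one _ _ _

/-- an offset which is large in a direction in which the vectors are small. -/
lemma up_bad {c : ℕ} {w : ℕ → E c} {B : Finset ℕ} {u : E c} (hu : u ≠ 0) {η t : ℝ}
    (hη : ∑ i ∈ B, ⟪u, w i⟫ ^ 2 ≤ η) (ht : 0 < t) {m : ℕ} (hm : m ≤ B.card) {y : E c}
    (hy : t < |⟪u, y⟫|) :
    fr w B y m ≤ 4 * η / t ^ 2 + 2 / t * ((m : ℝ) / Real.sqrt B.card) * Real.sqrt η := by
  have h1 : fr w B y m ≤ pr B m (fun J A => (t / 2) ^ 2 ≤ ⟪u, sm w A (B \ J)⟫ ^ 2 ∨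
      t / 2 ≤ ∑ i ∈ J, |⟪u, w i⟫|) := by
    refine pr_mono fun J _ A _ hC => ?_
    have h := hC u hu
    rw [inner_add_right] at h
    by_contra hcon
    rw [not_or, not_le, not_le] at hcon
    obtain ⟨ha, hb⟩ := hcon
    have ha' : |⟪u, sm w A (B \ J)⟫| < t / 2 := by
      have := sq_lt_sq.mp ha
      rwa [abs_of_pos (by positivity : 0 < t / 2)] at this
    have h3 : |⟪u, y⟫| ≤ |⟪u, y⟫ + ⟪u, sm w A (B \ J)⟫| + |⟪u, sm w A (B \ J)⟫| := by
      have := abs_sub (⟪u, y⟫ + ⟪u, sm w A (B \ J)⟫) (⟪u, sm w A (B \ J)⟫)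
      rwa [add_sub_cancel_right] at this
    linarith
  have h2 : pr B m (fun J A => (t / 2) ^ 2 ≤ ⟪u, sm w A (B \ J)⟫ ^ 2) ≤ 4 * η / t ^ 2 := by
    have h := pr_markov (B := B) (m := m) (f := fun J A => ⟪u, sm w A (B \ J)⟫ ^ 2)
      (a := (t / 2) ^ 2) (by positivity) (fun _ _ _ _ => sq_nonneg _)
    have h3 := ex_sm_compl hm w u
    calc pr B m (fun J A => (t / 2) ^ 2 ≤ ⟪u, sm w A (B \ J)⟫ ^ 2)
        ≤ ex B m (fun J A => ⟪u, sm w A (B \ J)⟫ ^ 2) / (t / 2) ^ 2 := h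
      _ ≤ η / (t / 2) ^ 2 := by
          apply div_le_div_of_nonneg_right (h3.trans hη) (by positivity)
      _ = 4 * η / t ^ 2 := by field_simp; ring
  have h3 : pr B m (fun J _ => t / 2 ≤ ∑ i ∈ J, |⟪u, w i⟫|) ≤
      2 / t * ((m : ℝ) / Real.sqrt B.card) * Real.sqrt η := by
    have h := pr_markov (B := B) (m := m) (f := fun J _ => ∑ i ∈ J, |⟪u, w i⟫|)
      (a := t / 2) (by positivity) (fun _ _ _ _ => Finset.sum_nonneg fun _ _ => abs_nonneg _)
    rw [ex_J hm] at h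
    have h4 := sum_abs_le w B u
    have h5 : Real.sqrt (∑ i ∈ B, ⟪u, w i⟫ ^ 2) ≤ Real.sqrt η := Real.sqrt_le_sqrt hη
    rcases Nat.eq_zero_or_pos B.card with h0 | h0
    · rw [h0] at h
      refine h.trans ?_
      simp only [Nat.cast_zero, div_zero, zero_mul, zero_div]
      positivity
    · have hb : (0 : ℝ) < B.card := by exact_mod_cast h0
      have hs : 0 < Real.sqrt B.card := Real.sqrt_pos.mpr hb
      calc pr B m (fun J _ => t / 2 ≤ ∑ i ∈ J, |⟪u, w i⟫|)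
          ≤ (m : ℝ) / B.card * (∑ i ∈ B, |⟪u, w i⟫|) / (t / 2) := h
        _ ≤ (m : ℝ) / B.card * (Real.sqrt B.card * Real.sqrt η) / (t / 2) := by
            apply div_le_div_of_nonneg_right _ (by positivity)
            apply mul_le_mul_of_nonneg_left _ (by positivity)
            exact h4.trans (mul_le_mul_of_nonneg_left h5 hs.le)
        _ = 2 / t * ((m : ℝ) / Real.sqrt B.card) * Real.sqrt η := by
            have h7 : ∀ M q r b : ℝ, 0 < q → b = q * q → M / b * (q * r) = M / q * r := by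
              intro M q r b hq hbq
              rw [hbq]
              field_simp
            rw [h7 _ _ _ _ hs (Real.mul_self_sqrt hb.le).symm]
            ring
  calc fr w B y m ≤ _ := h1
    _ ≤ _ := pr_or B m _ _
    _ ≤ _ := add_le_add h2 h3

/-- a direction in which the small vectors are very small. PROOF: `fr_remove`; for `A ∈ L.powerset` with
`|⟪u, y + sm w A L⟫| ≤ t` the bound `S`; their proportion is at most `3/4` (`rad_pz` with `x = ⟪u, y⟫`, `a i = ⟪u, w i⟫`,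
`∑ i ∈ L, ⟪u, w i⟫ ^ 2 ≥ 1 - η ≥ 10 t ^ 2`). For the other `A`: `Cov w (B \ L) y' J A'` at `u` implies `t / 2 ≤ |⟪u, sm w A' ((B \ L) \ J)⟫|` or
`t / 2 ≤ ∑ i ∈ J, |⟪u, w i⟫|`: Chebyshev (`ex_sm_compl`) and Markov (`ex_J`, `sum_abs_le`). -/
theorem deg_step {c : ℕ} {w : ℕ → E c} {B L : Finset ℕ} (hL : L ⊆ B) (hI : Iso w B)
    {u : E c} (hu : ‖u‖ = 1) {η t S : ℝ} (hη : ∑ i ∈ B \ L, ⟪u, w i⟫ ^ 2 ≤ η) (ht : 0 < t)
    (hηt : η + 10 * t ^ 2 ≤ 1) (hS : 0 ≤ S) {m : ℕ} (hm : m ≤ (B \ L).card) (y : E c)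
    (hSy : ∀ y' : E c, fr w (B \ L) y' m ≤ S) :
    fr w B y m ≤ (L.card : ℝ) * m / B.card + 3 / 4 * S + 4 * η / t ^ 2 +
      2 / t * ((m : ℝ) / Real.sqrt (B \ L).card) * Real.sqrt η := by
  classical
  have hu0 : u ≠ 0 := by
    intro h
    rw [h, norm_zero] at hu
    exact zero_ne_one hu
  have hη0 : 0 ≤ η := (Finset.sum_nonneg fun _ _ => sq_nonneg _).trans hη
  set D : ℝ := 4 * η / t ^ 2 + 2 / t * ((m : ℝ) / Real.sqrt (B \ L).card) * Real.sqrt η with hD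
  have hD0 : 0 ≤ D := by
    rw [hD]
    positivity
  have hV : 1 - η ≤ ∑ i ∈ L, ⟪u, w i⟫ ^ 2 := by
    have h1 := hI u
    rw [hu, one_pow, ← Finset.sum_sdiff hL] at h1
    linarith
  have hV0 : 0 < ∑ i ∈ L, ⟪u, w i⟫ ^ 2 := by
    have : 0 < t ^ 2 := by positivity
    linarith
  have hpz := rad_pz L (fun i => ⟪u, w i⟫) ⟪u, y⟫ t ht.le hV0 (by linarith)
  have hrem := fr_remove w hL y hm
  have hsum : ∑ A ∈ L.powerset, fr w (B \ L) (y + sm w A L) m ≤
      (3 / 4 * S + D) * 2 ^ L.card := by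
    have hle : ∀ A ∈ L.powerset, fr w (B \ L) (y + sm w A L) m ≤
        (if |⟪u, y⟫ + ∑ i ∈ L, sg A i * ⟪u, w i⟫| ≤ t then S else 0) + D := by
      intro A _
      split_ifs with hA
      · exact (hSy _).trans (by linarith)
      · rw [zero_add]
        apply up_bad hu0 hη ht hm
        rw [inner_add_right, inner_sm]
        exact not_le.mp hA
    refine (Finset.sum_le_sum hle).trans ?_
    rw [Finset.sum_add_distrib, ← Finset.sum_filter, Finset.sum_const, Finset.sum_const,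
      Finset.card_powerset, nsmul_eq_mul, nsmul_eq_mul]
    have h2 := mul_le_mul_of_nonneg_right hpz hS
    push_cast
    nlinarith [h2]
  have hpow : (0 : ℝ) < 2 ^ L.card := by positivity
  have h3 : (∑ A ∈ L.powerset, fr w (B \ L) (y + sm w A L) m) / 2 ^ L.card ≤ 3 / 4 * S + D := by
    rw [div_le_iff₀ hpow]
    exact hsum
  calc fr w B y m ≤ _ := hrem
    _ ≤ (L.card : ℝ) * m / B.card + (3 / 4 * S + D) := by linarith
    _ = _ := by rw [hD]; ring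

/-- the arithmetic of removing at most `K` vectors. -/
lemma up_size (K N' : ℕ) {μ δ ε : ℝ} (hμ : 0 < μ) (hδ : 0 < δ) (hδ1 : δ ≤ 1) (hε : 0 < ε) :
    ∃ N : ℕ, ∀ b b' m : ℕ, N ≤ b → b ≤ b' + K → b' ≤ b →
      |(m : ℝ) / Real.sqrt b - μ| ≤ δ / 2 →
      m ≤ b' ∧ N' ≤ b' ∧ |(m : ℝ) / Real.sqrt b' - μ| ≤ δ ∧ (K : ℝ) * m / b ≤ ε := by
  obtain ⟨N, hN⟩ := exists_nat_ge ((N' : ℝ) + 2 * K + 4 * (μ + 1) ^ 2 + 2 * (μ + 1) * K / δ +
    (K * (μ + 1) / ε) ^ 2 + 1)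
  refine ⟨N, fun b b' m hb hbb hb'b hm => ?_⟩
  have hbN : (N : ℝ) ≤ b := by exact_mod_cast hb
  have hK0 : (0 : ℝ) ≤ K := Nat.cast_nonneg K
  have hN'0 : (0 : ℝ) ≤ N' := Nat.cast_nonneg N'
  have hm0 : (0 : ℝ) ≤ m := Nat.cast_nonneg m
  have q1 : 0 ≤ 4 * (μ + 1) ^ 2 := by positivity
  have q2 : 0 ≤ 2 * (μ + 1) * K / δ := by positivity
  have q3 : 0 ≤ (K * (μ + 1) / ε) ^ 2 := by positivity
  have hb1 : (1 : ℝ) ≤ b := by linarith
  have hb0 : (0 : ℝ) < b := by linarith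
  set s := Real.sqrt b with hs
  have hs0 : 0 < s := Real.sqrt_pos.mpr hb0
  have hss : s * s = b := Real.mul_self_sqrt hb0.le
  have hbb' : (b : ℝ) ≤ b' + K := by exact_mod_cast hbb
  have hb'bR : (b' : ℝ) ≤ b := by exact_mod_cast hb'b
  have hms : (m : ℝ) / s ≤ μ + 1 := by
    have := (abs_le.mp hm).2
    linarith
  have hms2 : (m : ℝ) ≤ (μ + 1) * s := by
    rwa [div_le_iff₀ hs0] at hms
  have hs2 : 2 * (μ + 1) ≤ s := by
    have h : (2 * (μ + 1)) ^ 2 ≤ b := by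
      have : (2 * (μ + 1)) ^ 2 = 4 * (μ + 1) ^ 2 := by ring
      rw [this]; linarith
    exact Real.le_sqrt_of_sq_le h
  have hb'1 : (1 : ℝ) ≤ b' := by linarith
  have hb'0 : (0 : ℝ) < b' := by linarith
  refine ⟨?_, ?_, ?_, ?_⟩
  · have h1 : (m : ℝ) ≤ b / 2 := by nlinarith
    have h2 : (b : ℝ) / 2 ≤ b' := by linarith
    exact_mod_cast h1.trans h2
  · have : (N' : ℝ) ≤ b' := by linarith
    exact_mod_cast this
  · set s' := Real.sqrt b' with hs'
    have hs'0 : 0 < s' := Real.sqrt_pos.mpr hb'0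
    have hss' : s' * s' = b' := Real.mul_self_sqrt hb'0.le
    have hs's : s' ≤ s := Real.sqrt_le_sqrt hb'bR
    have h1 : (m : ℝ) / s ≤ m / s' := div_le_div_of_nonneg_left hm0 hs'0 hs's
    have h2 : (m : ℝ) / s' ≤ m / s * (b / b') := by
      have h3 : 1 / s' ≤ 1 / s * (b / b') := by
        rw [← hss, ← hss']
        have : 1 / s * (s * s / (s' * s')) = 1 / s' * (s / s') := by field_simp
        rw [this]
        have h4 : 1 ≤ s / s' := by rwa [le_div_iff₀ hs'0, one_mul]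
        have h5 : 0 ≤ 1 / s' := by positivity
        nlinarith
      calc (m : ℝ) / s' = m * (1 / s') := by ring
        _ ≤ m * (1 / s * (b / b')) := mul_le_mul_of_nonneg_left h3 hm0
        _ = m / s * (b / b') := by ring
    have h3 : (b : ℝ) / b' ≤ 1 + K / b' := by
      rw [div_le_iff₀ hb'0, add_mul, div_mul_cancel₀ _ hb'0.ne']
      linarith
    have h4 : (m : ℝ) / s * (b / b') ≤ m / s + (μ + 1) * (K / b') := by
      have h5 : 0 ≤ (m : ℝ) / s := by positivity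
      have h6 : 0 ≤ (K : ℝ) / b' := by positivity
      calc (m : ℝ) / s * (b / b') ≤ m / s * (1 + K / b') := mul_le_mul_of_nonneg_left h3 h5
        _ = m / s + m / s * (K / b') := by ring
        _ ≤ m / s + (μ + 1) * (K / b') := by
            have := mul_le_mul_of_nonneg_right hms h6
            linarith
    have h7 : (μ + 1) * (K / b') ≤ δ / 2 := by
      have h8 : 2 * (μ + 1) * K / δ ≤ b' := by linarith
      rw [div_le_iff₀ hδ] at h8
      rw [← mul_div_assoc, div_le_iff₀ hb'0]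
      linarith
    have h9 := abs_le.mp hm
    rw [abs_le]
    constructor
    · linarith [h9.1]
    · linarith [h9.2]
  · have h1 : (K * (μ + 1) / ε) ≤ s := by
      apply Real.le_sqrt_of_sq_le
      linarith
    rw [div_le_iff₀ hε] at h1
    rw [div_le_iff₀ hb0, ← hss]
    calc (K : ℝ) * m ≤ K * ((μ + 1) * s) := mul_le_mul_of_nonneg_left hms2 hK0
      _ = (K * (μ + 1)) * s := by ring
      _ ≤ (s * ε) * s := mul_le_mul_of_nonneg_right h1 hs0.le
      _ = ε * (s * s) := by ring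

/-- the induction step for isotropic families. -/
lemma up_iso_step {c : ℕ} (hc : 1 ≤ c) {μ : ℝ} (hμ : 0 < μ) (p : ℕ)
    (ih : ∀ {ε : ℝ}, 0 < ε →
      ∃ (N : ℕ) (δ : ℝ), 0 < δ ∧ ∀ (w : ℕ → E c) (B : Finset ℕ) (y : E c) (m : ℕ),
        N ≤ B.card → |(m : ℝ) / Real.sqrt B.card - μ| ≤ δ →
        fr w B y m ≤ psi c μ + (3 / 4) ^ p + ε) {ε : ℝ} (hε : 0 < ε) :
    ∃ (N : ℕ) (δ : ℝ), 0 < δ ∧ ∀ (w : ℕ → E c) (B : Finset ℕ) (y : E c) (m : ℕ), Iso w B →
      N ≤ B.card → |(m : ℝ) / Real.sqrt B.card - μ| ≤ δ →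
      fr w B y m ≤ psi c μ + (3 / 4) ^ (p + 1) + ε := by
  classical
  obtain ⟨N₀, δ₀, hδ₀, h₀⟩ := ih (ε := ε / 4) (by positivity)
  obtain ⟨N₁, δ₁, hδ₁, h₁⟩ := nonDeg hc hμ (ε := ε / 4) (by positivity)
  -- the threshold `s = √η`
  set s : ℝ := min (1 / 2) (ε / (256 * (μ + 1))) with hs
  have hs0 : 0 < s := by
    rw [hs]
    apply lt_min <;> positivity
  have hs1 : s ≤ 1 / 2 := min_le_left _ _
  have hs2 : s ≤ ε / (256 * (μ + 1)) := min_le_right _ _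
  set d : ℝ := δ₁ * s with hd
  have hd0 : 0 < d := by positivity
  obtain ⟨K, hK⟩ := exists_nat_ge ((c : ℝ) / d ^ 2)
  set δ' : ℝ := min 1 (min δ₀ δ₁) with hδ'
  have hδ'0 : 0 < δ' := lt_min one_pos (lt_min hδ₀ hδ₁)
  have hδ'1 : δ' ≤ 1 := min_le_left _ _
  have hδ'0' : δ' ≤ δ₀ := (min_le_right _ _).trans (min_le_left _ _)
  have hδ'1' : δ' ≤ δ₁ := (min_le_right _ _).trans (min_le_right _ _)
  obtain ⟨N, hN⟩ := up_size K (max N₀ N₁) hμ hδ'0 hδ'1 (ε := ε / 4) (by positivity)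
  refine ⟨N, δ' / 2, by positivity, fun w B y m hI hB hm => ?_⟩
  set L : Finset ℕ := B.filter fun i => d ≤ ‖w i‖ with hLdef
  have hL : L ⊆ B := Finset.filter_subset _ _
  have hLK : L.card ≤ K := by
    have h1 := hI.card_large hL hd0 (fun i hi => (Finset.mem_filter.mp hi).2)
    exact_mod_cast h1.trans hK
  have hcard : (B \ L).card + L.card = B.card := Finset.card_sdiff_add_card_eq_card hL
  obtain ⟨hm', hN', hmδ, hKm⟩ := hN B.card (B \ L).card m hB (by omega) (by omega) hm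
  have hN0 : N₀ ≤ (B \ L).card := (le_max_left _ _).trans hN'
  have hN1 : N₁ ≤ (B \ L).card := (le_max_right _ _).trans hN'
  have hLm : (L.card : ℝ) * m / B.card ≤ ε / 4 := by
    refine le_trans ?_ hKm
    apply div_le_div_of_nonneg_right _ (Nat.cast_nonneg _)
    exact mul_le_mul_of_nonneg_right (by exact_mod_cast hLK) (Nat.cast_nonneg _)
  have hpsi : 0 ≤ psi c μ := psi_nonneg c μ
  have hpow : (0 : ℝ) < (3 / 4) ^ (p + 1) := by positivity
  have hsmall : ∀ i ∈ B \ L, ‖w i‖ ≤ d := by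
    intro i hi
    rw [Finset.mem_sdiff, hLdef, Finset.mem_filter, not_and, not_le] at hi
    exact (hi.2 hi.1).le
  by_cases hcase : ∀ u : E c, s ^ 2 * ‖u‖ ^ 2 ≤ ∑ i ∈ B \ L, ⟪u, w i⟫ ^ 2
  · -- renormalise
    have hspan : ∀ u : E c, u ≠ 0 → ∃ i ∈ B \ L, ⟪u, w i⟫ ≠ 0 := by
      intro u hu
      by_contra hcon
      push Not at hcon
      have h1 := hcase u
      have h2 : ∑ i ∈ B \ L, ⟪u, w i⟫ ^ 2 = 0 :=
        Finset.sum_eq_zero fun i hi => by rw [hcon i hi]; ring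
      rw [h2] at h1
      have h3 : 0 < ‖u‖ := norm_pos_iff.mpr hu
      have : 0 < s ^ 2 * ‖u‖ ^ 2 := by positivity
      linarith
    obtain ⟨Φ, C, hC, hI'⟩ := exists_iso w (B \ L) hspan
    have hnorm : ∀ i ∈ B \ L, ‖Φ (w i)‖ ≤ δ₁ := by
      intro i hi
      have h1 := iso_norm_le hC hI' (η := s ^ 2) (by positivity) hcase (w i)
      have h2 := hsmall i hi
      have h3 : s * ‖Φ (w i)‖ ≤ d := by
        have h4 : (s * ‖Φ (w i)‖) ^ 2 ≤ ‖w i‖ ^ 2 := by rw [mul_pow]; exact h1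
        have h5 := abs_le_of_sq_le_sq' h4 (norm_nonneg _)
        linarith [h5.2]
      rw [hd] at h3
      nlinarith
    have hfr : ∀ y' : E c, fr w (B \ L) y' m ≤ psi c μ + ε / 4 := by
      intro y'
      rw [← fr_map w (B \ L) y' m Φ]
      exact h₁ _ _ _ _ hI' hnorm hN1 (hmδ.trans hδ'1')
    have hrem := fr_remove w hL y hm'
    have hsum : (∑ A ∈ L.powerset, fr w (B \ L) (y + sm w A L) m) / 2 ^ L.card ≤
        psi c μ + ε / 4 := by
      rw [div_le_iff₀ (by positivity)]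
      refine (Finset.sum_le_sum fun A _ => hfr (y + sm w A L)).trans ?_
      rw [Finset.sum_const, Finset.card_powerset, nsmul_eq_mul]
      push_cast
      exact le_of_eq (mul_comm _ _)
    linarith
  · push Not at hcase
    obtain ⟨u, hu⟩ := hcase
    have hu0 : u ≠ 0 := by
      intro h
      rw [h] at hu
      have : 0 ≤ ∑ i ∈ B \ L, ⟪(0 : E c), w i⟫ ^ 2 := Finset.sum_nonneg fun _ _ => sq_nonneg _
      simp only [norm_zero] at hu
      nlinarith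
    have hnu : 0 < ‖u‖ := norm_pos_iff.mpr hu0
    set v : E c := (‖u‖)⁻¹ • u with hv
    have hv1 : ‖v‖ = 1 := by
      rw [hv, norm_smul, norm_inv, norm_norm, inv_mul_cancel₀ hnu.ne']
    have hvs : ∑ i ∈ B \ L, ⟪v, w i⟫ ^ 2 ≤ s ^ 2 := by
      have h1 : ∑ i ∈ B \ L, ⟪v, w i⟫ ^ 2 = (‖u‖⁻¹) ^ 2 * ∑ i ∈ B \ L, ⟪u, w i⟫ ^ 2 := by
        rw [Finset.mul_sum]
        refine Finset.sum_congr rfl fun i _ => ?_
        rw [hv, real_inner_smul_left]
        ring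
      rw [h1]
      have h2 : (‖u‖⁻¹) ^ 2 * ∑ i ∈ B \ L, ⟪u, w i⟫ ^ 2 ≤ (‖u‖⁻¹) ^ 2 * (s ^ 2 * ‖u‖ ^ 2) :=
        mul_le_mul_of_nonneg_left hu.le (by positivity)
      refine h2.trans (le_of_eq ?_)
      field_simp
    have hst : s ^ 2 + 10 * (1 / 4 : ℝ) ^ 2 ≤ 1 := by nlinarith
    have hdeg := deg_step hL hI hv1 hvs (t := 1 / 4) (by norm_num) hst
      (S := psi c μ + (3 / 4) ^ p + ε / 4) (by positivity) hm' y
      (fun y' => h₀ w (B \ L) y' m hN0 (hmδ.trans hδ'0'))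
    have hmm : (m : ℝ) / Real.sqrt (B \ L).card ≤ μ + 1 := by
      have := (abs_le.mp hmδ).2
      linarith
    rw [Real.sqrt_sq hs0.le] at hdeg
    have h1 : 4 * s ^ 2 / (1 / 4 : ℝ) ^ 2 ≤ ε / 8 := by
      have h2 : s ≤ ε / 256 := by
        refine hs2.trans ?_
        apply div_le_div_of_nonneg_left hε.le (by norm_num)
        nlinarith
      have h3 : 4 * s ^ 2 / (1 / 4 : ℝ) ^ 2 = 64 * (s * s) := by ring
      rw [h3]
      nlinarith
    have h2 : 2 / (1 / 4 : ℝ) * ((m : ℝ) / Real.sqrt (B \ L).card) * s ≤ ε / 8 := by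
      have h3 : (m : ℝ) / Real.sqrt (B \ L).card * s ≤ (μ + 1) * (ε / (256 * (μ + 1))) :=
        mul_le_mul hmm hs2 hs0.le (by positivity)
      have h4 : (μ + 1) * (ε / (256 * (μ + 1))) = ε / 256 := by field_simp
      have h5 : 2 / (1 / 4 : ℝ) * ((m : ℝ) / Real.sqrt (B \ L).card) * s =
          8 * ((m : ℝ) / Real.sqrt (B \ L).card * s) := by ring
      rw [h5]
      linarith
    have h3 : (3 / 4 : ℝ) ^ (p + 1) = 3 / 4 * (3 / 4) ^ p := pow_succ' _ _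
    rw [h3]
    linarith

/-- PROOF: induction on `p` (note, section 3). If `w` does not span on `B`, `fr_eq_zero`. Otherwise normalise (`exists_iso`, `fr_map`);
`L = {i ∈ B : δ₁ ≤ ‖w i‖}`, `Iso.card_large`. Either `η ‖u‖ ^ 2 ≤ ∑ i ∈ B \ L, ⟪u, w i⟫ ^ 2` for all `u`: `fr_remove`, `exists_iso` for `B \ L`,
`iso_norm_le`, `nonDeg`; or `deg_step` with the induction hypothesis. -/
theorem upperFr_aux {c : ℕ} (hc : 1 ≤ c) {μ : ℝ} (hμ : 0 < μ) (p : ℕ) : ∀ {ε : ℝ}, 0 < ε →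
    ∃ (N : ℕ) (δ : ℝ), 0 < δ ∧ ∀ (w : ℕ → E c) (B : Finset ℕ) (y : E c) (m : ℕ),
      N ≤ B.card → |(m : ℝ) / Real.sqrt B.card - μ| ≤ δ →
      fr w B y m ≤ psi c μ + (3 / 4) ^ p + ε := by
  induction p with
  | zero =>
    intro ε hε
    refine ⟨0, 1, one_pos, fun w B y m _ _ => ?_⟩
    have h1 := up_fr_le_one w B y m
    have h2 := psi_nonneg c μ
    rw [pow_zero]
    linarith
  | succ p ih =>
    intro ε hε
    obtain ⟨N, δ, hδ, h⟩ := up_iso_step hc hμ p (fun {ε} hε => ih hε) hε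
    refine ⟨N, δ, hδ, fun w B y m hB hm => ?_⟩
    by_cases hspan : ∀ u : E c, u ≠ 0 → ∃ i ∈ B, ⟪u, w i⟫ ≠ 0
    · obtain ⟨Φ, C, _, hI⟩ := exists_iso w B hspan
      rw [← fr_map w B y m Φ]
      exact h _ _ _ _ hI hB hm
    · push Not at hspan
      obtain ⟨u, hu, hz⟩ := hspan
      rw [fr_eq_zero y m hu hz]
      have h2 := psi_nonneg c μ
      positivity

/-- The upper bound for all families. -/
theorem upperFr {c : ℕ} (hc : 1 ≤ c) {μ ε : ℝ} (hμ : 0 < μ) (hε : 0 < ε) :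
    ∃ (N : ℕ) (δ : ℝ), 0 < δ ∧ ∀ (w : ℕ → E c) (B : Finset ℕ) (y : E c) (m : ℕ),
      N ≤ B.card → |(m : ℝ) / Real.sqrt B.card - μ| ≤ δ → fr w B y m ≤ psi c μ + ε := by
  obtain ⟨p, hp⟩ := exists_pow_lt_of_lt_one (show (0 : ℝ) < ε / 2 by positivity)
    (show (3 / 4 : ℝ) < 1 by norm_num)
  obtain ⟨N, δ, hδ, h⟩ := upperFr_aux hc hμ p (ε := ε / 2) (by positivity)
  refine ⟨N, δ, hδ, fun w B y m hB hm => (h w B y m hB hm).trans ?_⟩
  linarith

end Pool.Agent.H.MP_4bcbbd_co.F
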